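import Pool.Agent.L0h69.SI.Sieve

/-!
# Numbers with all small primes of symbol one in a short arithmetic progression
-/

set_option autoImplicit false

namespace Pool.Agent.L0h69.SI

open Finset Real Pool.Agent.W57.SW

/-- reciprocity -/
lemma recip {m q r : ℕ} (hm : Odd m) (hq : Odd q) (hr : m % 4 = r)
    (h : jacobiSym (q : ℤ) m = 1) : (jacobiSym (m : ℤ) q = jacobiSym (ZMod.χ₄ (r : ZMod 4)) q) ∧
      (jacobiSym (ZMod.χ₄ (r : ZMod 4)) q = 1 ∨ jacobiSym (ZMod.χ₄ (r : ZMod 4)) q = -1) := by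
  have h1 := jacobiSym.quadratic_reciprocity' hq hm
  have h2 : qrSign m q = jacobiSym (ZMod.χ₄ (r : ZMod 4)) q := by
    unfold qrSign
    have : ((m : ℕ) : ZMod 4) = ((r : ℕ) : ZMod 4) := by
      rw [← hr]
      exact (ZMod.natCast_mod m 4).symm
    rw [this]
  rw [h, h2] at h1
  rcases Int.mul_eq_one_iff_eq_one_or_neg_one.1 h1.symm with ⟨h3, h4⟩ | ⟨h3, h4⟩
  · exact ⟨by rw [h3, h4], Or.inl h3⟩
  · exact ⟨by rw [h3, h4], Or.inr h3⟩

lemma class_sieve (A δ : ℝ) (hA : 1 < A) (hδ : 0 < δ) : ∃ K : ℝ, 0 < K ∧ ∀ x b e L r : ℕ,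
    1 ≤ e → e ≤ x → 1 ≤ L → L ≤ x → ∀ T : Finset ℕ, T ⊆ range L →
    (∀ j ∈ T, b + e * j ∈ Dq A x ∧ (b + e * j) % 4 = r) →
    (T.card : ℝ) ≤ K * (x : ℝ) ^ (3 * δ) * (L : ℝ) ^ ((1 + 1 / A) / 2) := by
  classical
  have hA0 : 0 < A := by linarith
  have ha1 : 1 / A < 1 := by rw [div_lt_one hA0]; exact hA
  have ha0 : 0 < 1 / A := by positivity
  obtain ⟨D0, hD0⟩ := smooth_many A δ hA hδ
  obtain ⟨C, hC, hdiv⟩ := Helper112.divisor_bound δ hδ
  refine ⟨((D0 : ℝ) + 1) ^ 2 + 24 * C ^ 2, by positivity, ?_⟩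
  intro x b e L r he hex hL hLx T hT hTD
  have hx1 : 1 ≤ x := he.trans hex
  have hx1' : (1 : ℝ) ≤ x := by exact_mod_cast hx1
  have hx0 : (0 : ℝ) < x := by linarith
  have hL1 : (1 : ℝ) ≤ L := by exact_mod_cast hL
  have hL0 : (0 : ℝ) < L := by linarith
  have he1 : (1 : ℝ) ≤ e := by exact_mod_cast he
  have he0 : (0 : ℝ) < e := by linarith
  have hxδ : 1 ≤ (x : ℝ) ^ (3 * δ) := one_le_rpow hx1' (by positivity)
  have hLδ : 1 ≤ (L : ℝ) ^ ((1 + 1 / A) / 2) := one_le_rpow hL1 (by positivity)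
  have hTL : (T.card : ℝ) ≤ L := by
    have := card_le_card hT
    rw [card_range] at this
    exact_mod_cast this
  rcases T.eq_empty_or_nonempty with hT0 | ⟨j0, hj0⟩
  · rw [hT0]
    simp only [card_empty, Nat.cast_zero]
    positivity
  obtain ⟨Q, hQ⟩ : ∃ Q : ℕ, Q = Nat.sqrt L := ⟨_, rfl⟩
  have hQ1 : Q * Q ≤ L := by rw [hQ]; exact Nat.sqrt_le L
  have hQ2 : L < (Q + 1) * (Q + 1) := by rw [hQ]; exact Nat.lt_succ_sqrt L
  have hQ2' : (L : ℝ) < ((Q : ℝ) + 1) ^ 2 := by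
    have : (L : ℝ) < (((Q + 1) * (Q + 1) : ℕ) : ℝ) := by exact_mod_cast hQ2
    push_cast at this
    nlinarith
  rcases lt_or_ge Q D0 with hsm | hlg
  · have h1 : (L : ℝ) ≤ ((D0 : ℝ) + 1) ^ 2 := by
      have : (Q : ℝ) < D0 := by exact_mod_cast hsm
      have h3 : (0 : ℝ) ≤ Q := Nat.cast_nonneg _
      nlinarith
    calc (T.card : ℝ) ≤ (((D0 : ℝ) + 1) ^ 2 + 24 * C ^ 2) * 1 * 1 := by nlinarith
      _ ≤ (((D0 : ℝ) + 1) ^ 2 + 24 * C ^ 2) * (x : ℝ) ^ (3 * δ) * (L : ℝ) ^ ((1 + 1 / A) / 2) := by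
          apply mul_le_mul _ hLδ zero_le_one (by positivity)
          exact mul_le_mul_of_nonneg_left hxδ (by positivity)
  have hQpos : 1 ≤ Q := by
    rw [hQ, Nat.one_le_iff_ne_zero, Ne, Nat.sqrt_eq_zero]
    omega
  have hQ1' : (1 : ℝ) ≤ Q := by exact_mod_cast hQpos
  have hQ0 : (0 : ℝ) < Q := by linarith
  have hQL : Q ≤ L := (Nat.le_mul_self Q).trans hQ1
  have hQx : (Q : ℝ) ≤ x := by exact_mod_cast hQL.trans hLx
  obtain ⟨S0, hS0, hS0c⟩ := hD0 Q hlg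
  obtain ⟨P, hPdef⟩ : ∃ P : Finset ℕ, P = (opr ⌊(log x) ^ A⌋₊).filter (fun q => ¬ q ∣ e) :=
    ⟨_, rfl⟩
  have hPm : ∀ q ∈ P, q.Prime ∧ q ≠ 2 ∧ ¬ q ∣ e ∧ q ∈ opr ⌊(log x) ^ A⌋₊ := by
    intro q hq
    rw [hPdef, mem_filter] at hq
    have h1 := mem_opr.1 hq.1
    exact ⟨h1.1, h1.2.2, hq.2, hq.1⟩
  obtain ⟨I, hI⟩ : ∃ I : ℕ → Finset ℕ, ∀ q c, c ∈ I q ↔ (c < q ∧
      jacobiSym ((b : ℤ) + e * ((c : ℤ) - 1)) q = jacobiSym (ZMod.χ₄ (r : ZMod 4)) q) :=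
    ⟨fun q => (range q).filter fun c =>
      jacobiSym ((b : ℤ) + e * ((c : ℤ) - 1)) q = jacobiSym (ZMod.χ₄ (r : ZMod 4)) q,
      fun q c => by rw [mem_filter, mem_range]⟩
  have hrec : ∀ j ∈ T, ∀ q ∈ P,
      (jacobiSym ((b + e * j : ℕ) : ℤ) q = jacobiSym (ZMod.χ₄ (r : ZMod 4)) q) ∧
      (jacobiSym (ZMod.χ₄ (r : ZMod 4)) q = 1 ∨ jacobiSym (ZMod.χ₄ (r : ZMod 4)) q = -1) := by
    intro j hj q hq
    obtain ⟨h1, h2, h3, h4⟩ := hPm q hq
    obtain ⟨h5, h6⟩ := hTD j hj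
    rw [mem_Dq] at h5
    exact recip h5.2.1 (h1.odd_of_ne_two h2) h6 (h5.2.2.2 q h4)
  have hI2 : ∀ q ∈ P, 2 * (I q).card ≤ q := by
    intro q hq
    obtain ⟨h1, h2, h3, h4⟩ := hPm q hq
    have : Fact q.Prime := ⟨h1⟩
    have hs := (hrec j0 hj0 q hq).2
    refine le_trans ?_ (half_classes q h2 _ hs)
    apply Nat.mul_le_mul_left
    apply card_le_card_of_injOn (fun c : ℕ => (b : ZMod q) + (e : ZMod q) * ((c : ZMod q) - 1))
    · intro c hc
      rw [mem_coe, hI] at hc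
      rw [mem_coe, mem_filter]
      refine ⟨mem_univ _, ?_⟩
      rw [← hc.2, ← jacobiSym.legendreSym.to_jacobiSym]
      unfold legendreSym
      congr 1
      push_cast
      rfl
    · intro c hc c' hc' h
      rw [mem_coe, hI] at hc hc'
      have he' : (e : ZMod q) ≠ 0 := by
        rw [Ne, ZMod.natCast_eq_zero_iff]
        exact h3
      have h5 : (c : ZMod q) = (c' : ZMod q) :=
        sub_left_injective (mul_left_cancel₀ he' (add_left_cancel h))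
      rw [ZMod.natCast_eq_natCast_iff', Nat.mod_eq_of_lt hc.1, Nat.mod_eq_of_lt hc'.1] at h5
      exact h5
  -- the moduli
  obtain ⟨S, hSdef⟩ : ∃ S : Finset (Finset ℕ),
      S = S0.image (fun s => s.primeFactors.filter (fun q => ¬ q ∣ e)) := ⟨_, rfl⟩
  have hlogQ : (log (Q : ℝ)) ^ A ≤ (log (x : ℝ)) ^ A :=
    rpow_le_rpow (log_natCast_nonneg Q) (log_le_log hQ0 hQx) hA0.le
  have hS : ∀ s ∈ S, s ⊆ P ∧ ∏ q ∈ s, q ≤ Q := by
    intro s hs
    rw [hSdef, mem_image] at hs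
    obtain ⟨s, hs, rfl⟩ := hs
    obtain ⟨a1, a2, a3, a4, a5⟩ := hS0 s hs
    constructor
    · intro q hq
      rw [mem_filter, Nat.mem_primeFactors] at hq
      rw [hPdef, mem_filter, mem_opr]
      refine ⟨⟨hq.1.1, Nat.le_floor ((a5 q hq.1.1 hq.1.2.1).trans hlogQ), ?_⟩, hq.2⟩
      rintro rfl
      rw [← Nat.not_even_iff_odd, even_iff_two_dvd] at a3
      exact a3 hq.1.2.1
    · have h1 : ∏ q ∈ s.primeFactors.filter (fun q => ¬ q ∣ e), q ∣ s :=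
        (prod_dvd_prod_of_subset _ _ _ (filter_subset _ _)).trans (Nat.prod_primeFactors_dvd s)
      exact (Nat.le_of_dvd (by omega) h1).trans a2
  have hSc : ∀ s ∈ S, (C * (Q : ℝ) ^ δ)⁻¹ ≤ (1 / 2 : ℝ) ^ s.card := by
    intro s hs
    rw [hSdef, mem_image] at hs
    obtain ⟨s, hs, rfl⟩ := hs
    obtain ⟨a1, a2, a3, a4, a5⟩ := hS0 s hs
    have h1 : ((2 : ℝ)) ^ (s.primeFactors.filter (fun q => ¬ q ∣ e)).card ≤ C * (Q : ℝ) ^ δ := by
      have h2 : (s.primeFactors.filter (fun q => ¬ q ∣ e)).card ≤ s.primeFactors.card :=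
        card_filter_le _ _
      have h3 : 2 ^ (s.primeFactors.filter (fun q => ¬ q ∣ e)).card ≤ s.divisors.card :=
        (Nat.pow_le_pow_right (by norm_num) h2).trans (two_pow_le s (by omega))
      have h4 : ((2 : ℝ)) ^ (s.primeFactors.filter (fun q => ¬ q ∣ e)).card ≤ s.divisors.card := by
        exact_mod_cast h3
      refine h4.trans ((hdiv s a1).trans ?_)
      apply mul_le_mul_of_nonneg_left _ hC.le
      exact rpow_le_rpow (Nat.cast_nonneg _) (by exact_mod_cast a2) hδ.le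
    rw [one_div, inv_pow]
    exact inv_anti₀ (by positivity) h1
  have hS0S : (S0.card : ℝ) ≤ S.card * (C * (e : ℝ) ^ δ) := by
    have h1 : S0.card ≤ (S ×ˢ e.primeFactors.powerset).card := by
      apply card_le_card_of_injOn (fun s => (s.primeFactors.filter (fun q => ¬ q ∣ e),
        s.primeFactors.filter (fun q => q ∣ e)))
      · intro s hs
        rw [mem_coe] at hs
        rw [mem_coe, mem_product, mem_powerset]
        refine ⟨?_, ?_⟩
        · rw [hSdef]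
          exact mem_image_of_mem _ hs
        · intro q hq
          rw [mem_filter, Nat.mem_primeFactors] at hq
          rw [Nat.mem_primeFactors]
          exact ⟨hq.1.1, hq.2, by omega⟩
      · intro s hs s' hs' h
        rw [mem_coe] at hs hs'
        simp only [Prod.mk.injEq] at h
        have e1 : s.primeFactors = s'.primeFactors := by
          ext q
          have h3 := congrArg (fun U : Finset ℕ => q ∈ U) h.1
          have h4 := congrArg (fun U : Finset ℕ => q ∈ U) h.2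
          simp only [mem_filter, eq_iff_iff] at h3 h4
          tauto
        rw [← Nat.prod_primeFactors_of_squarefree (hS0 s hs).2.2.2.1,
          ← Nat.prod_primeFactors_of_squarefree (hS0 s' hs').2.2.2.1, e1]
    rw [card_product, card_powerset] at h1
    have h2 : S0.card ≤ S.card * e.divisors.card :=
      h1.trans (Nat.mul_le_mul_left _ (two_pow_le e (by omega)))
    have h3 : (S0.card : ℝ) ≤ S.card * e.divisors.card := by exact_mod_cast h2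
    exact h3.trans (mul_le_mul_of_nonneg_left (hdiv e he) (Nat.cast_nonneg _))
  -- the sieve
  obtain ⟨T', hT'⟩ : ∃ T' : Finset ℕ, T' = T.image (fun j => j + 1) := ⟨_, rfl⟩
  have hTc : T'.card = T.card := by
    rw [hT']
    exact card_image_of_injective _ (add_left_injective 1)
  have hT'L : T' ⊆ Icc 1 L := by
    intro n hn
    rw [hT', mem_image] at hn
    obtain ⟨j, hj, rfl⟩ := hn
    have := mem_range.1 (hT hj)
    rw [mem_Icc]
    omega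
  have hT'I : ∀ n ∈ T', ∀ q ∈ P, n % q ∈ I q := by
    intro n hn q hq
    rw [hT', mem_image] at hn
    obtain ⟨j, hj, rfl⟩ := hn
    have hqp := (hPm q hq).1
    rw [hI]
    refine ⟨Nat.mod_lt _ hqp.pos, ?_⟩
    rw [← (hrec j hj q hq).1]
    apply jacobiSym.mod_left'
    have h1 : (((j + 1) % q : ℕ) : ℤ) ≡ (j : ℤ) + 1 [ZMOD q] := by
      push_cast
      exact Int.mod_modEq _ _
    have h2 : (b : ℤ) + e * ((((j + 1) % q : ℕ) : ℤ) - 1) ≡ b + e * ((j : ℤ) + 1 - 1) [ZMOD q] :=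
      (Int.ModEq.refl _).add ((Int.ModEq.refl _).mul (h1.sub (Int.ModEq.refl _)))
    have h3 : (b : ℤ) + e * ((j : ℤ) + 1 - 1) = ((b + e * j : ℕ) : ℤ) := by push_cast; ring
    rw [h3] at h2
    exact h2
  have hcpos : 0 < (C * (Q : ℝ) ^ δ)⁻¹ := by positivity
  have key := sieve_core L Q P I S (fun q hq => (hPm q hq).1)
    (fun q _ c hc => mem_range.2 ((hI q c).1 hc).1) hI2 hS T' hT'L hT'I _ hcpos hSc
  rw [hTc] at key
  -- conclusion
  have hQQ : (Q : ℝ) ^ 2 ≤ L := by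
    have : ((Q * Q : ℕ) : ℝ) ≤ L := by exact_mod_cast hQ1
    push_cast at this
    nlinarith
  have k1 : (T.card : ℝ) * S.card ≤ 12 * L * (C * (Q : ℝ) ^ δ) := by
    have h1 : (T.card : ℝ) * S.card * (C * (Q : ℝ) ^ δ)⁻¹ ≤ 12 * L := by
      calc (T.card : ℝ) * S.card * (C * (Q : ℝ) ^ δ)⁻¹ =
          (T.card : ℝ) * ((C * (Q : ℝ) ^ δ)⁻¹ * S.card) := by ring
        _ ≤ 6 * ((L : ℝ) + (Q : ℝ) ^ 2) := key
        _ ≤ 12 * L := by linarith
    rwa [← div_eq_mul_inv, div_le_iff₀ (by positivity)] at h1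
  have k2 : (T.card : ℝ) * (Q : ℝ) ^ (1 - 1 / A - δ) ≤
      12 * L * (C * (Q : ℝ) ^ δ) * (C * (e : ℝ) ^ δ) := by
    calc (T.card : ℝ) * (Q : ℝ) ^ (1 - 1 / A - δ) ≤ (T.card : ℝ) * (S.card * (C * (e : ℝ) ^ δ)) :=
          mul_le_mul_of_nonneg_left (hS0c.trans hS0S) (Nat.cast_nonneg _)
      _ = (T.card : ℝ) * S.card * (C * (e : ℝ) ^ δ) := by ring
      _ ≤ _ := mul_le_mul_of_nonneg_right k1 (by positivity)
  have k3 : (T.card : ℝ) * (Q : ℝ) ^ (1 - 1 / A) ≤ 12 * C ^ 2 * L * (x : ℝ) ^ (3 * δ) := by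
    have e1 : (Q : ℝ) ^ (1 - 1 / A) = (Q : ℝ) ^ (1 - 1 / A - δ) * (Q : ℝ) ^ δ := by
      rw [← rpow_add hQ0]; congr 1; ring
    have e2 : (x : ℝ) ^ (3 * δ) = (x : ℝ) ^ δ * (x : ℝ) ^ δ * (x : ℝ) ^ δ := by
      rw [← rpow_add hx0, ← rpow_add hx0]; congr 1; ring
    have e3 : (Q : ℝ) ^ δ ≤ (x : ℝ) ^ δ := rpow_le_rpow hQ0.le hQx hδ.le
    have e4 : (e : ℝ) ^ δ ≤ (x : ℝ) ^ δ := rpow_le_rpow he0.le (by exact_mod_cast hex) hδ.le
    rw [e1, e2]
    calc (T.card : ℝ) * ((Q : ℝ) ^ (1 - 1 / A - δ) * (Q : ℝ) ^ δ) =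
        ((T.card : ℝ) * (Q : ℝ) ^ (1 - 1 / A - δ)) * (Q : ℝ) ^ δ := by ring
      _ ≤ (12 * L * (C * (Q : ℝ) ^ δ) * (C * (e : ℝ) ^ δ)) * (Q : ℝ) ^ δ :=
          mul_le_mul_of_nonneg_right k2 (by positivity)
      _ = 12 * C ^ 2 * L * ((Q : ℝ) ^ δ * (e : ℝ) ^ δ * (Q : ℝ) ^ δ) := by ring
      _ ≤ 12 * C ^ 2 * L * ((x : ℝ) ^ δ * (x : ℝ) ^ δ * (x : ℝ) ^ δ) := by
          apply mul_le_mul_of_nonneg_left _ (by positivity)
          apply mul_le_mul _ e3 (by positivity) (by positivity)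
          exact mul_le_mul e3 e4 (by positivity) (by positivity)
  have k4 : (L : ℝ) ^ ((1 - 1 / A) / 2) ≤ 2 * (Q : ℝ) ^ (1 - 1 / A) := by
    have h1 : (L : ℝ) ≤ (2 * (Q : ℝ)) ^ 2 := by
      have : (Q : ℝ) + 1 ≤ 2 * Q := by linarith
      nlinarith
    have h2 : (L : ℝ) ^ ((1 - 1 / A) / 2) ≤ ((2 * (Q : ℝ)) ^ 2) ^ ((1 - 1 / A) / 2) :=
      rpow_le_rpow hL0.le h1 (by linarith)
    have h3 : ((2 * (Q : ℝ)) ^ 2) ^ ((1 - 1 / A) / 2) = 2 ^ (1 - 1 / A) * (Q : ℝ) ^ (1 - 1 / A) := by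
      rw [← rpow_natCast, ← rpow_mul (by positivity), ← mul_rpow (by norm_num) hQ0.le]
      congr 1
      push_cast
      ring
    have h4 : (2 : ℝ) ^ (1 - 1 / A) ≤ 2 := by
      calc (2 : ℝ) ^ (1 - 1 / A) ≤ 2 ^ (1 : ℝ) :=
            rpow_le_rpow_of_exponent_le (by norm_num) (by linarith)
        _ = 2 := rpow_one 2
    rw [h3] at h2
    exact h2.trans (mul_le_mul_of_nonneg_right h4 (by positivity))
  have k5 : (T.card : ℝ) * (L : ℝ) ^ ((1 - 1 / A) / 2) ≤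
      (24 * C ^ 2 * (x : ℝ) ^ (3 * δ) * (L : ℝ) ^ ((1 + 1 / A) / 2)) *
        (L : ℝ) ^ ((1 - 1 / A) / 2) := by
    have e1 : (L : ℝ) ^ ((1 + 1 / A) / 2) * (L : ℝ) ^ ((1 - 1 / A) / 2) = L := by
      rw [← rpow_add hL0]
      have : (1 + 1 / A) / 2 + (1 - 1 / A) / 2 = 1 := by ring
      rw [this, rpow_one]
    calc (T.card : ℝ) * (L : ℝ) ^ ((1 - 1 / A) / 2) ≤
        (T.card : ℝ) * (2 * (Q : ℝ) ^ (1 - 1 / A)) :=
          mul_le_mul_of_nonneg_left k4 (Nat.cast_nonneg _)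
      _ = 2 * ((T.card : ℝ) * (Q : ℝ) ^ (1 - 1 / A)) := by ring
      _ ≤ 2 * (12 * C ^ 2 * L * (x : ℝ) ^ (3 * δ)) := by linarith
      _ = 24 * C ^ 2 * (x : ℝ) ^ (3 * δ) * L := by ring
      _ = 24 * C ^ 2 * (x : ℝ) ^ (3 * δ) * ((L : ℝ) ^ ((1 + 1 / A) / 2) *
            (L : ℝ) ^ ((1 - 1 / A) / 2)) := by rw [e1]
      _ = _ := by ring
  have k6 := le_of_mul_le_mul_right k5 (by positivity)
  refine k6.trans ?_
  apply mul_le_mul_of_nonneg_right _ (by positivity)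
  apply mul_le_mul_of_nonneg_right _ (by positivity)
  have : 0 ≤ ((D0 : ℝ) + 1) ^ 2 := by positivity
  linarith

/-- The numbers in a progression of length `L`. -/
theorem ap_sieve (A δ : ℝ) (hA : 1 < A) (hδ : 0 < δ) : ∃ K : ℝ, 0 < K ∧ ∀ x b e L : ℕ,
    1 ≤ e → e ≤ x → 1 ≤ L → L ≤ x → ∀ T : Finset ℕ, T ⊆ range L →
    (∀ j ∈ T, b + e * j ∈ Dq A x) →
    (T.card : ℝ) ≤ K * (x : ℝ) ^ δ * (L : ℝ) ^ ((1 + 1 / A) / 2) := by
  classical
  obtain ⟨K, hK, h⟩ := class_sieve A (δ / 3) hA (by positivity)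
  refine ⟨4 * K, by positivity, ?_⟩
  intro x b e L he hex hL hLx T hT hTD
  have h1 : T.card = ∑ r ∈ range 4, (T.filter (fun j => (b + e * j) % 4 = r)).card :=
    card_eq_sum_card_fiberwise fun j _ => by
      rw [mem_coe, mem_range]
      exact Nat.mod_lt _ (by norm_num)
  have h2 : ∀ r ∈ range 4, ((T.filter (fun j => (b + e * j) % 4 = r)).card : ℝ) ≤
      K * (x : ℝ) ^ δ * (L : ℝ) ^ ((1 + 1 / A) / 2) := by
    intro r _
    have h3 := h x b e L r he hex hL hLx (T.filter (fun j => (b + e * j) % 4 = r))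
      ((filter_subset _ _).trans hT) (fun j hj => by
        rw [mem_filter] at hj
        exact ⟨hTD j hj.1, hj.2⟩)
    rwa [show 3 * (δ / 3) = δ by ring] at h3
  rw [h1]
  push_cast
  refine (sum_le_sum h2).trans (le_of_eq ?_)
  rw [sum_const, card_range, nsmul_eq_mul]
  push_cast
  ring

end Pool.Agent.L0h69.SI
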