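import Pool.Agent.L0h69.SI.Main

/-!
# Composite numbers without a small witness in short intervals: the count
-/

set_option autoImplicit false

namespace Pool.Agent.L0h69.SI

open Finset Real Pool.Agent.W57.SW

open Classical in
/-- the second part: large prime factor -/
lemma part_two (A δ β : ℝ) (hA : 2 ≤ A) (hδ : 0 < δ) (hβ : 1 / A + δ < β) (hβ1 : β ≤ 1) :
    ∃ K : ℝ, 0 < K ∧ ∀ x H X M₀ : ℕ, 1 ≤ x → x ≤ X → 1 ≤ M₀ → M₀ ≤ X →
    ((((Dq A X).filter (fun m => 2 ≤ m ∧ m ≤ M₀)).biUnion (fun m => (m - 1).divisors.biUnion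
      (fun e => (Ioc x (x + H)).filter (fun n => ∃ t : ℕ, n = (e * t + 1) * m ∧
        ((e * t + 1 : ℕ) : ℝ) ^ (1 - β) ≤ e)))).card : ℝ) ≤
      K * (X : ℝ) ^ δ * (H * (x : ℝ) ^ (β - 1) + (M₀ : ℝ) ^ (1 / A + δ)) := by
  have hA0 : 0 < A := by linarith
  have hA1 : 0 < 1 / A := by positivity
  obtain ⟨K, hK, hrank⟩ := Dq_rank A δ (by linarith) hδ
  obtain ⟨C, hC, hdiv⟩ := Helper112.divisor_bound δ hδ
  obtain ⟨α, hα⟩ : ∃ α : ℝ, α = 1 / A + δ := ⟨_, rfl⟩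
  rw [← hα] at hrank hβ ⊢
  have hα0 : 0 < α := by rw [hα]; positivity
  obtain ⟨R, hR⟩ : ∃ R : ℝ, R = K ^ (β / α) * ∑' k : ℕ, (k : ℝ) ^ (-(β / α)) := ⟨_, rfl⟩
  have hR0 : 0 ≤ R := by rw [hR]; positivity
  refine ⟨C * (R + K), by positivity, ?_⟩
  intro x H X M₀ hx hxX hM1 hMX
  have hx0 : (0 : ℝ) < x := by exact_mod_cast hx
  have hX1 : 1 ≤ X := hx.trans hxX
  have hX0 : (0 : ℝ) < X := by exact_mod_cast hX1
  have hsum : ∑ m ∈ Dq A X, (m : ℝ) ^ (-β) ≤ R := by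
    rw [hR]
    apply rank_sum (Dq A X) K α β hK hα0 hβ
    · intro q hq; exact (mem_Dq.mp hq).1.1
    · intro q hq
      exact hrank X q (mem_Dq.mp hq).1.1 (mem_Dq.mp hq).1.2
  refine (card_biUnion_real _ _).trans ?_
  have e2 : ∀ m ∈ (Dq A X).filter (fun m => 2 ≤ m ∧ m ≤ M₀), (((m - 1).divisors.biUnion
      (fun e => (Ioc x (x + H)).filter (fun n => ∃ t : ℕ, n = (e * t + 1) * m ∧
        ((e * t + 1 : ℕ) : ℝ) ^ (1 - β) ≤ e))).card : ℝ) ≤
      C * (X : ℝ) ^ δ * (H * (x : ℝ) ^ (β - 1) * (m : ℝ) ^ (-β) + 1) := by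
    intro m hm
    rw [mem_filter, mem_Dq] at hm
    obtain ⟨⟨⟨m1, m2⟩, _, _⟩, hm2, hm3⟩ := hm
    refine (card_biUnion_real _ _).trans ?_
    have d1 : ((m - 1).divisors.card : ℝ) ≤ C * (X : ℝ) ^ δ := by
      refine (hdiv (m - 1) (by omega)).trans ?_
      apply mul_le_mul_of_nonneg_left _ hC.le
      apply rpow_le_rpow (Nat.cast_nonneg _) _ hδ.le
      have : m - 1 ≤ X := by omega
      exact_mod_cast this
    have d2 : ∀ e ∈ (m - 1).divisors, (((Ioc x (x + H)).filter (fun n => ∃ t : ℕ,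
        n = (e * t + 1) * m ∧ ((e * t + 1 : ℕ) : ℝ) ^ (1 - β) ≤ e)).card : ℝ) ≤
        H * (x : ℝ) ^ (β - 1) * (m : ℝ) ^ (-β) + 1 := by
      intro e he
      apply case_m x H m e β hβ1 hx m1 (Nat.pos_of_mem_divisors he) _ (filter_subset _ _)
      intro n hn
      exact (mem_filter.1 hn).2
    refine (sum_le_sum d2).trans ?_
    rw [sum_const, nsmul_eq_mul]
    exact mul_le_mul_of_nonneg_right d1 (by positivity)
  refine (sum_le_sum e2).trans ?_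
  rw [← mul_sum, sum_add_distrib, ← mul_sum, sum_const, nsmul_eq_mul, mul_one]
  have e3 : ∑ m ∈ (Dq A X).filter (fun m => 2 ≤ m ∧ m ≤ M₀), (m : ℝ) ^ (-β) ≤ R := by
    refine le_trans ?_ hsum
    apply sum_le_sum_of_subset_of_nonneg (filter_subset _ _)
    intro m _ _; positivity
  have e4 : (((Dq A X).filter (fun m => 2 ≤ m ∧ m ≤ M₀)).card : ℝ) ≤ K * (M₀ : ℝ) ^ α := by
    refine le_trans ?_ (hrank X M₀ hM1 hMX)
    have : ((Dq A X).filter (fun m => 2 ≤ m ∧ m ≤ M₀)).card ≤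
        ((Dq A X).filter (fun m => m ≤ M₀)).card := by
      apply card_le_card
      intro m hm
      rw [mem_filter] at hm ⊢
      exact ⟨hm.1, hm.2.2⟩
    exact_mod_cast this
  have e5 : (H : ℝ) * (x : ℝ) ^ (β - 1) * ∑ m ∈ (Dq A X).filter (fun m => 2 ≤ m ∧ m ≤ M₀),
      (m : ℝ) ^ (-β) + (((Dq A X).filter (fun m => 2 ≤ m ∧ m ≤ M₀)).card : ℝ) ≤
      (R + K) * (H * (x : ℝ) ^ (β - 1) + (M₀ : ℝ) ^ α) := by
    have f1 : (H : ℝ) * (x : ℝ) ^ (β - 1) * ∑ m ∈ (Dq A X).filter (fun m => 2 ≤ m ∧ m ≤ M₀),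
      (m : ℝ) ^ (-β) ≤ H * (x : ℝ) ^ (β - 1) * R := mul_le_mul_of_nonneg_left e3 (by positivity)
    have f2 : 0 ≤ K * (H * (x : ℝ) ^ (β - 1)) := by positivity
    have f3 : 0 ≤ R * (M₀ : ℝ) ^ α := by positivity
    nlinarith
  calc C * (X : ℝ) ^ δ * ((H : ℝ) * (x : ℝ) ^ (β - 1) *
        ∑ m ∈ (Dq A X).filter (fun m => 2 ≤ m ∧ m ≤ M₀),
        (m : ℝ) ^ (-β) + (((Dq A X).filter (fun m => 2 ≤ m ∧ m ≤ M₀)).card : ℝ)) ≤
      C * (X : ℝ) ^ δ * ((R + K) * (H * (x : ℝ) ^ (β - 1) + (M₀ : ℝ) ^ α)) :=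
        mul_le_mul_of_nonneg_left e5 (by positivity)
    _ = _ := by ring

open Classical in
/-- the third part: small prime factor -/
lemma part_three (A δ : ℝ) (hA : 2 ≤ A) (hδ : 0 < δ) (hδ1 : 1 / A + 2 * δ ≤ 1) :
    ∃ K : ℝ, 0 < K ∧ ∀ x H X P₀ : ℕ, 1 ≤ x → H + 1 ≤ X → P₀ ≤ X →
    (((Icc 1 P₀).biUnion (fun p => ((p - 1).divisors.filter
      (fun e : ℕ => (p : ℝ) ^ (1 - (1 / A + 2 * δ)) ≤ e)).biUnion
      (fun e => (Ioc x (x + H)).filter (fun n => ∃ u : ℕ, n = p * (1 + e * u) ∧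
        1 + e * u ∈ Dq A X)))).card : ℝ) ≤
      K * (X : ℝ) ^ (5 * δ) * ((H : ℝ) ^ ((1 + 1 / A) / 2) + P₀) := by
  have hA0 : 0 < A := by linarith
  have hA1 : 0 < 1 / A := by positivity
  have hA2 : 1 / A ≤ 1 / 2 := by
    rw [div_le_div_iff₀ hA0 (by norm_num)]; linarith
  obtain ⟨K, hK, hsieve⟩ := ap_sieve A δ (by linarith) hδ
  obtain ⟨C, hC, hdiv⟩ := Helper112.divisor_bound δ hδ
  obtain ⟨s, hs⟩ : ∃ s : ℝ, s = (1 + 1 / A) / 2 := ⟨_, rfl⟩
  have hs0 : 0 < s := by rw [hs]; positivity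
  have hs1 : s ≤ 1 := by rw [hs]; linarith
  obtain ⟨R, hR⟩ : ∃ R : ℝ, R = ∑' k : ℕ, (k : ℝ) ^ (-(1 + δ)) := ⟨_, rfl⟩
  have hsummable : Summable fun k : ℕ => (k : ℝ) ^ (-(1 + δ)) :=
    Real.summable_nat_rpow.mpr (by linarith)
  have hR0 : 0 ≤ R := by rw [hR]; positivity
  refine ⟨C * K * (R + 1), by positivity, ?_⟩
  intro x H X P₀ hx hHX hPX
  rw [← hs]
  have hX1 : 1 ≤ X := by omega
  have hX1' : (1 : ℝ) ≤ X := by exact_mod_cast hX1
  have hX0 : (0 : ℝ) < X := by linarith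
  have hH0 : (0 : ℝ) ≤ H := Nat.cast_nonneg _
  refine (card_biUnion_real _ _).trans ?_
  have e2 : ∀ p ∈ Icc 1 P₀, ((((p - 1).divisors.filter
      (fun e : ℕ => (p : ℝ) ^ (1 - (1 / A + 2 * δ)) ≤ e)).biUnion
      (fun e => (Ioc x (x + H)).filter (fun n => ∃ u : ℕ, n = p * (1 + e * u) ∧
        1 + e * u ∈ Dq A X))).card : ℝ) ≤
      C * (X : ℝ) ^ δ * (K * (X : ℝ) ^ δ * ((H : ℝ) ^ s * (X : ℝ) ^ (3 * δ) *
        (p : ℝ) ^ (-(1 + δ)) + 1)) := by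
    intro p hp
    rw [mem_Icc] at hp
    have hp0 : (0 : ℝ) < p := by exact_mod_cast hp.1
    have hp1 : (1 : ℝ) ≤ p := by exact_mod_cast hp.1
    have hpX : (p : ℝ) ≤ X := by exact_mod_cast hp.2.trans hPX
    refine (card_biUnion_real _ _).trans ?_
    have d2 : ∀ e ∈ (p - 1).divisors.filter (fun e : ℕ => (p : ℝ) ^ (1 - (1 / A + 2 * δ)) ≤ e),
        (((Ioc x (x + H)).filter (fun n => ∃ u : ℕ, n = p * (1 + e * u) ∧
        1 + e * u ∈ Dq A X)).card : ℝ) ≤ K * (X : ℝ) ^ δ * ((H : ℝ) ^ s * (X : ℝ) ^ (3 * δ) *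
        (p : ℝ) ^ (-(1 + δ)) + 1) := by
      intro e he
      rw [mem_filter] at he
      have he1 := Nat.pos_of_mem_divisors he.1
      have he0 : (0 : ℝ) < e := by exact_mod_cast he1
      have hp2 : p - 1 ≠ 0 := (Nat.mem_divisors.1 he.1).2
      have heX : e ≤ X := (Nat.divisor_le he.1).trans ((Nat.sub_le _ _).trans (hp.2.trans hPX))
      have h1 := case_p A δ K hsieve hK x H X p e hHX hp.1 he1 heX
        ((Ioc x (x + H)).filter (fun n => ∃ u : ℕ, n = p * (1 + e * u) ∧ 1 + e * u ∈ Dq A X))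
        (filter_subset _ _) (fun n hn => (mem_filter.1 hn).2)
      rw [← hs] at h1
      refine h1.trans ?_
      apply mul_le_mul_of_nonneg_left _ (by positivity)
      have h2 : ((H / (p * e) + 1 : ℕ) : ℝ) ≤ (H : ℝ) * (p : ℝ) ^ (-(2 - (1 / A + 2 * δ))) + 1 := by
        push_cast
        have h3 : ((H / (p * e) : ℕ) : ℝ) ≤ (H : ℝ) / (p * e : ℕ) := Nat.cast_div_le
        have h4 : (H : ℝ) / (p * e : ℕ) ≤ (H : ℝ) * (p : ℝ) ^ (-(2 - (1 / A + 2 * δ))) := by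
          rw [div_le_iff₀ (by exact_mod_cast Nat.mul_pos hp.1 he1)]
          push_cast
          have h5 : (1 : ℝ) ≤ (p : ℝ) ^ (-(2 - (1 / A + 2 * δ))) * (p * e) := by
            have h6 : (1 : ℝ) = (p : ℝ) ^ (-(2 - (1 / A + 2 * δ))) *
                (p * (p : ℝ) ^ (1 - (1 / A + 2 * δ))) := by
              have h7 : (p : ℝ) * (p : ℝ) ^ (1 - (1 / A + 2 * δ)) =
                  (p : ℝ) ^ (2 - (1 / A + 2 * δ)) := by
                nth_rewrite 1 [← rpow_one (p : ℝ)]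
                rw [← rpow_add hp0]
                congr 1
                ring
              rw [h7, ← rpow_add hp0]
              have : -(2 - (1 / A + 2 * δ)) + (2 - (1 / A + 2 * δ)) = 0 := by ring
              rw [this, rpow_zero]
            calc (1 : ℝ) = (p : ℝ) ^ (-(2 - (1 / A + 2 * δ))) *
                (p * (p : ℝ) ^ (1 - (1 / A + 2 * δ))) := h6
              _ ≤ _ := by
                  apply mul_le_mul_of_nonneg_left _ (by positivity)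
                  exact mul_le_mul_of_nonneg_left he.2 hp0.le
          calc (H : ℝ) = H * 1 := (mul_one _).symm
            _ ≤ H * ((p : ℝ) ^ (-(2 - (1 / A + 2 * δ))) * (p * e)) :=
                mul_le_mul_of_nonneg_left h5 hH0
            _ = _ := by ring
        linarith
      have h3 : ((H / (p * e) + 1 : ℕ) : ℝ) ^ s ≤
          ((H : ℝ) * (p : ℝ) ^ (-(2 - (1 / A + 2 * δ)))) ^ s + 1 ^ s :=
        (rpow_le_rpow (Nat.cast_nonneg _) h2 hs0.le).trans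
          (rpow_add_le_add_rpow (by positivity) zero_le_one hs0.le hs1)
      rw [one_rpow, mul_rpow hH0 (by positivity), ← rpow_mul hp0.le] at h3
      refine h3.trans ?_
      have h4 : (p : ℝ) ^ (-(2 - (1 / A + 2 * δ)) * s) ≤ (X : ℝ) ^ (3 * δ) *
          (p : ℝ) ^ (-(1 + δ)) := by
        have h5 : (p : ℝ) ^ (-(2 - (1 / A + 2 * δ)) * s) ≤ (p : ℝ) ^ (3 * δ + -(1 + δ)) := by
          apply rpow_le_rpow_of_exponent_le hp1
          rw [hs]
          have h6 : 0 ≤ (1 - 1 / A) * (1 / A + 2 * δ) :=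
            mul_nonneg (by linarith) (by positivity)
          nlinarith
        rw [rpow_add hp0] at h5
        refine h5.trans ?_
        apply mul_le_mul_of_nonneg_right _ (by positivity)
        exact rpow_le_rpow hp0.le hpX (by positivity)
      have h5 : (H : ℝ) ^ s * (p : ℝ) ^ (-(2 - (1 / A + 2 * δ)) * s) ≤
          (H : ℝ) ^ s * ((X : ℝ) ^ (3 * δ) * (p : ℝ) ^ (-(1 + δ))) :=
        mul_le_mul_of_nonneg_left h4 (by positivity)
      linarith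
    refine (sum_le_sum d2).trans ?_
    rw [sum_const, nsmul_eq_mul]
    apply mul_le_mul_of_nonneg_right _ (by positivity)
    rcases Nat.lt_or_ge (p - 1) 1 with hp2 | hp2
    · have : p - 1 = 0 := by omega
      rw [this, Nat.divisors_zero, filter_empty, card_empty, Nat.cast_zero]
      positivity
    · have h1 : (((p - 1).divisors.filter
          (fun e : ℕ => (p : ℝ) ^ (1 - (1 / A + 2 * δ)) ≤ e)).card : ℝ) ≤
          (p - 1).divisors.card := by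
        exact_mod_cast card_filter_le _ _
      refine h1.trans ((hdiv (p - 1) hp2).trans ?_)
      apply mul_le_mul_of_nonneg_left _ hC.le
      apply rpow_le_rpow (Nat.cast_nonneg _) _ hδ.le
      have : p - 1 ≤ X := by omega
      exact_mod_cast this
  refine (sum_le_sum e2).trans ?_
  rw [← mul_sum, ← mul_sum, sum_add_distrib, ← mul_sum, sum_const, nsmul_eq_mul, mul_one,
    Nat.card_Icc, Nat.add_sub_cancel]
  have e3 : ∑ p ∈ Icc 1 P₀, (p : ℝ) ^ (-(1 + δ)) ≤ R := by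
    rw [hR]
    exact hsummable.sum_le_tsum _ fun k _ => by positivity
  have hX3 : 1 ≤ (X : ℝ) ^ (3 * δ) := one_le_rpow hX1' (by positivity)
  have e4 : (H : ℝ) ^ s * (X : ℝ) ^ (3 * δ) * ∑ p ∈ Icc 1 P₀, (p : ℝ) ^ (-(1 + δ)) + P₀ ≤
      (R + 1) * (X : ℝ) ^ (3 * δ) * ((H : ℝ) ^ s + P₀) := by
    have f1 : (H : ℝ) ^ s * (X : ℝ) ^ (3 * δ) * ∑ p ∈ Icc 1 P₀, (p : ℝ) ^ (-(1 + δ)) ≤
        (H : ℝ) ^ s * (X : ℝ) ^ (3 * δ) * R := mul_le_mul_of_nonneg_left e3 (by positivity)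
    have f2 : (P₀ : ℝ) ≤ (X : ℝ) ^ (3 * δ) * P₀ := by
      have : (0 : ℝ) ≤ P₀ := Nat.cast_nonneg _
      nlinarith
    have f3 : 0 ≤ R * (X : ℝ) ^ (3 * δ) * P₀ := by positivity
    have f4 : 0 ≤ (X : ℝ) ^ (3 * δ) * (H : ℝ) ^ s := by positivity
    nlinarith
  have e5 : (X : ℝ) ^ (5 * δ) = (X : ℝ) ^ δ * (X : ℝ) ^ δ * (X : ℝ) ^ (3 * δ) := by
    rw [← rpow_add hX0, ← rpow_add hX0]; congr 1; ring
  rw [e5]
  calc C * (X : ℝ) ^ δ * (K * (X : ℝ) ^ δ * ((H : ℝ) ^ s * (X : ℝ) ^ (3 * δ) *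
        ∑ p ∈ Icc 1 P₀, (p : ℝ) ^ (-(1 + δ)) + P₀)) ≤
      C * (X : ℝ) ^ δ * (K * (X : ℝ) ^ δ * ((R + 1) * (X : ℝ) ^ (3 * δ) *
        ((H : ℝ) ^ s + P₀))) := by
        apply mul_le_mul_of_nonneg_left _ (by positivity)
        exact mul_le_mul_of_nonneg_left e4 (by positivity)
    _ = _ := by ring

end Pool.Agent.L0h69.SI
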