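import Pool.Agent.L0h69.SI.Count

/-!
# Composite numbers without a small witness in short intervals: the theorem
-/

set_option autoImplicit false

namespace Pool.Agent.L0h69.SI

open Finset Real Pool.Agent.W57.SW

open Classical in
/-- the covering -/
lemma cover {A β P' : ℝ} {x H X n : ℕ} (hX : X = 2 * x) (hH : H ≤ x)
    (hn : n ∈ Ioc x (x + H)) (hb : Bd A n) (hlog : (log X) ^ A ≤ 2 * (log n) ^ A)
    (hlog2 : 2 ≤ (log X) ^ A) (hsq : Squarefree n)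
    (hgcd : ∀ q m : ℕ, q.Prime → n = q * m →
      (q : ℝ) ^ (1 - β) ≤ (Nat.gcd (q - 1) (m - 1) : ℝ) ∧ 2 ≤ m) (hP' : 0 < P') :
    n ∈ (Ioc x (x + H)).filter (fun n => n ∈ Dq A X) ∪
      ((((Dq A X).filter (fun m => 2 ≤ m ∧ m ≤ ⌊((2 * x : ℕ) : ℝ) / P'⌋₊)).biUnion
        (fun m => (m - 1).divisors.biUnion
        (fun e => (Ioc x (x + H)).filter (fun n => ∃ t : ℕ, n = (e * t + 1) * m ∧
        ((e * t + 1 : ℕ) : ℝ) ^ (1 - β) ≤ e)))) ∪
      ((Icc 1 ⌊P'⌋₊).biUnion (fun p => ((p - 1).divisors.filter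
      (fun e : ℕ => (p : ℝ) ^ (1 - β) ≤ e)).biUnion
      (fun e => (Ioc x (x + H)).filter (fun n => ∃ u : ℕ, n = p * (1 + e * u) ∧
        1 + e * u ∈ Dq A X))))) := by
  have hn' := mem_Ioc.1 hn
  rcases bd_struct hb (show n ≤ X by omega) hlog hlog2 hsq with h | h
  · rw [mem_union]
    exact Or.inl (mem_filter.2 ⟨hn, h⟩)
  · rw [mem_union, mem_union]
    right
    obtain ⟨p, m, hp, hnm, hm⟩ := h
    obtain ⟨g1, g2⟩ := hgcd p m hp hnm
    obtain ⟨e, he⟩ : ∃ e, e = Nat.gcd (p - 1) (m - 1) := ⟨_, rfl⟩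
    rw [← he] at g1
    have he1 : e ∣ p - 1 := by rw [he]; exact Nat.gcd_dvd_left _ _
    have he2 : e ∣ m - 1 := by rw [he]; exact Nat.gcd_dvd_right _ _
    have hp2 := hp.two_le
    rcases le_or_gt (p : ℝ) P' with hpP | hpP
    · right
      rw [mem_biUnion]
      refine ⟨p, mem_Icc.2 ⟨by omega, Nat.le_floor hpP⟩, ?_⟩
      rw [mem_biUnion]
      refine ⟨e, mem_filter.2 ⟨Nat.mem_divisors.2 ⟨he1, by omega⟩, g1⟩, ?_⟩
      obtain ⟨u, hu⟩ := he2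
      have hmu : 1 + e * u = m := by omega
      rw [mem_filter]
      exact ⟨hn, u, by rw [hmu]; exact hnm, by rw [hmu]; exact hm⟩
    · left
      rw [mem_biUnion]
      refine ⟨m, mem_filter.2 ⟨hm, g2, ?_⟩, ?_⟩
      · apply Nat.le_floor
        rw [le_div_iff₀ hP']
        have h1 : ((p * m : ℕ) : ℝ) ≤ ((2 * x : ℕ) : ℝ) := by
          rw [← hnm]
          exact_mod_cast (show n ≤ 2 * x by omega)
        push_cast at h1 ⊢
        have h2 : (0 : ℝ) ≤ m := Nat.cast_nonneg _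
        nlinarith
      · rw [mem_biUnion]
        obtain ⟨t, ht⟩ := he1
        have hp1 : e * t + 1 = p := by omega
        refine ⟨e, Nat.mem_divisors.2 ⟨he2, by omega⟩, ?_⟩
        rw [mem_filter]
        exact ⟨hn, t, by rw [hp1]; exact hnm, by rw [hp1]; exact g1⟩

open Classical in
/-- the count in short intervals -/
theorem short_count (A ε : ℝ) (hA : 2 ≤ A) (hε : 0 < ε) : ∃ K : ℝ, 0 < K ∧
    ∀ x H : ℕ, 1 ≤ H → H ≤ x →
    (((Ioc x (x + H)).filter (Bd A)).card : ℝ) ≤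
      K * (x : ℝ) ^ ε * ((H : ℝ) ^ ((1 + 1 / A) / 2) + (x : ℝ) ^ (1 / (A + 1))) := by
  have hA0 : 0 < A := by linarith
  have ha0 : 0 < 1 / A := by positivity
  have ha2 : 1 / A ≤ 1 / 2 := by
    rw [div_le_div_iff₀ hA0 (by norm_num)]; linarith
  obtain ⟨δ, hδ0, hδ1, hδ2⟩ : ∃ δ : ℝ, 0 < δ ∧ 5 * δ ≤ ε ∧ δ ≤ 1 / 4 :=
    ⟨min (ε / 5) (1 / 4), lt_min (by positivity) (by norm_num), by
      have := min_le_left (ε / 5) (1 / 4)
      linarith, min_le_right _ _⟩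
  obtain ⟨β, hβ⟩ : ∃ β : ℝ, β = 1 / A + 2 * δ := ⟨_, rfl⟩
  obtain ⟨s, hs⟩ : ∃ s : ℝ, s = (1 + 1 / A) / 2 := ⟨_, rfl⟩
  rw [← hs]
  have hs0 : 0 < s := by rw [hs]; positivity
  obtain ⟨K1, hK1, h1⟩ := ap_sieve A δ (by linarith) hδ0
  obtain ⟨K2, hK2, h2⟩ := part_two A δ β hA hδ0 (by linarith) (by linarith)
  obtain ⟨K3, hK3, h3⟩ := part_three A δ hA hδ0 (by linarith)
  rw [← hβ] at h3
  rw [← hs] at h1 h3
  obtain ⟨N1, hN1⟩ := bad_squarefree
  obtain ⟨N2, hN23, hN2⟩ := bd_gcd A δ hA hδ0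
  have hth := th_pos A
  have hth1 := th_lt_one hA0
  have hev1 : ∀ᶠ x : ℝ in Filter.atTop, ((max N1 N2 : ℕ) : ℝ) ≤ x :=
    Filter.eventually_ge_atTop _
  have hev2 : ∀ᶠ x : ℝ in Filter.atTop, max 2 (th A * log 2 / (1 - th A)) ≤ log x :=
    tendsto_log_atTop.eventually (Filter.eventually_ge_atTop _)
  obtain ⟨x0, hx0⟩ := Filter.eventually_atTop.mp (hev1.and hev2)
  obtain ⟨X0, hX0⟩ := exists_nat_ge x0
  refine ⟨(X0 : ℝ) + 4 * (K1 + 2 * K2 + K3), by positivity, ?_⟩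
  intro x H hH hHx
  have hx : 1 ≤ x := hH.trans hHx
  have hx1 : (1 : ℝ) ≤ x := by exact_mod_cast hx
  have hxpos : (0 : ℝ) < x := by linarith
  have hH1 : (1 : ℝ) ≤ H := by exact_mod_cast hH
  have hH0 : (0 : ℝ) < H := by linarith
  have hX0' : (0 : ℝ) ≤ X0 := Nat.cast_nonneg X0
  have hxε : (1 : ℝ) ≤ (x : ℝ) ^ ε := one_le_rpow hx1 hε.le
  have hHs : (1 : ℝ) ≤ (H : ℝ) ^ s := one_le_rpow hH1 hs0.le
  obtain ⟨P', hP'⟩ : ∃ P' : ℝ, P' = (x : ℝ) ^ (1 / (A + 1)) := ⟨_, rfl⟩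
  rw [← hP']
  have hP1 : 1 ≤ P' := by rw [hP']; exact one_le_rpow hx1 (by positivity)
  have hPx : P' ≤ x := by
    rw [hP']
    calc (x : ℝ) ^ (1 / (A + 1)) ≤ (x : ℝ) ^ (1 : ℝ) := by
          apply rpow_le_rpow_of_exponent_le hx1
          rw [div_le_one (by linarith)]
          linarith
      _ = x := rpow_one _
  rcases lt_or_ge x X0 with hsmall | hlarge
  · have e1 : ((Ioc x (x + H)).filter (Bd A)).card ≤ H := by
      refine (card_filter_le _ _).trans ?_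
      rw [Nat.card_Ioc]; omega
    have e2 : (((Ioc x (x + H)).filter (Bd A)).card : ℝ) ≤ X0 := by
      exact_mod_cast e1.trans (hHx.trans hsmall.le)
    have e3 : (1 : ℝ) ≤ (x : ℝ) ^ ε * ((H : ℝ) ^ s + P') := by nlinarith
    have e4 : 0 ≤ K1 + 2 * K2 + K3 := by positivity
    calc (((Ioc x (x + H)).filter (Bd A)).card : ℝ)
        ≤ (X0 + 4 * (K1 + 2 * K2 + K3)) * 1 := by linarith
      _ ≤ (X0 + 4 * (K1 + 2 * K2 + K3)) * ((x : ℝ) ^ ε * ((H : ℝ) ^ s + P')) :=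
          mul_le_mul_of_nonneg_left e3 (by positivity)
      _ = _ := by ring
  obtain ⟨c1, c2⟩ := hx0 x (hX0.trans (by exact_mod_cast hlarge))
  obtain ⟨X, hX⟩ : ∃ X : ℕ, X = 2 * x := ⟨_, rfl⟩
  have hXx : x ≤ X := by omega
  have hXr : (X : ℝ) = 2 * x := by rw [hX]; push_cast; ring
  have hXpos : (0 : ℝ) < X := by rw [hXr]; positivity
  have hX1 : (1 : ℝ) ≤ X := by rw [hXr]; linarith
  have hlogX : log (X : ℝ) = log 2 + log x := by
    rw [hXr, log_mul (by norm_num) hxpos.ne']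
  have hlog2p : 0 < log (2 : ℝ) := log_pos (by norm_num)
  have hlx2 : 2 ≤ log (x : ℝ) := (le_max_left _ _).trans c2
  have hlX2 : 2 ≤ (log (X : ℝ)) ^ A := by
    have e1 : (log (X : ℝ)) ^ (1 : ℝ) ≤ (log (X : ℝ)) ^ A :=
      rpow_le_rpow_of_exponent_le (by linarith) (by linarith)
    rw [rpow_one] at e1
    linarith
  have hthX : th A * log (X : ℝ) ≤ log x := by
    have e1 := (le_max_right _ _).trans c2
    rw [div_le_iff₀ (by linarith)] at e1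
    rw [hlogX]
    nlinarith
  -- the covering
  obtain ⟨M₀, hM₀⟩ : ∃ M₀ : ℕ, M₀ = ⌊((2 * x : ℕ) : ℝ) / P'⌋₊ := ⟨_, rfl⟩
  obtain ⟨P₀, hP₀⟩ : ∃ P₀ : ℕ, P₀ = ⌊P'⌋₊ := ⟨_, rfl⟩
  have hcov : (Ioc x (x + H)).filter (Bd A) ⊆
      (Ioc x (x + H)).filter (fun n => n ∈ Dq A X) ∪
      ((((Dq A X).filter (fun m => 2 ≤ m ∧ m ≤ M₀)).biUnion
        (fun m => (m - 1).divisors.biUnion
        (fun e => (Ioc x (x + H)).filter (fun n => ∃ t : ℕ, n = (e * t + 1) * m ∧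
        ((e * t + 1 : ℕ) : ℝ) ^ (1 - β) ≤ e)))) ∪
      ((Icc 1 P₀).biUnion (fun p => ((p - 1).divisors.filter
      (fun e : ℕ => (p : ℝ) ^ (1 - β) ≤ e)).biUnion
      (fun e => (Ioc x (x + H)).filter (fun n => ∃ u : ℕ, n = p * (1 + e * u) ∧
        1 + e * u ∈ Dq A X))))) := by
    intro n hn
    rw [mem_filter] at hn
    obtain ⟨hn, hb⟩ := hn
    have hn' := mem_Ioc.1 hn
    have hNn : max N1 N2 ≤ n := by
      have : max N1 N2 ≤ x := by exact_mod_cast c1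
      omega
    have hn3 : 3 ≤ n := hN23.trans ((le_max_right _ _).trans hNn)
    have hlogn : log (x : ℝ) ≤ log n := log_le_log hxpos (by exact_mod_cast hn'.1.le)
    rw [hM₀, hP₀]
    apply cover hX hHx hn hb _ hlX2 (hN1 n ((le_max_left _ _).trans hNn) (hb.bad hA hn3)) _
      (by linarith)
    · have e1 := rpow_le_rpow (by positivity : 0 ≤ th A * log (X : ℝ)) (hthX.trans hlogn) hA0.le
      rw [mul_rpow hth.le (by linarith), th_rpow hA0] at e1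
      linarith
    · intro q m hq hnm
      obtain ⟨g1, g2⟩ := hN2 n ((le_max_right _ _).trans hNn) hb q m hq hnm
      refine ⟨le_trans ?_ g1, g2⟩
      apply rpow_le_rpow_of_exponent_le (by exact_mod_cast hq.one_lt.le)
      rw [hβ]; linarith
  have hcard : (((Ioc x (x + H)).filter (Bd A)).card : ℝ) ≤
      (((Ioc x (x + H)).filter (fun n => n ∈ Dq A X)).card : ℝ) +
      (((((Dq A X).filter (fun m => 2 ≤ m ∧ m ≤ M₀)).biUnion
        (fun m => (m - 1).divisors.biUnion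
        (fun e => (Ioc x (x + H)).filter (fun n => ∃ t : ℕ, n = (e * t + 1) * m ∧
        ((e * t + 1 : ℕ) : ℝ) ^ (1 - β) ≤ e)))).card : ℝ) +
      (((Icc 1 P₀).biUnion (fun p => ((p - 1).divisors.filter
      (fun e : ℕ => (p : ℝ) ^ (1 - β) ≤ e)).biUnion
      (fun e => (Ioc x (x + H)).filter (fun n => ∃ u : ℕ, n = p * (1 + e * u) ∧
        1 + e * u ∈ Dq A X)))).card : ℝ)) := by
    have e1 := (card_le_card hcov).trans ((card_union_le _ _).trans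
      (Nat.add_le_add_left (card_union_le _ _) _))
    exact_mod_cast e1
  -- the three parts
  have p1 : (((Ioc x (x + H)).filter (fun n => n ∈ Dq A X)).card : ℝ) ≤
      K1 * (X : ℝ) ^ δ * (H : ℝ) ^ s := by
    have e1 := h1 X (x + 1) 1 H le_rfl (by omega) hH (by omega)
      ((range H).filter (fun j => x + 1 + 1 * j ∈ Dq A X)) (filter_subset _ _)
      (fun j hj => (mem_filter.1 hj).2)
    refine le_trans ?_ e1
    have e2 : (Ioc x (x + H)).filter (fun n => n ∈ Dq A X) ⊆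
        ((range H).filter (fun j => x + 1 + 1 * j ∈ Dq A X)).image (fun j => x + 1 + 1 * j) := by
      intro n hn
      rw [mem_filter, mem_Ioc] at hn
      rw [mem_image]
      have e3 : x + 1 + 1 * (n - x - 1) = n := by omega
      refine ⟨n - x - 1, ?_, e3⟩
      rw [mem_filter, mem_range, e3]
      exact ⟨by omega, hn.2⟩
    have e3 := (card_le_card e2).trans card_image_le
    exact_mod_cast e3
  have hM1 : 1 ≤ M₀ := by
    rw [hM₀]
    apply Nat.le_floor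
    rw [Nat.cast_one, one_le_div (by linarith)]
    push_cast
    linarith
  have hMX : M₀ ≤ X := by
    rw [hM₀, hX]
    apply Nat.floor_le_of_le
    exact div_le_self (Nat.cast_nonneg _) hP1
  have p2 := h2 x H X M₀ hx hXx hM1 hMX
  have hPP : (P₀ : ℝ) ≤ P' := by rw [hP₀]; exact Nat.floor_le (by linarith)
  have hPX : P₀ ≤ X := by
    have : (P₀ : ℝ) ≤ X := by linarith
    exact_mod_cast this
  have p3 := h3 x H X P₀ hx (by omega) hPX
  -- the estimates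
  have hXx5 : (X : ℝ) ^ (5 * δ) ≤ 4 * (x : ℝ) ^ ε := by
    rw [hXr, mul_rpow (by norm_num) hxpos.le]
    have e1 : (2 : ℝ) ^ (5 * δ) ≤ 4 := by
      calc (2 : ℝ) ^ (5 * δ) ≤ (2 : ℝ) ^ (2 : ℝ) :=
            rpow_le_rpow_of_exponent_le (by norm_num) (by linarith)
        _ = 4 := by norm_num
    have e2 : (x : ℝ) ^ (5 * δ) ≤ (x : ℝ) ^ ε := rpow_le_rpow_of_exponent_le hx1 hδ1
    exact mul_le_mul e1 e2 (by positivity) (by norm_num)
  have q1 : (X : ℝ) ^ δ ≤ (X : ℝ) ^ (5 * δ) :=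
    rpow_le_rpow_of_exponent_le hX1 (by linarith)
  have q2 : (X : ℝ) ^ δ * (x : ℝ) ^ (2 * δ) ≤ (X : ℝ) ^ (5 * δ) := by
    have e1 : (x : ℝ) ^ (2 * δ) ≤ (X : ℝ) ^ (2 * δ) :=
      rpow_le_rpow hxpos.le (by exact_mod_cast hXx) (by positivity)
    calc (X : ℝ) ^ δ * (x : ℝ) ^ (2 * δ) ≤ (X : ℝ) ^ δ * (X : ℝ) ^ (2 * δ) :=
          mul_le_mul_of_nonneg_left e1 (by positivity)
      _ = (X : ℝ) ^ (3 * δ) := by rw [← rpow_add hXpos]; congr 1; ring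
      _ ≤ _ := rpow_le_rpow_of_exponent_le hX1 (by linarith)
  have q3 : (H : ℝ) * (x : ℝ) ^ (β - 1) ≤ (x : ℝ) ^ (2 * δ) * (H : ℝ) ^ s := by
    have e1 : (H : ℝ) ^ (1 - s) ≤ (x : ℝ) ^ (1 - 1 / A) := by
      calc (H : ℝ) ^ (1 - s) ≤ (x : ℝ) ^ (1 - s) :=
            rpow_le_rpow hH0.le (by exact_mod_cast hHx) (by rw [hs]; linarith)
        _ ≤ _ := rpow_le_rpow_of_exponent_le hx1 (by rw [hs]; linarith)
    have e2 : (H : ℝ) = (H : ℝ) ^ s * (H : ℝ) ^ (1 - s) := by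
      rw [← rpow_add hH0]; simp
    have e3 : (x : ℝ) ^ (1 - 1 / A) * (x : ℝ) ^ (β - 1) = (x : ℝ) ^ (2 * δ) := by
      rw [← rpow_add hxpos]; congr 1; rw [hβ]; ring
    calc (H : ℝ) * (x : ℝ) ^ (β - 1) = (H : ℝ) ^ s * (H : ℝ) ^ (1 - s) * (x : ℝ) ^ (β - 1) := by
          rw [← e2]
      _ ≤ (H : ℝ) ^ s * (x : ℝ) ^ (1 - 1 / A) * (x : ℝ) ^ (β - 1) := by
          apply mul_le_mul_of_nonneg_right _ (by positivity)
          exact mul_le_mul_of_nonneg_left e1 (by positivity)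
      _ = (H : ℝ) ^ s * ((x : ℝ) ^ (1 - 1 / A) * (x : ℝ) ^ (β - 1)) := by ring
      _ = _ := by rw [e3]; ring
  have q4 : (M₀ : ℝ) ^ (1 / A + δ) ≤ 2 * (x : ℝ) ^ (2 * δ) * P' := by
    have e1 : (M₀ : ℝ) ≤ 2 * ((x : ℝ) / P') := by
      rw [hM₀]
      refine (Nat.floor_le (by positivity)).trans (le_of_eq ?_)
      push_cast
      ring
    have e2 : (x : ℝ) / P' = (x : ℝ) ^ (A / (A + 1)) := by
      rw [hP', eq_comm, eq_div_iff (by positivity), ← rpow_add hxpos]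
      have : A / (A + 1) + 1 / (A + 1) = 1 := by field_simp
      rw [this, rpow_one]
    rw [e2] at e1
    have e3 : (M₀ : ℝ) ^ (1 / A + δ) ≤ (2 * (x : ℝ) ^ (A / (A + 1))) ^ (1 / A + δ) :=
      rpow_le_rpow (Nat.cast_nonneg _) e1 (by positivity)
    rw [mul_rpow (by norm_num) (by positivity), ← rpow_mul hxpos.le] at e3
    have e4 : (2 : ℝ) ^ (1 / A + δ) ≤ 2 := by
      calc (2 : ℝ) ^ (1 / A + δ) ≤ (2 : ℝ) ^ (1 : ℝ) :=
            rpow_le_rpow_of_exponent_le (by norm_num) (by linarith)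
        _ = 2 := rpow_one _
    have e5 : (x : ℝ) ^ (A / (A + 1) * (1 / A + δ)) ≤ (x : ℝ) ^ (2 * δ) * P' := by
      rw [hP', ← rpow_add hxpos]
      apply rpow_le_rpow_of_exponent_le hx1
      have e6 : A / (A + 1) * (1 / A + δ) = 1 / (A + 1) + A / (A + 1) * δ := by
        field_simp
      have e7 : A / (A + 1) ≤ 1 := by rw [div_le_one (by linarith)]; linarith
      rw [e6]
      nlinarith
    calc (M₀ : ℝ) ^ (1 / A + δ) ≤ _ := e3
      _ ≤ 2 * ((x : ℝ) ^ (2 * δ) * P') := mul_le_mul e4 e5 (by positivity) (by norm_num)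
      _ = _ := by ring
  obtain ⟨W, hW⟩ : ∃ W : ℝ, W = (X : ℝ) ^ (5 * δ) * ((H : ℝ) ^ s + P') := ⟨_, rfl⟩
  have r1 : K1 * (X : ℝ) ^ δ * (H : ℝ) ^ s ≤ K1 * W := by
    rw [hW, mul_assoc]
    apply mul_le_mul_of_nonneg_left _ hK1.le
    exact mul_le_mul q1 (by linarith) (by positivity) (by positivity)
  have r2 : K2 * (X : ℝ) ^ δ * (H * (x : ℝ) ^ (β - 1) + (M₀ : ℝ) ^ (1 / A + δ)) ≤ 2 * K2 * W := by
    have e1 : (H : ℝ) * (x : ℝ) ^ (β - 1) + (M₀ : ℝ) ^ (1 / A + δ) ≤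
        2 * (x : ℝ) ^ (2 * δ) * ((H : ℝ) ^ s + P') := by
      have : 0 ≤ (x : ℝ) ^ (2 * δ) * (H : ℝ) ^ s := by positivity
      nlinarith
    calc K2 * (X : ℝ) ^ δ * (H * (x : ℝ) ^ (β - 1) + (M₀ : ℝ) ^ (1 / A + δ)) ≤
        K2 * (X : ℝ) ^ δ * (2 * (x : ℝ) ^ (2 * δ) * ((H : ℝ) ^ s + P')) :=
          mul_le_mul_of_nonneg_left e1 (by positivity)
      _ = 2 * K2 * (((X : ℝ) ^ δ * (x : ℝ) ^ (2 * δ)) * ((H : ℝ) ^ s + P')) := by ring
      _ ≤ 2 * K2 * W := by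
          rw [hW]
          apply mul_le_mul_of_nonneg_left _ (by positivity)
          exact mul_le_mul_of_nonneg_right q2 (by positivity)
  have r3 : K3 * (X : ℝ) ^ (5 * δ) * ((H : ℝ) ^ s + P₀) ≤ K3 * W := by
    rw [hW, mul_assoc]
    apply mul_le_mul_of_nonneg_left _ hK3.le
    apply mul_le_mul_of_nonneg_left _ (by positivity)
    linarith
  have r4 : W ≤ 4 * ((x : ℝ) ^ ε * ((H : ℝ) ^ s + P')) := by
    rw [hW, ← mul_assoc]
    exact mul_le_mul_of_nonneg_right hXx5 (by positivity)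
  have r5 : (((Ioc x (x + H)).filter (Bd A)).card : ℝ) ≤ (K1 + 2 * K2 + K3) * W := by
    linarith
  have r6 : 0 ≤ (X0 : ℝ) * ((x : ℝ) ^ ε * ((H : ℝ) ^ s + P')) := by positivity
  have r7 : (K1 + 2 * K2 + K3) * W ≤
      (K1 + 2 * K2 + K3) * (4 * ((x : ℝ) ^ ε * ((H : ℝ) ^ s + P'))) :=
    mul_le_mul_of_nonneg_left r4 (by positivity)
  calc (((Ioc x (x + H)).filter (Bd A)).card : ℝ) ≤ (K1 + 2 * K2 + K3) * W := r5
    _ ≤ (K1 + 2 * K2 + K3) * (4 * ((x : ℝ) ^ ε * ((H : ℝ) ^ s + P'))) := r7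
    _ ≤ X0 * ((x : ℝ) ^ ε * ((H : ℝ) ^ s + P')) +
        (K1 + 2 * K2 + K3) * (4 * ((x : ℝ) ^ ε * ((H : ℝ) ^ s + P'))) := by linarith
    _ = _ := by ring

end Pool.Agent.L0h69.SI
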