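import Pool.Agent.L0h69.SI.AP
import Pool.Agent.W57.SW.Count

/-!
# Composite numbers without a small witness in short intervals
-/

set_option autoImplicit false

namespace Pool.Agent.L0h69.SI

open Finset Real Pool.Agent.W57.SW

/-- a residue class in a short interval -/
lemma class_card (x H M r : ℕ) (hM : 1 ≤ M) (D : Finset ℕ) (hD : D ⊆ Ioc x (x + H))
    (hr : ∀ n ∈ D, n % M = r) : (D.card : ℝ) ≤ (H : ℝ) / M + 1 := by
  have h1 : D.card ≤ (range (H / M + 1)).card := by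
    apply card_le_card_of_injOn (fun n => (n - x - 1) / M)
    · intro n hn
      have h2 := mem_Ioc.1 (hD hn)
      rw [mem_coe, mem_range]
      show (n - x - 1) / M < H / M + 1
      have h3 : n - x - 1 ≤ H := by omega
      exact Nat.lt_succ_of_le (Nat.div_le_div_right h3)
    · have key : ∀ n ∈ D, ∀ n' ∈ D, n < n' → (n - x - 1) / M < (n' - x - 1) / M := by
        intro n hn n' hn' hlt
        have a1 := mem_Ioc.1 (hD hn)
        have a2 := mem_Ioc.1 (hD hn')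
        have a3 : n ≡ n' [MOD M] := (hr n hn).trans (hr n' hn').symm
        have a4 := Nat.le_of_dvd (by omega) ((Nat.modEq_iff_dvd' hlt.le).1 a3)
        have a5 : (n - x - 1) + M ≤ n' - x - 1 := by omega
        have a6 := Nat.div_le_div_right (c := M) a5
        rw [Nat.add_div_right _ (by omega)] at a6
        omega
      intro n hn n' hn' h
      simp only at h
      rcases lt_trichotomy n n' with h2 | h2 | h2
      · have := key n hn n' hn' h2; omega
      · exact h2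
      · have := key n' hn' n hn h2; omega
  rw [card_range] at h1
  have h2 : (D.card : ℝ) ≤ ((H / M : ℕ) : ℝ) + 1 := by exact_mod_cast h1
  have h3 : ((H / M : ℕ) : ℝ) ≤ (H : ℝ) / M := Nat.cast_div_le
  linarith

/-- many multiples of `m`, with `p = e t + 1` and `e` large -/
lemma case_m (x H m e : ℕ) (β : ℝ) (hβ1 : β ≤ 1) (hx : 1 ≤ x) (hm : 1 ≤ m)
    (he : 1 ≤ e) (D : Finset ℕ) (hD : D ⊆ Ioc x (x + H))
    (h : ∀ n ∈ D, ∃ t : ℕ, n = (e * t + 1) * m ∧ ((e * t + 1 : ℕ) : ℝ) ^ (1 - β) ≤ e) :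
    (D.card : ℝ) ≤ H * (x : ℝ) ^ (β - 1) * (m : ℝ) ^ (-β) + 1 := by
  have hx0 : (0 : ℝ) < x := by exact_mod_cast hx
  have hm0 : (0 : ℝ) < m := by exact_mod_cast hm
  have he0 : (0 : ℝ) < e := by exact_mod_cast he
  rcases D.eq_empty_or_nonempty with hD0 | ⟨n0, hn0⟩
  · rw [hD0]
    simp only [card_empty, Nat.cast_zero]
    positivity
  have h1 : (D.card : ℝ) ≤ (H : ℝ) / (e * m : ℕ) + 1 := by
    apply class_card x H (e * m) (m % (e * m)) (Nat.mul_pos he hm) D hD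
    intro n hn
    obtain ⟨t, ht, _⟩ := h n hn
    rw [ht, show (e * t + 1) * m = m + (e * m) * t by ring, Nat.add_mul_mod_self_left]
  obtain ⟨t, ht, h2⟩ := h n0 hn0
  have h3 := (mem_Ioc.1 (hD hn0)).1
  have h4 : (x : ℝ) / m ≤ ((e * t + 1 : ℕ) : ℝ) := by
    rw [div_le_iff₀ hm0]
    have : x ≤ (e * t + 1) * m := by omega
    exact_mod_cast this
  have h5 : ((x : ℝ) / m) ^ (1 - β) ≤ e :=
    (rpow_le_rpow (by positivity) h4 (by linarith)).trans h2
  have h6 : (H : ℝ) / (e * m : ℕ) ≤ H * (x : ℝ) ^ (β - 1) * (m : ℝ) ^ (-β) := by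
    rw [div_le_iff₀ (by positivity)]
    push_cast
    have e1 : (1 : ℝ) ≤ (x : ℝ) ^ (β - 1) * (m : ℝ) ^ (-β) * (e * m) := by
      have e2 : (1 : ℝ) = (x : ℝ) ^ (β - 1) * (m : ℝ) ^ (-β) * (((x : ℝ) / m) ^ (1 - β) * m) := by
        rw [div_rpow hx0.le hm0.le, div_eq_mul_inv, ← rpow_neg hm0.le]
        have e3 : (x : ℝ) ^ (β - 1) * (x : ℝ) ^ (1 - β) = 1 := by
          rw [← rpow_add hx0]
          have : β - 1 + (1 - β) = 0 := by ring
          rw [this, rpow_zero]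
        have e4 : (m : ℝ) ^ (-β) * (m : ℝ) ^ (-(1 - β)) * m = 1 := by
          rw [← rpow_add hm0]
          have : -β + -(1 - β) = -1 := by ring
          rw [this, rpow_neg hm0.le, rpow_one]
          exact inv_mul_cancel₀ hm0.ne'
        calc (1 : ℝ) = ((x : ℝ) ^ (β - 1) * (x : ℝ) ^ (1 - β)) *
              ((m : ℝ) ^ (-β) * (m : ℝ) ^ (-(1 - β)) * m) := by rw [e3, e4, one_mul]
          _ = _ := by ring
      calc (1 : ℝ) = (x : ℝ) ^ (β - 1) * (m : ℝ) ^ (-β) * (((x : ℝ) / m) ^ (1 - β) * m) := e2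
        _ ≤ _ := by
            apply mul_le_mul_of_nonneg_left _ (by positivity)
            exact mul_le_mul_of_nonneg_right h5 hm0.le
    have e5 : (0 : ℝ) ≤ H := Nat.cast_nonneg _
    calc (H : ℝ) = H * 1 := (mul_one _).symm
      _ ≤ H * ((x : ℝ) ^ (β - 1) * (m : ℝ) ^ (-β) * (e * m)) := mul_le_mul_of_nonneg_left e1 e5
      _ = _ := by ring
  linarith

/-- the multiples of `p`, with `m = 1 + e u` in a sparse set -/
lemma case_p (A δ K : ℝ) (hK : ∀ x b e L : ℕ, 1 ≤ e → e ≤ x → 1 ≤ L → L ≤ x → ∀ T : Finset ℕ,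
      T ⊆ range L → (∀ j ∈ T, b + e * j ∈ Dq A x) →
      (T.card : ℝ) ≤ K * (x : ℝ) ^ δ * (L : ℝ) ^ ((1 + 1 / A) / 2)) (hK0 : 0 < K) (x H X p e : ℕ)
    (hHX : H + 1 ≤ X) (hp : 1 ≤ p) (he : 1 ≤ e) (heX : e ≤ X) (D : Finset ℕ)
    (hD : D ⊆ Ioc x (x + H)) (h : ∀ n ∈ D, ∃ u : ℕ, n = p * (1 + e * u) ∧ 1 + e * u ∈ Dq A X) :
    (D.card : ℝ) ≤ K * (X : ℝ) ^ δ * ((H / (p * e) + 1 : ℕ) : ℝ) ^ ((1 + 1 / A) / 2) := by
  classical
  rcases D.eq_empty_or_nonempty with hD0 | hne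
  · rw [hD0]
    simp only [card_empty, Nat.cast_zero]
    positivity
  obtain ⟨n0, hn0⟩ : ∃ n0, n0 = D.min' hne := ⟨_, rfl⟩
  have hn0D : n0 ∈ D := by rw [hn0]; exact D.min'_mem hne
  obtain ⟨u0, hu0, _⟩ := h n0 hn0D
  have hf : ∀ n ∈ D, ∃ j : ℕ, n = p * (1 + e * (u0 + j)) ∧ 1 + e * (u0 + j) ∈ Dq A X ∧
      j < H / (p * e) + 1 := by
    intro n hn
    obtain ⟨u, hu, hu2⟩ := h n hn
    have h1 : n0 ≤ n := by rw [hn0]; exact D.min'_le n hn
    have h2 : u0 ≤ u := by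
      rw [hu0, hu] at h1
      have h3 := Nat.le_of_mul_le_mul_left h1 (by omega)
      have h4 : e * u0 ≤ e * u := by omega
      exact Nat.le_of_mul_le_mul_left h4 (by omega)
    obtain ⟨j, rfl⟩ := Nat.exists_eq_add_of_le h2
    refine ⟨j, hu, hu2, ?_⟩
    rw [Nat.lt_succ_iff, Nat.le_div_iff_mul_le (Nat.mul_pos hp he)]
    have a1 := mem_Ioc.1 (hD hn)
    have a2 := mem_Ioc.1 (hD hn0D)
    have a3 : n = n0 + j * (p * e) := by rw [hu, hu0]; ring
    omega
  choose! f hf1 hf2 hf3 using hf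
  have hinj : Set.InjOn f D := by
    intro n hn n' hn' hnn
    rw [hf1 n hn, hf1 n' hn', hnn]
  have h1 := hK X (1 + e * u0) e (H / (p * e) + 1) he heX (Nat.le_add_left 1 _)
    ((Nat.succ_le_succ (Nat.div_le_self _ _)).trans hHX) (D.image f)
    (by
      intro j hj
      rw [mem_image] at hj
      obtain ⟨n, hn, rfl⟩ := hj
      exact mem_range.2 (hf3 n hn))
    (by
      intro j hj
      rw [mem_image] at hj
      obtain ⟨n, hn, rfl⟩ := hj
      have := hf2 n hn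
      rwa [show 1 + e * (u0 + f n) = 1 + e * u0 + e * f n by ring] at this)
  rwa [card_image_of_injOn hinj] at h1

lemma card_biUnion_real {ι : Type} [DecidableEq ι] (s : Finset ι) (t : ι → Finset ℕ) :
    ((s.biUnion t).card : ℝ) ≤ ∑ i ∈ s, ((t i).card : ℝ) := by
  exact_mod_cast card_biUnion_le

end Pool.Agent.L0h69.SI
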