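import Pool.Agent.L0h69.SI.Sieve

/-!
# The moduli of the large sieve, and the sieve with few excluded classes
-/

set_option autoImplicit false

namespace Pool.Agent.L0h69.SI

open Finset Real Pool.Agent.W57.SW

/-- the sieve inequality, crude form -/
lemma sieve_crude (L Q : ℕ) (P : Finset ℕ) (I : ℕ → Finset ℕ) (S : Finset (Finset ℕ))
    (hP : ∀ q ∈ P, q.Prime) (hI : ∀ q ∈ P, I q ⊆ range q)
    (hI2 : ∀ q ∈ P, ((I q).card : ℝ) ≤ 3 / 4 * q)
    (hS : ∀ s ∈ S, s ⊆ P ∧ ∏ q ∈ s, q ≤ Q) (T : Finset ℕ) (hT : T ⊆ Icc 1 L)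
    (hTI : ∀ n ∈ T, ∀ q ∈ P, n % q ∈ I q) (c : ℝ) (hc : 0 < c)
    (hSc : ∀ s ∈ S, c ≤ (1 / 4 : ℝ) ^ s.card) :
    (T.card : ℝ) * (c ^ 2 * S.card) ≤ 6 * ((L : ℝ) + (Q : ℝ) ^ 2) := by
  classical
  have key := Pool.Agent.H174R3.D6LS.taskLS L Q P I S (fun _ => 1) hP hI hS
  simp only [one_mul, one_pow] at key
  have hρ : ∀ q ∈ P, ((I q).card : ℝ) / q ≤ 3 / 4 := by
    intro q hq
    have hq0 : (0 : ℝ) < q := by exact_mod_cast (hP q hq).pos
    rw [div_le_iff₀ hq0]
    exact hI2 q hq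
  have hR : ∑ s ∈ S, ∏ q ∈ s, ((I q).card : ℝ) / q ≤ S.card := by
    calc ∑ s ∈ S, ∏ q ∈ s, ((I q).card : ℝ) / q ≤ ∑ s ∈ S, (1 : ℝ) := by
          apply sum_le_sum
          intro s hs
          apply prod_le_one (fun q _ => by positivity)
          intro q hq
          have := hρ q ((hS s hs).1 hq)
          linarith
      _ = S.card := by simp
  have hL : (T.card : ℝ) * (c * S.card) ^ 2 ≤ ∑ n ∈ Icc 1 L, (∑ s ∈ S,
      ∏ q ∈ s, ((if n % q ∈ I q then (1 : ℝ) else 0) - ((I q).card : ℝ) / q)) ^ 2 := by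
    calc (T.card : ℝ) * (c * S.card) ^ 2 = ∑ n ∈ T, (c * S.card) ^ 2 := by
          rw [sum_const, nsmul_eq_mul]
      _ ≤ ∑ n ∈ T, (∑ s ∈ S, ∏ q ∈ s, ((if n % q ∈ I q then (1 : ℝ) else 0) -
            ((I q).card : ℝ) / q)) ^ 2 := by
          apply sum_le_sum
          intro n hn
          apply pow_le_pow_left₀ (by positivity)
          calc c * S.card = ∑ s ∈ S, c := by rw [sum_const, nsmul_eq_mul, mul_comm]
            _ ≤ _ := by
                apply sum_le_sum
                intro s hs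
                refine (hSc s hs).trans ?_
                rw [← prod_const]
                apply prod_le_prod (fun q _ => by positivity)
                intro q hq
                have hqP := (hS s hs).1 hq
                rw [if_pos (hTI n hn q hqP)]
                have := hρ q hqP
                linarith
      _ ≤ _ := sum_le_sum_of_subset_of_nonneg hT fun _ _ _ => sq_nonneg _
  have h1 : (T.card : ℝ) * (c * S.card) ^ 2 ≤ 6 * ((L : ℝ) + (Q : ℝ) ^ 2) * S.card :=
    hL.trans (key.trans (mul_le_mul_of_nonneg_left hR (by positivity)))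
  rcases S.eq_empty_or_nonempty with h3 | h3
  · rw [h3]
    simp only [card_empty, Nat.cast_zero, mul_zero]
    positivity
  · have hS0 : (0 : ℝ) < S.card := by exact_mod_cast card_pos.2 h3
    have h4 : ((T.card : ℝ) * (c ^ 2 * S.card)) * S.card ≤
        (6 * ((L : ℝ) + (Q : ℝ) ^ 2)) * S.card := by
      calc ((T.card : ℝ) * (c ^ 2 * S.card)) * S.card = (T.card : ℝ) * (c * S.card) ^ 2 := by ring
        _ ≤ _ := h1
    exact le_of_mul_le_mul_right h4 hS0

/-- the sets of the small primes which do not divide `e` -/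
lemma smooth_sets (A δ : ℝ) (hA : 1 < A) (hδ : 0 < δ) : ∃ (D0 : ℕ) (C : ℝ), 0 < C ∧
    ∀ Q e x : ℕ, D0 ≤ Q → 1 ≤ Q → Q ≤ x → 1 ≤ e → ∃ S : Finset (Finset ℕ),
      (∀ s ∈ S, (s ⊆ (opr ⌊(log x) ^ A⌋₊).filter (fun q => ¬ q ∣ e) ∧ ∏ q ∈ s, q ≤ Q) ∧
        (C * (Q : ℝ) ^ δ)⁻¹ ≤ (1 / 2 : ℝ) ^ s.card) ∧
      (Q : ℝ) ^ (1 - 1 / A - δ) ≤ S.card * (C * (e : ℝ) ^ δ) := by
  classical
  have hA0 : 0 < A := by linarith
  obtain ⟨D0, hD0⟩ := smooth_many A δ hA hδ
  obtain ⟨C, hC, hdiv⟩ := Helper112.divisor_bound δ hδ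
  refine ⟨D0, C, hC, ?_⟩
  intro Q e x hlg hQpos hQx' he
  have hQ1' : (1 : ℝ) ≤ Q := by exact_mod_cast hQpos
  have hQ0 : (0 : ℝ) < Q := by linarith
  have hQx : (Q : ℝ) ≤ x := by exact_mod_cast hQx'
  obtain ⟨S0, hS0, hS0c⟩ := hD0 Q hlg
  obtain ⟨S, hSdef⟩ : ∃ S : Finset (Finset ℕ),
      S = S0.image (fun s => s.primeFactors.filter (fun q => ¬ q ∣ e)) := ⟨_, rfl⟩
  have hlogQ : (log (Q : ℝ)) ^ A ≤ (log (x : ℝ)) ^ A :=
    rpow_le_rpow (log_natCast_nonneg Q) (log_le_log hQ0 hQx) hA0.le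
  refine ⟨S, ?_, ?_⟩
  · intro s hs
    rw [hSdef, mem_image] at hs
    obtain ⟨s, hs, rfl⟩ := hs
    obtain ⟨a1, a2, a3, a4, a5⟩ := hS0 s hs
    refine ⟨⟨?_, ?_⟩, ?_⟩
    · intro q hq
      rw [mem_filter, Nat.mem_primeFactors] at hq
      rw [mem_filter, mem_opr]
      refine ⟨⟨hq.1.1, Nat.le_floor ((a5 q hq.1.1 hq.1.2.1).trans hlogQ), ?_⟩, hq.2⟩
      rintro rfl
      rw [← Nat.not_even_iff_odd, even_iff_two_dvd] at a3
      exact a3 hq.1.2.1
    · have h1 : ∏ q ∈ s.primeFactors.filter (fun q => ¬ q ∣ e), q ∣ s :=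
        (prod_dvd_prod_of_subset _ _ _ (filter_subset _ _)).trans (Nat.prod_primeFactors_dvd s)
      exact (Nat.le_of_dvd (by omega) h1).trans a2
    · have h1 : ((2 : ℝ)) ^ (s.primeFactors.filter (fun q => ¬ q ∣ e)).card ≤ C * (Q : ℝ) ^ δ := by
        have h2 : (s.primeFactors.filter (fun q => ¬ q ∣ e)).card ≤ s.primeFactors.card :=
          card_filter_le _ _
        have h3 : 2 ^ (s.primeFactors.filter (fun q => ¬ q ∣ e)).card ≤ s.divisors.card :=
          (Nat.pow_le_pow_right (by norm_num) h2).trans (two_pow_le s (by omega))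
        have h4 : ((2 : ℝ)) ^ (s.primeFactors.filter (fun q => ¬ q ∣ e)).card ≤ s.divisors.card := by
          exact_mod_cast h3
        refine h4.trans ((hdiv s a1).trans ?_)
        apply mul_le_mul_of_nonneg_left _ hC.le
        exact rpow_le_rpow (Nat.cast_nonneg _) (by exact_mod_cast a2) hδ.le
      rw [one_div, inv_pow]
      exact inv_anti₀ (by positivity) h1
  · have hS0S : (S0.card : ℝ) ≤ S.card * (C * (e : ℝ) ^ δ) := by
      have h1 : S0.card ≤ (S ×ˢ e.primeFactors.powerset).card := by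
        apply card_le_card_of_injOn (fun s => (s.primeFactors.filter (fun q => ¬ q ∣ e),
          s.primeFactors.filter (fun q => q ∣ e)))
        · intro s hs
          rw [mem_coe] at hs
          rw [mem_coe, mem_product, mem_powerset]
          refine ⟨?_, ?_⟩
          · rw [hSdef]
            exact mem_image_of_mem _ hs
          · intro q hq
            rw [mem_filter, Nat.mem_primeFactors] at hq
            rw [Nat.mem_primeFactors]
            exact ⟨hq.1.1, hq.2, by omega⟩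
        · intro s hs s' hs' h
          rw [mem_coe] at hs hs'
          simp only [Prod.mk.injEq] at h
          have e1 : s.primeFactors = s'.primeFactors := by
            ext q
            have h3 := congrArg (fun U : Finset ℕ => q ∈ U) h.1
            have h4 := congrArg (fun U : Finset ℕ => q ∈ U) h.2
            simp only [mem_filter, eq_iff_iff] at h3 h4
            tauto
          rw [← Nat.prod_primeFactors_of_squarefree (hS0 s hs).2.2.2.1,
            ← Nat.prod_primeFactors_of_squarefree (hS0 s' hs').2.2.2.1, e1]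
      rw [card_product, card_powerset] at h1
      have h2 : S0.card ≤ S.card * e.divisors.card :=
        h1.trans (Nat.mul_le_mul_left _ (two_pow_le e (by omega)))
      have h3 : (S0.card : ℝ) ≤ S.card * e.divisors.card := by exact_mod_cast h2
      exact h3.trans (mul_le_mul_of_nonneg_left (hdiv e he) (Nat.cast_nonneg _))
    exact hS0c.trans hS0S

/-- `C ^ ω(n) = O(n ^ δ)` for squarefree numbers -/
lemma pow_omega (d : ℕ) (δ : ℝ) (hδ : 0 < δ) : ∃ C : ℝ, 0 < C ∧ ∀ n : ℕ, 1 ≤ n →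
    ((d : ℝ) + 1) ^ n.primeFactors.card ≤ C * (n : ℝ) ^ δ := by
  obtain ⟨C, hC, hdiv⟩ := Helper112.divisor_bound (δ / (d + 1)) (by positivity)
  refine ⟨C ^ (d + 1), by positivity, fun n hn => ?_⟩
  have hn0 : (0 : ℝ) < n := by exact_mod_cast hn
  have h1 : ((d : ℝ) + 1) ≤ 2 ^ (d + 1) := by
    have := Nat.lt_two_pow_self (n := d + 1)
    exact_mod_cast this.le
  have h2 : (2 : ℝ) ^ n.primeFactors.card ≤ C * (n : ℝ) ^ (δ / (d + 1)) := by
    refine le_trans ?_ (hdiv n hn)
    exact_mod_cast two_pow_le n (by omega)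
  calc ((d : ℝ) + 1) ^ n.primeFactors.card ≤ (2 ^ (d + 1)) ^ n.primeFactors.card :=
        pow_le_pow_left₀ (by positivity) h1 _
    _ = (2 ^ n.primeFactors.card) ^ (d + 1) := by rw [← pow_mul, ← pow_mul, mul_comm]
    _ ≤ (C * (n : ℝ) ^ (δ / (d + 1))) ^ (d + 1) := pow_le_pow_left₀ (by positivity) h2 _
    _ = C ^ (d + 1) * (n : ℝ) ^ δ := by
        rw [mul_pow, ← rpow_natCast ((n : ℝ) ^ (δ / (d + 1))), ← rpow_mul hn0.le]
        congr 2
        push_cast
        field_simp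

end Pool.Agent.L0h69.SI
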