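import Pool.Agent.L0h69.SI.AP
import Pool.Agent.L0h69.SI.Smooth
import Pool.Agent.L0h46.CV.BAD
import Pool.Agent.L0h46.CV.CLS

/-!
# Values of a polynomial with all small primes of symbol one: the large sieve
-/

set_option autoImplicit false

namespace Pool.Agent.L0h69.SI

open Finset Real Pool.Agent.W57.SW Pool.Agent.L0h46.CV

/-- the polynomial modulo `q` -/
noncomputable abbrev fq (f : Polynomial ℤ) (q : ℕ) : Polynomial (ZMod q) :=
  f.map (Int.castRingHom (ZMod q))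

lemma red_of (f : Polynomial ℤ) (hf : Squarefree (f.map (Int.castRingHom ℚ)))
    (hd : 1 ≤ f.natDegree) : Red (f.natDegree + 1) f.coeff := by
  refine ⟨?_, Or.inr ?_⟩
  · have : fp (f.natDegree + 1) f.coeff = f := by
      unfold fp
      conv_rhs => rw [f.as_sum_range_C_mul_X_pow' (n := f.natDegree + 1 + 1) (by omega)]
    rw [this]
    exact hf
  · rw [Nat.add_sub_cancel]
    intro h
    have h1 : f.leadingCoeff = 0 := h
    rw [Polynomial.leadingCoeff_eq_zero] at h1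
    rw [h1] at hd
    simp at hd

lemma eval_eq (f : Polynomial ℤ) (q : ℕ) (a : ZMod q) :
    ∑ i ∈ range (f.natDegree + 1 + 1), (f.coeff i : ZMod q) * a ^ i * 1 ^ (f.natDegree + 1 - i) =
      (fq f q).eval a := by
  rw [Polynomial.eval_map, Polynomial.eval₂_eq_sum_range' _ (show f.natDegree < f.natDegree + 1 + 1 by omega)]
  apply sum_congr rfl
  intro i _
  rw [one_pow, mul_one]
  rfl

lemma poly_class (A δ : ℝ) (hA : 1 < A) (hδ : 0 < δ) (f : Polynomial ℤ)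
    (hf : Squarefree (f.map (Int.castRingHom ℚ))) (hd : 2 ≤ f.natDegree) :
    ∃ K : ℝ, 0 < K ∧ ∀ x b e L r : ℕ,
    1 ≤ e → e ≤ x → 1 ≤ L → L ≤ x → ∀ T : Finset ℕ, T ⊆ range L →
    (∀ j ∈ T, ∃ m : ℕ, m ∈ Dq A x ∧ m % 4 = r ∧ f.eval ((b + e * j : ℕ) : ℤ) = ((e * m : ℕ) : ℤ)) →
    (T.card : ℝ) ≤ K * (x : ℝ) ^ (6 * δ) * (L : ℝ) ^ ((1 + 1 / A) / 2) := by
  classical
  have hA0 : 0 < A := by linarith
  have ha1 : 1 / A < 1 := by rw [div_lt_one hA0]; exact hA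
  have ha0 : 0 < 1 / A := by positivity
  obtain ⟨D0, C, hC, hsm⟩ := smooth_sets A δ hA hδ
  obtain ⟨K1, hK1, hcls⟩ := cls 2 (f.natDegree + 1) Nat.prime_two (by omega)
  obtain ⟨B0, hB0, hbad⟩ := bad (f.natDegree + 1) f.coeff (by omega) (red_of f hf (by omega))
  obtain ⟨p0, hp0⟩ := exists_nat_ge (16 * K1 ^ 2)
  obtain ⟨E0, hE0⟩ : ∃ E0 : ℕ, E0 = B0 * p0.factorial := ⟨_, rfl⟩
  have hE0p : 1 ≤ E0 := by rw [hE0]; exact Nat.mul_pos hB0 p0.factorial_pos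
  have hE0r : (0 : ℝ) < E0 := by exact_mod_cast hE0p
  refine ⟨((D0 : ℝ) + 1) ^ 2 + 24 * C ^ 5 * (E0 : ℝ) ^ δ, by positivity, ?_⟩
  intro x b e L r he hex hL hLx T hT hTD
  have hx1 : 1 ≤ x := he.trans hex
  have hx1' : (1 : ℝ) ≤ x := by exact_mod_cast hx1
  have hx0 : (0 : ℝ) < x := by linarith
  have hL1 : (1 : ℝ) ≤ L := by exact_mod_cast hL
  have hL0 : (0 : ℝ) < L := by linarith
  have he1 : (1 : ℝ) ≤ e := by exact_mod_cast he
  have he0 : (0 : ℝ) < e := by linarith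
  have hxδ : 1 ≤ (x : ℝ) ^ (6 * δ) := one_le_rpow hx1' (by positivity)
  have hLδ : 1 ≤ (L : ℝ) ^ ((1 + 1 / A) / 2) := one_le_rpow hL1 (by positivity)
  have hEδ : 0 ≤ (E0 : ℝ) ^ δ := by positivity
  have hTL : (T.card : ℝ) ≤ L := by
    have := card_le_card hT
    rw [card_range] at this
    exact_mod_cast this
  rcases T.eq_empty_or_nonempty with hT0 | ⟨j0, hj0⟩
  · rw [hT0]
    simp only [card_empty, Nat.cast_zero]
    positivity
  obtain ⟨Q, hQ⟩ : ∃ Q : ℕ, Q = Nat.sqrt L := ⟨_, rfl⟩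
  have hQ1 : Q * Q ≤ L := by rw [hQ]; exact Nat.sqrt_le L
  have hQ2 : L < (Q + 1) * (Q + 1) := by rw [hQ]; exact Nat.lt_succ_sqrt L
  have hQ2' : (L : ℝ) < ((Q : ℝ) + 1) ^ 2 := by
    have : (L : ℝ) < (((Q + 1) * (Q + 1) : ℕ) : ℝ) := by exact_mod_cast hQ2
    push_cast at this
    nlinarith
  rcases lt_or_ge Q D0 with hsm' | hlg
  · have h1 : (L : ℝ) ≤ ((D0 : ℝ) + 1) ^ 2 := by
      have : (Q : ℝ) < D0 := by exact_mod_cast hsm'
      have h3 : (0 : ℝ) ≤ Q := Nat.cast_nonneg _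
      nlinarith
    have h2 : 0 ≤ 24 * C ^ 5 * (E0 : ℝ) ^ δ := by positivity
    calc (T.card : ℝ) ≤ (((D0 : ℝ) + 1) ^ 2 + 24 * C ^ 5 * (E0 : ℝ) ^ δ) * 1 * 1 := by linarith
      _ ≤ (((D0 : ℝ) + 1) ^ 2 + 24 * C ^ 5 * (E0 : ℝ) ^ δ) * (x : ℝ) ^ (6 * δ) *
          (L : ℝ) ^ ((1 + 1 / A) / 2) := by
          apply mul_le_mul _ hLδ zero_le_one (by positivity)
          exact mul_le_mul_of_nonneg_left hxδ (by positivity)
  have hQpos : 1 ≤ Q := by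
    rw [hQ, Nat.one_le_iff_ne_zero, Ne, Nat.sqrt_eq_zero]
    omega
  have hQ1' : (1 : ℝ) ≤ Q := by exact_mod_cast hQpos
  have hQ0 : (0 : ℝ) < Q := by linarith
  have hQL : Q ≤ L := (Nat.le_mul_self Q).trans hQ1
  have hQx : (Q : ℝ) ≤ x := by exact_mod_cast hQL.trans hLx
  obtain ⟨S, hS, hSc⟩ := hsm Q (E0 * e) x hlg hQpos (hQL.trans hLx) (Nat.mul_pos hE0p he)
  obtain ⟨P, hPdef⟩ : ∃ P : Finset ℕ, P = (opr ⌊(log x) ^ A⌋₊).filter (fun q => ¬ q ∣ E0 * e) :=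
    ⟨_, rfl⟩
  rw [← hPdef] at hS
  have hPm : ∀ q ∈ P, q.Prime ∧ q ≠ 2 ∧ ¬ q ∣ e ∧ q ∈ opr ⌊(log x) ^ A⌋₊ ∧ ¬ q ∣ B0 ∧ p0 < q := by
    intro q hq
    rw [hPdef, mem_filter] at hq
    have h1 := mem_opr.1 hq.1
    refine ⟨h1.1, h1.2.2, fun h => hq.2 (h.mul_left _), hq.1, fun h => hq.2 ?_, ?_⟩
    · rw [hE0]
      exact (h.mul_right _).mul_right _
    · by_contra hcon
      apply hq.2
      rw [hE0]
      exact (((h1.1.dvd_factorial).2 (by omega)).mul_left _).mul_right _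
  choose! mm hmD hm4 hme using hTD
  obtain ⟨I, hI⟩ : ∃ I : ℕ → Finset ℕ, ∀ q c, c ∈ I q ↔ (c < q ∧ ∃ y : ZMod q,
      (fq f q).eval ((b : ZMod q) + (e : ZMod q) * ((c : ZMod q) - 1)) =
        ((e * mm j0 : ℕ) : ZMod q) * y ^ 2) :=
    ⟨fun q => (range q).filter fun c => ∃ y : ZMod q,
      (fq f q).eval ((b : ZMod q) + (e : ZMod q) * ((c : ZMod q) - 1)) =
        ((e * mm j0 : ℕ) : ZMod q) * y ^ 2,
      fun q c => by rw [mem_filter, mem_range]⟩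
  have hrec : ∀ j ∈ T, ∀ q ∈ P,
      (jacobiSym ((mm j : ℕ) : ℤ) q = jacobiSym (ZMod.χ₄ (r : ZMod 4)) q) ∧
      (jacobiSym (ZMod.χ₄ (r : ZMod 4)) q = 1 ∨ jacobiSym (ZMod.χ₄ (r : ZMod 4)) q = -1) := by
    intro j hj q hq
    obtain ⟨h1, h2, h3, h4, -, -⟩ := hPm q hq
    have h5 := mem_Dq.1 (hmD j hj)
    exact recip h5.2.1 (h1.odd_of_ne_two h2) (hm4 j hj) (h5.2.2.2 q h4)
  have hchi : ∀ j ∈ T, ∀ q ∈ P, ∀ _ : Fact q.Prime,
      quadraticChar (ZMod q) ((mm j : ℕ) : ZMod q) = jacobiSym (ZMod.χ₄ (r : ZMod 4)) q := by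
    intro j hj q hq _
    rw [← (hrec j hj q hq).1, ← jacobiSym.legendreSym.to_jacobiSym]
    unfold legendreSym
    congr 1
    push_cast
    rfl
  have hne : ∀ j ∈ T, ∀ q ∈ P, ((mm j : ℕ) : ZMod q) ≠ 0 := by
    intro j hj q hq h
    have : Fact q.Prime := ⟨(hPm q hq).1⟩
    have h1 := hchi j hj q hq this
    rw [h, quadraticChar_zero] at h1
    rcases (hrec j hj q hq).2 with h2 | h2 <;> rw [h2] at h1 <;> norm_num at h1
  have hI2 : ∀ q ∈ P, ((I q).card : ℝ) ≤ 3 / 4 * q := by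
    intro q hq
    obtain ⟨h1, h2, h3, h4, h5, h6⟩ := hPm q hq
    have : Fact q.Prime := ⟨h1⟩
    have : NeZero q := ⟨h1.ne_zero⟩
    have hq0 : (0 : ℝ) < q := by exact_mod_cast h1.pos
    have he' : (e : ZMod q) ≠ 0 := by
      rw [Ne, ZMod.natCast_eq_zero_iff]
      exact h3
    have hκ : ((e * mm j0 : ℕ) : ZMod q) ≠ 0 := by
      push_cast
      exact mul_ne_zero he' (hne j0 hj0 q hq)
    have h2q : 2 ∣ q - 1 := by
      have := h1.odd_of_ne_two h2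
      obtain ⟨u, hu⟩ := this
      exact ⟨u, by omega⟩
    have h7 := hcls f.coeff q (hbad q h1 h5) h2q ((e * mm j0 : ℕ) : ZMod q) 1 hκ one_ne_zero
    have h8 : (I q).card ≤ {a : ZMod q | ∃ y : ZMod q,
        ∑ i ∈ range (f.natDegree + 1 + 1), (f.coeff i : ZMod q) * a ^ i *
          1 ^ (f.natDegree + 1 - i) = ((e * mm j0 : ℕ) : ZMod q) * y ^ 2}.ncard := by
      rw [← Set.ncard_coe_finset]
      refine Set.ncard_le_ncard_of_injOn
        (fun c : ℕ => (b : ZMod q) + (e : ZMod q) * ((c : ZMod q) - 1)) ?_ ?_ (Set.toFinite _)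
      · intro c hc
        rw [Finset.mem_coe, hI] at hc
        obtain ⟨y, hy⟩ := hc.2
        exact ⟨y, by rw [eval_eq]; exact hy⟩
      · intro c hc c' hc' h
        rw [Finset.mem_coe, hI] at hc hc'
        have h5 : (c : ZMod q) = (c' : ZMod q) :=
          sub_left_injective (mul_left_cancel₀ he' (add_left_cancel h))
        rw [ZMod.natCast_eq_natCast_iff', Nat.mod_eq_of_lt hc.1, Nat.mod_eq_of_lt hc'.1] at h5
        exact h5
    have h9 : ((I q).card : ℝ) ≤ q / (2 : ℕ) + K1 * Real.sqrt q := by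
      refine le_trans ?_ h7
      exact_mod_cast h8
    have h10 : K1 * Real.sqrt q ≤ q / 4 := by
      have h11 : 4 * K1 ≤ Real.sqrt q := by
        apply Real.le_sqrt_of_sq_le
        have : (p0 : ℝ) < q := by exact_mod_cast h6
        nlinarith
      have h12 : Real.sqrt q * Real.sqrt q = q := Real.mul_self_sqrt hq0.le
      have h13 : 0 ≤ Real.sqrt q := Real.sqrt_nonneg _
      nlinarith
    push_cast at h9
    linarith
  -- the sieve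
  obtain ⟨T', hT'⟩ : ∃ T' : Finset ℕ, T' = T.image (fun j => j + 1) := ⟨_, rfl⟩
  have hTc : T'.card = T.card := by
    rw [hT']
    exact card_image_of_injective _ (add_left_injective 1)
  have hT'L : T' ⊆ Icc 1 L := by
    intro n hn
    rw [hT', mem_image] at hn
    obtain ⟨j, hj, rfl⟩ := hn
    have := mem_range.1 (hT hj)
    rw [mem_Icc]
    omega
  have hT'I : ∀ n ∈ T', ∀ q ∈ P, n % q ∈ I q := by
    intro n hn q hq
    rw [hT', mem_image] at hn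
    obtain ⟨j, hj, rfl⟩ := hn
    have hqp := (hPm q hq).1
    have : Fact q.Prime := ⟨hqp⟩
    rw [hI]
    refine ⟨Nat.mod_lt _ hqp.pos, ?_⟩
    have h0 := hne j0 hj0 q hq
    have h1 := hne j hj q hq
    have h2 : quadraticChar (ZMod q) (((mm j : ℕ) : ZMod q) * ((mm j0 : ℕ) : ZMod q)) = 1 := by
      rw [map_mul, hchi j hj q hq this, hchi j0 hj0 q hq this]
      rcases (hrec j hj q hq).2 with h3 | h3 <;> rw [h3] <;> norm_num
    rw [quadraticChar_one_iff_isSquare (mul_ne_zero h1 h0)] at h2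
    obtain ⟨y, hy⟩ := h2
    refine ⟨y * (((mm j0 : ℕ) : ZMod q))⁻¹, ?_⟩
    have e1 : (b : ZMod q) + (e : ZMod q) * ((((j + 1) % q : ℕ) : ZMod q) - 1) =
        ((((b + e * j : ℕ) : ℤ)) : ZMod q) := by
      rw [ZMod.natCast_mod]
      push_cast
      ring
    rw [e1]
    have e2 : (fq f q).eval ((((b + e * j : ℕ) : ℤ)) : ZMod q) =
        ((f.eval ((b + e * j : ℕ) : ℤ) : ℤ) : ZMod q) :=
      Polynomial.eval_intCast_map (Int.castRingHom (ZMod q)) f _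
    rw [e2, hme j hj]
    push_cast
    rw [mul_pow, pow_two y, ← hy]
    field_simp
  have hcpos : 0 < ((C * (Q : ℝ) ^ δ)⁻¹) ^ 2 := by positivity
  have key := sieve_crude L Q P I S (fun q hq => (hPm q hq).1)
    (fun q _ c hc => mem_range.2 ((hI q c).1 hc).1) hI2 (fun s hs => (hS s hs).1) T' hT'L hT'I _ hcpos
    (fun s hs => by
      have h1 := (hS s hs).2
      calc ((C * (Q : ℝ) ^ δ)⁻¹) ^ 2 ≤ ((1 / 2 : ℝ) ^ s.card) ^ 2 :=
            pow_le_pow_left₀ (by positivity) h1 2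
        _ = (1 / 4 : ℝ) ^ s.card := by rw [← pow_mul, mul_comm, pow_mul]; norm_num)
  rw [hTc] at key
  -- conclusion
  have hQQ : (Q : ℝ) ^ 2 ≤ L := by
    have : ((Q * Q : ℕ) : ℝ) ≤ L := by exact_mod_cast hQ1
    push_cast at this
    nlinarith
  obtain ⟨c0, hc0⟩ : ∃ c0 : ℝ, c0 = C * (Q : ℝ) ^ δ := ⟨_, rfl⟩
  have hc0p : 0 < c0 := by rw [hc0]; positivity
  rw [← hc0] at key
  have k1 : (T.card : ℝ) * S.card ≤ 12 * L * c0 ^ 4 := by
    have h1 : (T.card : ℝ) * S.card * (c0 ^ 4)⁻¹ ≤ 12 * L := by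
      calc (T.card : ℝ) * S.card * (c0 ^ 4)⁻¹ =
          (T.card : ℝ) * ((c0⁻¹ ^ 2) ^ 2 * S.card) := by
            rw [← pow_mul, inv_pow]; ring
        _ ≤ 6 * ((L : ℝ) + (Q : ℝ) ^ 2) := key
        _ ≤ 12 * L := by linarith
    rwa [← div_eq_mul_inv, div_le_iff₀ (by positivity)] at h1
  have k2 : (T.card : ℝ) * (Q : ℝ) ^ (1 - 1 / A - δ) ≤
      12 * L * c0 ^ 4 * (C * ((E0 * e : ℕ) : ℝ) ^ δ) := by
    calc (T.card : ℝ) * (Q : ℝ) ^ (1 - 1 / A - δ) ≤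
        (T.card : ℝ) * (S.card * (C * ((E0 * e : ℕ) : ℝ) ^ δ)) :=
          mul_le_mul_of_nonneg_left hSc (Nat.cast_nonneg _)
      _ = (T.card : ℝ) * S.card * (C * ((E0 * e : ℕ) : ℝ) ^ δ) := by ring
      _ ≤ _ := mul_le_mul_of_nonneg_right k1 (by positivity)
  have k3 : (T.card : ℝ) * (Q : ℝ) ^ (1 - 1 / A) ≤
      12 * C ^ 5 * (E0 : ℝ) ^ δ * L * (x : ℝ) ^ (6 * δ) := by
    have e1 : (Q : ℝ) ^ (1 - 1 / A) = (Q : ℝ) ^ (1 - 1 / A - δ) * (Q : ℝ) ^ δ := by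
      rw [← rpow_add hQ0]; congr 1; ring
    have e2 : (x : ℝ) ^ (6 * δ) = ((x : ℝ) ^ δ) ^ 6 := by
      rw [← rpow_natCast, ← rpow_mul hx0.le]
      congr 1
      push_cast
      ring
    have e3 : (Q : ℝ) ^ δ ≤ (x : ℝ) ^ δ := rpow_le_rpow hQ0.le hQx hδ.le
    have e4 : ((E0 * e : ℕ) : ℝ) ^ δ ≤ (E0 : ℝ) ^ δ * (x : ℝ) ^ δ := by
      push_cast
      rw [mul_rpow hE0r.le he0.le]
      exact mul_le_mul_of_nonneg_left
        (rpow_le_rpow he0.le (by exact_mod_cast hex) hδ.le) hEδ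
    rw [e1, e2]
    calc (T.card : ℝ) * ((Q : ℝ) ^ (1 - 1 / A - δ) * (Q : ℝ) ^ δ) =
        ((T.card : ℝ) * (Q : ℝ) ^ (1 - 1 / A - δ)) * (Q : ℝ) ^ δ := by ring
      _ ≤ (12 * L * c0 ^ 4 * (C * ((E0 * e : ℕ) : ℝ) ^ δ)) * (Q : ℝ) ^ δ :=
          mul_le_mul_of_nonneg_right k2 (by positivity)
      _ = 12 * C ^ 5 * L * (((Q : ℝ) ^ δ) ^ 5 * ((E0 * e : ℕ) : ℝ) ^ δ) := by rw [hc0]; ring
      _ ≤ 12 * C ^ 5 * L * (((x : ℝ) ^ δ) ^ 5 * ((E0 : ℝ) ^ δ * (x : ℝ) ^ δ)) := by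
          apply mul_le_mul_of_nonneg_left _ (by positivity)
          exact mul_le_mul (pow_le_pow_left₀ (by positivity) e3 5) e4 (by positivity) (by positivity)
      _ = _ := by ring
  have k4 : (L : ℝ) ^ ((1 - 1 / A) / 2) ≤ 2 * (Q : ℝ) ^ (1 - 1 / A) := by
    have h1 : (L : ℝ) ≤ (2 * (Q : ℝ)) ^ 2 := by
      have : (Q : ℝ) + 1 ≤ 2 * Q := by linarith
      nlinarith
    have h2 : (L : ℝ) ^ ((1 - 1 / A) / 2) ≤ ((2 * (Q : ℝ)) ^ 2) ^ ((1 - 1 / A) / 2) :=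
      rpow_le_rpow hL0.le h1 (by linarith)
    have h3 : ((2 * (Q : ℝ)) ^ 2) ^ ((1 - 1 / A) / 2) = 2 ^ (1 - 1 / A) * (Q : ℝ) ^ (1 - 1 / A) := by
      rw [← rpow_natCast, ← rpow_mul (by positivity), ← mul_rpow (by norm_num) hQ0.le]
      congr 1
      push_cast
      ring
    have h4 : (2 : ℝ) ^ (1 - 1 / A) ≤ 2 := by
      calc (2 : ℝ) ^ (1 - 1 / A) ≤ 2 ^ (1 : ℝ) :=
            rpow_le_rpow_of_exponent_le (by norm_num) (by linarith)
        _ = 2 := rpow_one 2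
    rw [h3] at h2
    exact h2.trans (mul_le_mul_of_nonneg_right h4 (by positivity))
  have k5 : (T.card : ℝ) * (L : ℝ) ^ ((1 - 1 / A) / 2) ≤
      (24 * C ^ 5 * (E0 : ℝ) ^ δ * (x : ℝ) ^ (6 * δ) * (L : ℝ) ^ ((1 + 1 / A) / 2)) *
        (L : ℝ) ^ ((1 - 1 / A) / 2) := by
    have e1 : (L : ℝ) ^ ((1 + 1 / A) / 2) * (L : ℝ) ^ ((1 - 1 / A) / 2) = L := by
      rw [← rpow_add hL0]
      have : (1 + 1 / A) / 2 + (1 - 1 / A) / 2 = 1 := by ring
      rw [this, rpow_one]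
    calc (T.card : ℝ) * (L : ℝ) ^ ((1 - 1 / A) / 2) ≤
        (T.card : ℝ) * (2 * (Q : ℝ) ^ (1 - 1 / A)) :=
          mul_le_mul_of_nonneg_left k4 (Nat.cast_nonneg _)
      _ = 2 * ((T.card : ℝ) * (Q : ℝ) ^ (1 - 1 / A)) := by ring
      _ ≤ 2 * (12 * C ^ 5 * (E0 : ℝ) ^ δ * L * (x : ℝ) ^ (6 * δ)) := by linarith
      _ = 24 * C ^ 5 * (E0 : ℝ) ^ δ * (x : ℝ) ^ (6 * δ) * L := by ring
      _ = 24 * C ^ 5 * (E0 : ℝ) ^ δ * (x : ℝ) ^ (6 * δ) * ((L : ℝ) ^ ((1 + 1 / A) / 2) *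
            (L : ℝ) ^ ((1 - 1 / A) / 2)) := by rw [e1]
      _ = _ := by ring
  have k6 := le_of_mul_le_mul_right k5 (by positivity)
  refine k6.trans ?_
  apply mul_le_mul_of_nonneg_right _ (by positivity)
  apply mul_le_mul_of_nonneg_right _ (by positivity)
  have : 0 ≤ ((D0 : ℝ) + 1) ^ 2 := by positivity
  linarith

/-- Values of a polynomial in a progression. -/
theorem poly_sieve (A δ : ℝ) (hA : 1 < A) (hδ : 0 < δ) (f : Polynomial ℤ)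
    (hf : Squarefree (f.map (Int.castRingHom ℚ))) (hd : 2 ≤ f.natDegree) :
    ∃ K : ℝ, 0 < K ∧ ∀ x b e L : ℕ,
    1 ≤ e → e ≤ x → 1 ≤ L → L ≤ x → ∀ T : Finset ℕ, T ⊆ range L →
    (∀ j ∈ T, ∃ m : ℕ, m ∈ Dq A x ∧ f.eval ((b + e * j : ℕ) : ℤ) = ((e * m : ℕ) : ℤ)) →
    (T.card : ℝ) ≤ K * (x : ℝ) ^ δ * (L : ℝ) ^ ((1 + 1 / A) / 2) := by
  classical
  obtain ⟨K, hK, h⟩ := poly_class A (δ / 6) hA (by positivity) f hf hd
  refine ⟨4 * K, by positivity, ?_⟩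
  intro x b e L he hex hL hLx T hT hTD
  choose! mm hmD hme using hTD
  have h1 : T.card = ∑ r ∈ range 4, (T.filter (fun j => mm j % 4 = r)).card :=
    card_eq_sum_card_fiberwise fun j _ => by
      rw [mem_coe, mem_range]
      exact Nat.mod_lt _ (by norm_num)
  have h2 : ∀ r ∈ range 4, ((T.filter (fun j => mm j % 4 = r)).card : ℝ) ≤
      K * (x : ℝ) ^ δ * (L : ℝ) ^ ((1 + 1 / A) / 2) := by
    intro r _
    have h3 := h x b e L r he hex hL hLx (T.filter (fun j => mm j % 4 = r))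
      ((filter_subset _ _).trans hT) (fun j hj => by
        rw [mem_filter] at hj
        exact ⟨mm j, hmD j hj.1, hj.2, hme j hj.1⟩)
    rwa [show 6 * (δ / 6) = δ by ring] at h3
  rw [h1]
  push_cast
  refine (sum_le_sum h2).trans (le_of_eq ?_)
  rw [sum_const, card_range, nsmul_eq_mul]
  push_cast
  ring

end Pool.Agent.L0h69.SI
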