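import Pool.Agent.L0h69.SI.PolyParts

/-!
# Values of polynomials without a small witness
-/

set_option autoImplicit false

namespace Pool.Agent.L0h69.SI

open Finset Real Pool.Agent.W57.SW Pool.Agent.L0h46.CV

open Classical in
/-- the covering -/
lemma poly_cover {A β P' M₁ : ℝ} {f : Polynomial ℤ} {x H X B0 k n : ℕ}
    (hk : k ∈ Ioc x (x + H)) (hkn : f.eval (k : ℤ) = (n : ℤ)) (hnX : n ≤ X) (hb : Bd A n)
    (hlog : (log X) ^ A ≤ 2 * (log n) ^ A) (hlog2 : 2 ≤ (log X) ^ A) (hsq : Squarefree n)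
    (hgcd : ∀ q m : ℕ, q.Prime → n = q * m →
      (q : ℝ) ^ (1 - β) ≤ (Nat.gcd (q - 1) (m - 1) : ℝ) ∧ 2 ≤ m) (hP' : 0 < P') (hβ0 : 0 ≤ β)
    (hβ1 : β < 1) (hpB : ∀ p : ℕ, p.Prime → p ∣ n → ¬ p ∣ B0)
    (hM₁ : M₁ ≤ (n : ℝ) ^ ((1 - β) / (2 - β))) :
    k ∈ (Ioc x (x + H)).filter (fun k : ℕ => ∃ m : ℕ, m ∈ Dq A X ∧
        f.eval (k : ℤ) = ((1 * m : ℕ) : ℤ)) ∪
      ((((Dq A X).filter (fun m : ℕ => M₁ ≤ m ∧ m ≤ ⌊(X : ℝ) / P'⌋₊ ∧
      ∀ p : ℕ, p.Prime → p ∣ m → ¬ p ∣ B0)).biUnion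
      (fun m => (Ioc x (x + H)).filter (fun k : ℕ => (m : ℤ) ∣ f.eval (k : ℤ)))) ∪
      (((Icc 1 ⌊P'⌋₊).filter (fun p : ℕ => p.Prime ∧ ¬ p ∣ B0)).biUnion
      (fun p => (Ioc x (x + H)).filter (fun k : ℕ => ∃ m : ℕ, m ∈ Dq A X ∧
        f.eval (k : ℤ) = ((p * m : ℕ) : ℤ))))) := by
  rcases bd_struct hb hnX hlog hlog2 hsq with h | h
  · rw [mem_union]
    left
    rw [mem_filter]
    exact ⟨hk, n, h, by rw [one_mul]; exact hkn⟩
  · rw [mem_union, mem_union]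
    right
    obtain ⟨p, m, hp, hnm, hm⟩ := h
    obtain ⟨g1, g2⟩ := hgcd p m hp hnm
    have hp0 : (0 : ℝ) < p := by exact_mod_cast hp.pos
    have hm0 : (0 : ℝ) < m := by exact_mod_cast (by omega : 0 < m)
    have hpn : p ∣ n := ⟨m, hnm⟩
    have hmn : m ∣ n := ⟨p, by rw [hnm, mul_comm]⟩
    rcases le_or_gt (p : ℝ) P' with hpP | hpP
    · right
      rw [mem_biUnion]
      refine ⟨p, mem_filter.2 ⟨mem_Icc.2 ⟨hp.one_lt.le, Nat.le_floor hpP⟩, hp, hpB p hp hpn⟩, ?_⟩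
      rw [mem_filter]
      exact ⟨hk, m, hm, by rw [hkn, hnm]⟩
    · left
      rw [mem_biUnion]
      refine ⟨m, mem_filter.2 ⟨hm, ?_, ?_, fun q hq hqm => hpB q hq (hqm.trans hmn)⟩, ?_⟩
      · refine hM₁.trans ?_
        have h1 : (p : ℝ) ^ (1 - β) ≤ m := by
          refine g1.trans ?_
          have : Nat.gcd (p - 1) (m - 1) ≤ m :=
            (Nat.gcd_le_right _ (by omega)).trans (Nat.sub_le _ _)
          exact_mod_cast this
        have h2 : (n : ℝ) ^ (1 - β) ≤ (m : ℝ) ^ (2 - β) := by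
          rw [hnm]
          push_cast
          rw [mul_rpow hp0.le hm0.le, show (2 : ℝ) - β = 1 + (1 - β) by ring, rpow_add hm0,
            rpow_one]
          exact mul_le_mul_of_nonneg_right h1 (by positivity)
        have h3 : ((n : ℝ) ^ (1 - β)) ^ (1 / (2 - β)) ≤ ((m : ℝ) ^ (2 - β)) ^ (1 / (2 - β)) :=
          rpow_le_rpow (by positivity) h2 (by
            apply div_nonneg zero_le_one
            linarith)
        rw [← rpow_mul (Nat.cast_nonneg n), ← rpow_mul hm0.le] at h3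
        have h4 : (2 - β) * (1 / (2 - β)) = 1 := by
          rw [mul_one_div_cancel]
          linarith
        rw [h4, rpow_one] at h3
        rw [show (1 - β) / (2 - β) = (1 - β) * (1 / (2 - β)) by ring]
        exact h3
      · apply Nat.le_floor
        rw [le_div_iff₀ hP']
        have h1 : ((p * m : ℕ) : ℝ) ≤ (X : ℝ) := by
          rw [← hnm]
          exact_mod_cast hnX
        push_cast at h1
        nlinarith
      · rw [mem_filter]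
        refine ⟨hk, ?_⟩
        rw [hkn]
        exact_mod_cast hmn

/-- the exponent `ρ` -/
noncomputable def rho (A : ℝ) (d : ℕ) : ℝ := max 0 (2 * d / (A + 1) - 1)

/-- the exponent `θ` -/
noncomputable def theta (A : ℝ) (d : ℕ) : ℝ := (1 + 1 / A) / 2 + rho A d * (1 - (1 + 1 / A) / 2)


lemma num1 {β : ℝ} (hβ0 : 0 ≤ β) (hβ : β ≤ 2 / 3) {d : ℝ} (hd : 2 ≤ d) :
    (1 - β) / 2 ≤ d * ((1 - β) / (2 - β) * (1 - β)) := by
  have h4 : (1 - β) / 4 ≤ (1 - β) / (2 - β) * (1 - β) := by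
    have h5 : (1 : ℝ) / 4 ≤ (1 - β) / (2 - β) := by
      rw [div_le_div_iff₀ (by norm_num) (by linarith)]
      linarith
    have h6 : 0 ≤ 1 - β := by linarith
    have h7 := mul_le_mul_of_nonneg_right h5 h6
    linarith
  have h8 : 0 ≤ (1 - β) / (2 - β) * (1 - β) := by
    have : 0 ≤ (1 - β) / 4 := by linarith
    linarith
  have h9 := mul_le_mul_of_nonneg_right hd h8
  linarith

lemma num2 {a d ρ δ θ : ℝ} (h : (d - ρ) * a ≤ θ) (hρ : 0 ≤ ρ) (hδ : 0 ≤ δ) :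
    (d - ρ) * (a + δ) ≤ θ + d * δ := by
  have : 0 ≤ ρ * δ := mul_nonneg hρ hδ
  have e : (d - ρ) * (a + δ) = (d - ρ) * a + d * δ - ρ * δ := by ring
  rw [e]
  linarith

lemma num3 {t b d l v : ℝ} (ht1 : t < 1) (hb : 0 ≤ b) (h : b + (d + 1) * v ≤ l * ((1 - t) * d)) :
    t * (b + d * l) ≤ d * l - (d + 1) * v := by
  have h1 : t * b ≤ 1 * b := mul_le_mul_of_nonneg_right ht1.le hb
  have e : t * (b + d * l) = t * b + (d * l - l * ((1 - t) * d)) := by ring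
  rw [e]
  linarith

lemma num4 {β d γ M Y : ℝ} {N n : ℕ} (hN : (0 : ℝ) < N) (hY : Y = (N : ℝ) ^ n / 2 ^ (n + 1))
    (hd : d = n) (hγ : γ = (1 - β) / (2 - β) * (1 - β)) (hM : M = Y ^ ((1 - β) / (2 - β))) :
    M ^ (-(1 - β)) = 2 ^ ((d + 1) * γ) * (N : ℝ) ^ (-(d * γ)) := by
  have hY0 : 0 < Y := by rw [hY]; positivity
  have a1 : ((N : ℝ) ^ n) ^ (-γ) = (N : ℝ) ^ (-(d * γ)) := by
    rw [← rpow_natCast, ← rpow_mul hN.le, mul_neg, hd]
  have a2 : ((2 : ℝ) ^ (n + 1)) ^ (-γ) = ((2 : ℝ) ^ ((d + 1) * γ))⁻¹ := by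
    rw [← rpow_natCast, ← rpow_mul (by norm_num), mul_neg, rpow_neg (by norm_num), hd]
    push_cast
    rfl
  rw [hM, ← rpow_mul hY0.le, show (1 - β) / (2 - β) * -(1 - β) = -γ by rw [hγ]; ring, hY,
    div_rpow (by positivity) (by positivity), a1, a2, div_inv_eq_mul, mul_comm]

lemma num5 {A d ρ s : ℝ} (hA : 2 ≤ A) (hs : s = (1 + 1 / A) / 2)
    (hρ : 2 * d / (A + 1) - 1 ≤ ρ) : (d - ρ) * (1 / A) ≤ s + ρ * (1 - s) := by
  have hA0 : 0 < A := by linarith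
  have h1 : 2 * d ≤ (ρ + 1) * (A + 1) :=
    (div_le_iff₀ (by linarith : 0 < A + 1)).1 (by linarith)
  have h2 : s + ρ * (1 - s) - (d - ρ) * (1 / A) = ((ρ + 1) * (A + 1) - 2 * d) / (2 * A) := by
    rw [hs]
    field_simp
    ring
  have h3 : 0 ≤ ((ρ + 1) * (A + 1) - 2 * d) / (2 * A) :=
    div_nonneg (by linarith) (by linarith)
  linarith

lemma num6 {N k d n : ℕ} (hd : 2 ≤ d) (hk : 2 ≤ k) (h : k ^ d ≤ 2 * n) : k ≤ n := by
  have h4 : k * k ≤ k ^ d := by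
    calc k * k = k ^ 2 := by ring
      _ ≤ k ^ d := Nat.pow_le_pow_right (by omega) hd
  have h5 : 2 * k ≤ k * k := Nat.mul_le_mul_right k hk
  omega

lemma num7 {N k d n : ℕ} (hk2 : N ≤ 2 * k) (hl : k ^ d ≤ 2 * n) {Y : ℝ}
    (hY : Y = (N : ℝ) ^ d / 2 ^ (d + 1)) : Y ≤ n := by
  rw [hY, div_le_iff₀ (by positivity)]
  have h4 : (N : ℝ) ^ d ≤ (2 * (k : ℝ)) ^ d := by
    apply pow_le_pow_left₀ (Nat.cast_nonneg _)
    exact_mod_cast hk2
  have h5 : (k : ℝ) ^ d ≤ 2 * n := by exact_mod_cast hl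
  calc (N : ℝ) ^ d ≤ (2 * (k : ℝ)) ^ d := h4
    _ = 2 ^ d * (k : ℝ) ^ d := by rw [mul_pow]
    _ ≤ 2 ^ d * (2 * n) := mul_le_mul_of_nonneg_left h5 (by positivity)
    _ = n * 2 ^ (d + 1) := by ring

lemma num8 {B N d X : ℕ} (hd : 2 ≤ d) (hB : 1 ≤ B) (hN : 2 ≤ N) (hX : X = B * N ^ d) :
    N + 1 ≤ X := by
  have h1 : N + 1 ≤ N * N := by
    have : 2 * N ≤ N * N := Nat.mul_le_mul_right N hN
    omega
  have h2 : N * N ≤ N ^ d := by
    calc N * N = N ^ 2 := by ring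
      _ ≤ N ^ d := Nat.pow_le_pow_right (by omega) hd
  rw [hX]
  exact (h1.trans h2).trans (Nat.le_mul_of_pos_left _ hB)

lemma num9 {A ε : ℝ} (hA : 2 ≤ A) (hε : 0 < ε) {d : ℝ} (hd : 2 ≤ d) :
    ∃ δ : ℝ, 0 < δ ∧ 3 * d * δ ≤ ε ∧ δ ≤ 1 / 12 :=
  ⟨min (ε / (3 * d)) (1 / 12), lt_min (by positivity) (by norm_num), by
      have := min_le_left (ε / (3 * d)) (1 / 12)
      calc 3 * d * min (ε / (3 * d)) (1 / 12) ≤ 3 * d * (ε / (3 * d)) :=
            mul_le_mul_of_nonneg_left this (by positivity)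
        _ = ε := by field_simp, min_le_right _ _⟩

lemma card_cover {U V W Z : Finset ℕ} (h : U ⊆ V ∪ (W ∪ Z)) :
    (U.card : ℝ) ≤ V.card + (W.card + Z.card) := by
  have e1 := (card_le_card h).trans ((card_union_le _ _).trans
    (Nat.add_le_add_left (card_union_le _ _) _))
  exact_mod_cast e1

open Classical in
lemma poly_window (A ε : ℝ) (hA : 2 ≤ A) (hε : 0 < ε) (f : Polynomial ℤ)
    (hf : Squarefree (f.map (Int.castRingHom ℚ))) (hd : 2 ≤ f.natDegree)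
    (hlc : 0 < f.leadingCoeff) (hdA : (f.natDegree : ℝ) < A + 1) :
    ∃ K : ℝ, 0 < K ∧ ∀ N : ℕ, 1 ≤ N →
    (((Ioc (N / 2) N).filter (fun k : ℕ => Bd A (f.eval (k : ℤ)).toNat)).card : ℝ) ≤
      K * (N : ℝ) ^ (theta A f.natDegree + ε) := by
  have hA0 : 0 < A := by linarith
  have ha0 : 0 < 1 / A := by positivity
  have ha2 : 1 / A ≤ 1 / 2 := by
    rw [div_le_div_iff₀ hA0 (by norm_num)]; linarith
  obtain ⟨d, hdd⟩ : ∃ d : ℕ, d = f.natDegree := ⟨_, rfl⟩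
  rw [← hdd] at hd hdA ⊢
  have hdr : (2 : ℝ) ≤ d := by exact_mod_cast hd
  obtain ⟨δ, hδ0, hδ1, hδ2⟩ := num9 hA hε hdr
  obtain ⟨β, hβ⟩ : ∃ β : ℝ, β = 1 / A + 2 * δ := ⟨_, rfl⟩
  have hβ0 : 0 ≤ β := by rw [hβ]; positivity
  have hβ23 : β ≤ 2 / 3 := by rw [hβ]; linarith
  obtain ⟨s, hs⟩ : ∃ s : ℝ, s = (1 + 1 / A) / 2 := ⟨_, rfl⟩
  have hs0 : 0 < s := by rw [hs]; positivity
  have hs1 : s ≤ 1 := by rw [hs]; linarith
  obtain ⟨ρ, hρ⟩ : ∃ ρ : ℝ, ρ = rho A d := ⟨_, rfl⟩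
  have hρ0 : 0 ≤ ρ := by rw [hρ]; exact le_max_left _ _
  have hρ1 : ρ ≤ 1 := by
    rw [hρ]
    apply max_le zero_le_one
    have : 2 * (d : ℝ) / (A + 1) ≤ 2 := by
      rw [div_le_iff₀ (by linarith)]
      linarith
    linarith
  have hρ2 : 2 * (d : ℝ) / (A + 1) - 1 ≤ ρ := by rw [hρ]; exact le_max_right _ _
  obtain ⟨θ, hθ⟩ : ∃ θ : ℝ, θ = theta A d := ⟨_, rfl⟩
  have hθ' : θ = s + ρ * (1 - s) := by rw [hθ, hs, hρ]; rfl
  rw [← hθ]
  have hsθ : s ≤ θ := by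
    rw [hθ']
    have : 0 ≤ ρ * (1 - s) := mul_nonneg hρ0 (by linarith)
    linarith
  have hρθ : ρ ≤ θ := by
    rw [hθ']
    have : 0 ≤ s * (1 - ρ) := mul_nonneg hs0.le (by linarith)
    linarith
  have hθ0 : 0 < θ := by linarith
  have hdρ : ((d : ℝ) - ρ) * (1 / A) ≤ θ := by
    rw [hθ']
    exact num5 hA hs hρ2
  -- the tools
  obtain ⟨B0, hB0, hbad⟩ := bad (f.natDegree + 1) f.coeff (by omega) (red_of f hf (by omega))
  obtain ⟨B, hB1, hBu, hBl⟩ := eval_upper f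
  rw [← hdd] at hBu hBl
  have hBl := hBl hlc (by omega)
  obtain ⟨K1, hK1, h1⟩ := poly_sieve A δ (by linarith) hδ0 f hf (by omega)
  obtain ⟨K2, hK2, h2⟩ := poly_two A δ β hA hδ0 (by linarith) (by linarith) f B0 hbad
  obtain ⟨K3, hK3, h3⟩ := poly_three A δ hA hδ0 f hf (by omega) B0 hbad
  rw [← hs] at h3
  obtain ⟨N1, hN1⟩ := bad_squarefree
  obtain ⟨N2, hN23, hN2⟩ := bd_gcd A δ hA hδ0
  have hth := th_pos A
  have hth1 := th_lt_one hA0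
  have hBr1 : (1 : ℝ) ≤ B := by exact_mod_cast hB1
  have hBr0 : (0 : ℝ) < B := by linarith
  have hlogB : 0 ≤ log (B : ℝ) := log_natCast_nonneg B
  have hlog2p : 0 < log (2 : ℝ) := log_pos (by norm_num)
  obtain ⟨Λ, hΛ⟩ : ∃ Λ : ℝ, Λ = (log B + (d + 1) * log 2) / ((1 - th A) * d) := ⟨_, rfl⟩
  have hev1 : ∀ᶠ x : ℝ in Filter.atTop, max (max 2 (B0 : ℝ)) Λ ≤ log x :=
    tendsto_log_atTop.eventually (Filter.eventually_ge_atTop _)
  obtain ⟨x0, hx0⟩ := Filter.eventually_atTop.mp hev1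
  obtain ⟨X0, hX0⟩ := exists_nat_ge x0
  obtain ⟨N0, hN0⟩ : ∃ N0 : ℕ, N0 = X0 + 4 * B + 4 + 2 * max N1 N2 := ⟨_, rfl⟩
  refine ⟨(N0 : ℝ) + (2 * K1 + K2 * (2 ^ (d + 1) + B) + 2 * K3) * B, by positivity, ?_⟩
  intro N hN
  have hNr1 : (1 : ℝ) ≤ N := by exact_mod_cast hN
  have hNr0 : (0 : ℝ) < N := by linarith
  have hpow1 : (1 : ℝ) ≤ (N : ℝ) ^ (θ + ε) := one_le_rpow hNr1 (by linarith)
  have hN0' : (0 : ℝ) ≤ N0 := Nat.cast_nonneg _
  rcases lt_or_ge N N0 with hsmall | hlarge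
  · have e1 : ((Ioc (N / 2) N).filter (fun k : ℕ => Bd A (f.eval (k : ℤ)).toNat)).card ≤ N := by
      refine (card_filter_le _ _).trans ?_
      rw [Nat.card_Ioc]; omega
    have e2 : (((Ioc (N / 2) N).filter (fun k : ℕ => Bd A (f.eval (k : ℤ)).toNat)).card : ℝ) ≤ N0 := by
      exact_mod_cast e1.trans hsmall.le
    have e3 : 0 ≤ (2 * K1 + K2 * (2 ^ (d + 1) + B) + 2 * K3) * B := by positivity
    calc (((Ioc (N / 2) N).filter (fun k : ℕ => Bd A (f.eval (k : ℤ)).toNat)).card : ℝ) ≤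
        (N0 + (2 * K1 + K2 * (2 ^ (d + 1) + B) + 2 * K3) * B) * 1 := by linarith
      _ ≤ _ := mul_le_mul_of_nonneg_left hpow1 (by positivity)
  have hNX0 : x0 ≤ (N : ℝ) := hX0.trans (by exact_mod_cast (by omega : X0 ≤ N))
  have c0 := hx0 N hNX0
  have c1 : 2 ≤ log (N : ℝ) := ((le_max_left _ _).trans (le_max_left _ _)).trans c0
  have c2 : (B0 : ℝ) ≤ log (N : ℝ) := ((le_max_right _ _).trans (le_max_left _ _)).trans c0
  have c3 : Λ ≤ log (N : ℝ) := (le_max_right _ _).trans c0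
  obtain ⟨x, hx⟩ : ∃ x : ℕ, x = N / 2 := ⟨_, rfl⟩
  obtain ⟨H, hH⟩ : ∃ H : ℕ, H = N - N / 2 := ⟨_, rfl⟩
  have hxH : Ioc (N / 2) N = Ioc x (x + H) := by
    rw [hx, hH]
    congr 1
    omega
  rw [hxH]
  obtain ⟨X, hX⟩ : ∃ X : ℕ, X = B * N ^ d := ⟨_, rfl⟩
  have hXr : (X : ℝ) = B * (N : ℝ) ^ d := by rw [hX]; push_cast; rfl
  have hN2' : 2 ≤ N := by omega
  have hNX : N + 1 ≤ X := num8 hd hB1 hN2' hX
  have hHN : H ≤ N := by omega
  have hHX : H + 1 ≤ X := by omega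
  have hX1 : 1 ≤ X := by omega
  have hX1r : (1 : ℝ) ≤ X := by exact_mod_cast hX1
  have hX0r : (0 : ℝ) < X := by linarith
  obtain ⟨P', hP'⟩ : ∃ P' : ℝ, P' = (N : ℝ) ^ ρ := ⟨_, rfl⟩
  have hP1 : 1 ≤ P' := by rw [hP']; exact one_le_rpow hNr1 hρ0
  have hPN : P' ≤ N := by
    rw [hP']
    calc (N : ℝ) ^ ρ ≤ (N : ℝ) ^ (1 : ℝ) := rpow_le_rpow_of_exponent_le hNr1 hρ1
      _ = N := rpow_one _
  have hNXr : (N : ℝ) ≤ X := by exact_mod_cast (by omega : N ≤ X)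
  obtain ⟨P₀, hP₀⟩ : ∃ P₀ : ℕ, P₀ = ⌊P'⌋₊ := ⟨_, rfl⟩
  obtain ⟨M₀, hM₀⟩ : ∃ M₀ : ℕ, M₀ = ⌊(X : ℝ) / P'⌋₊ := ⟨_, rfl⟩
  have hPP : (P₀ : ℝ) ≤ P' := by rw [hP₀]; exact Nat.floor_le (by linarith)
  have hPX : P₀ ≤ X := by
    have : (P₀ : ℝ) ≤ X := by linarith
    exact_mod_cast this
  have hM1 : 1 ≤ M₀ := by
    rw [hM₀]
    apply Nat.le_floor
    rw [Nat.cast_one, one_le_div (by linarith)]
    linarith
  have hMX : M₀ ≤ X := by
    rw [hM₀]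
    apply Nat.floor_le_of_le
    exact div_le_self (Nat.cast_nonneg _) hP1
  obtain ⟨Y, hY⟩ : ∃ Y : ℝ, Y = (N : ℝ) ^ d / 2 ^ (d + 1) := ⟨_, rfl⟩
  have hY0 : 0 < Y := by rw [hY]; positivity
  obtain ⟨M₁, hM₁⟩ : ∃ M₁ : ℝ, M₁ = Y ^ ((1 - β) / (2 - β)) := ⟨_, rfl⟩
  have hM₁0 : 0 < M₁ := by rw [hM₁]; positivity
  have hlogX : log (X : ℝ) = log B + d * log N := by
    rw [hXr, log_mul hBr0.ne' (by positivity), log_pow]
  have hlogY : log Y = d * log N - (d + 1) * log 2 := by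
    rw [hY, log_div (by positivity) (by positivity), log_pow, log_pow]
    push_cast
    ring
  have hthX : th A * log (X : ℝ) ≤ log Y := by
    rw [hΛ, div_le_iff₀ (mul_pos (by linarith) (by linarith))] at c3
    rw [hlogX, hlogY]
    exact num3 hth1 hlogB c3
  have hlogNX : log (N : ℝ) ≤ log X := log_le_log hNr0 hNXr
  have hlX : log (X : ℝ) ≤ (log (X : ℝ)) ^ A := by
    have e1 : (log (X : ℝ)) ^ (1 : ℝ) ≤ (log (X : ℝ)) ^ A :=
      rpow_le_rpow_of_exponent_le (by linarith) (by linarith)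
    rwa [rpow_one] at e1
  -- the covering
  have hcov : (Ioc x (x + H)).filter (fun k : ℕ => Bd A (f.eval (k : ℤ)).toNat) ⊆
      (Ioc x (x + H)).filter (fun k : ℕ => ∃ m : ℕ, m ∈ Dq A X ∧
        f.eval (k : ℤ) = ((1 * m : ℕ) : ℤ)) ∪
      ((((Dq A X).filter (fun m : ℕ => M₁ ≤ m ∧ m ≤ M₀ ∧
      ∀ p : ℕ, p.Prime → p ∣ m → ¬ p ∣ B0)).biUnion
      (fun m => (Ioc x (x + H)).filter (fun k : ℕ => (m : ℤ) ∣ f.eval (k : ℤ)))) ∪
      (((Icc 1 P₀).filter (fun p : ℕ => p.Prime ∧ ¬ p ∣ B0)).biUnion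
      (fun p => (Ioc x (x + H)).filter (fun k : ℕ => ∃ m : ℕ, m ∈ Dq A X ∧
        f.eval (k : ℤ) = ((p * m : ℕ) : ℤ))))) := by
    intro k hk
    rw [mem_filter] at hk
    obtain ⟨hk, hb⟩ := hk
    obtain ⟨n, hn⟩ : ∃ n : ℕ, n = (f.eval (k : ℤ)).toNat := ⟨_, rfl⟩
    rw [← hn] at hb
    have hkn : f.eval (k : ℤ) = (n : ℤ) := by
      have := hb.1
      omega
    have hk' := mem_Ioc.1 hk
    have hkN : k ≤ N := by omega
    have hk2 : N ≤ 2 * k := by omega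
    have hk2B : 2 * B ≤ k := by omega
    have hu := hBu k (by omega)
    have hl := hBl k hk2B
    rw [hkn] at hu hl
    have hu' : n ≤ B * k ^ d := by exact_mod_cast hu
    have hl' : k ^ d ≤ 2 * n := by exact_mod_cast hl
    have hnX : n ≤ X := by
      rw [hX]
      exact hu'.trans (Nat.mul_le_mul_left _ (Nat.pow_le_pow_left hkN d))
    have hk22 : 2 ≤ k := by omega
    have hkd : k ≤ n := num6 (N := N) hd hk22 hl'
    have hNn : max N1 N2 ≤ n := by omega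
    have hn3 : 3 ≤ n := hN23.trans ((le_max_right _ _).trans hNn)
    have hnr0 : (0 : ℝ) < n := by exact_mod_cast (by omega : 0 < n)
    have hYn : Y ≤ n := num7 hk2 hl' hY
    have hlogn : log Y ≤ log n := log_le_log hY0 hYn
    have hlog : (log (X : ℝ)) ^ A ≤ 2 * (log n) ^ A := by
      have e1 := rpow_le_rpow (mul_nonneg hth.le (by linarith) : 0 ≤ th A * log (X : ℝ))
        (hthX.trans hlogn) hA0.le
      rw [mul_rpow hth.le (by linarith), th_rpow hA0] at e1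
      linarith
    rw [hM₀, hP₀]
    apply poly_cover (β := β) hk hkn hnX hb hlog (by linarith)
      (hN1 n ((le_max_left _ _).trans hNn) (hb.bad hA hn3)) _ (by linarith) hβ0 (by linarith) _ _
    · intro q m hq hnm
      obtain ⟨g1, g2⟩ := hN2 n ((le_max_right _ _).trans hNn) hb q m hq hnm
      refine ⟨le_trans ?_ g1, g2⟩
      apply rpow_le_rpow_of_exponent_le (by exact_mod_cast hq.one_lt.le)
      rw [hβ]; linarith
    · intro p hp hpn hpB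
      have h4 := bd_prime_large hb hp hpn
      have h5 : (B0 : ℝ) < p := by linarith
      have h6 : B0 < p := by exact_mod_cast h5
      exact absurd (Nat.le_of_dvd hB0 hpB) (by omega)
    · rw [hM₁]
      apply rpow_le_rpow hY0.le hYn
      apply div_nonneg <;> linarith
  have hcard : (((Ioc x (x + H)).filter (fun k : ℕ => Bd A (f.eval (k : ℤ)).toNat)).card : ℝ) ≤
      (((Ioc x (x + H)).filter (fun k : ℕ => ∃ m : ℕ, m ∈ Dq A X ∧
        f.eval (k : ℤ) = ((1 * m : ℕ) : ℤ))).card : ℝ) +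
      (((((Dq A X).filter (fun m : ℕ => M₁ ≤ m ∧ m ≤ M₀ ∧
      ∀ p : ℕ, p.Prime → p ∣ m → ¬ p ∣ B0)).biUnion
      (fun m => (Ioc x (x + H)).filter (fun k : ℕ => (m : ℤ) ∣ f.eval (k : ℤ)))).card : ℝ) +
      ((((Icc 1 P₀).filter (fun p : ℕ => p.Prime ∧ ¬ p ∣ B0)).biUnion
      (fun p => (Ioc x (x + H)).filter (fun k : ℕ => ∃ m : ℕ, m ∈ Dq A X ∧
        f.eval (k : ℤ) = ((p * m : ℕ) : ℤ)))).card : ℝ)) :=
    card_cover hcov
  -- the three parts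
  have p1 : (((Ioc x (x + H)).filter (fun k : ℕ => ∃ m : ℕ, m ∈ Dq A X ∧
        f.eval (k : ℤ) = ((1 * m : ℕ) : ℤ))).card : ℝ) ≤
      K1 * (X : ℝ) ^ δ * ((H / 1 + 1 : ℕ) : ℝ) ^ s := by
    have e1 := case_poly A δ K1 f h1 hK1 x H X 1 0 hHX le_rfl hX1
      ((Ioc x (x + H)).filter (fun k : ℕ => ∃ m : ℕ, m ∈ Dq A X ∧
        f.eval (k : ℤ) = ((1 * m : ℕ) : ℤ))) (filter_subset _ _) (fun k _ => Nat.mod_one k)
        (fun k hk => (mem_filter.1 hk).2)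
    rwa [← hs] at e1
  have p2 := h2 x H X M₀ M₁ hX1 hM1 hMX hM₁0
  have p3 := h3 x H X P₀ hHX hPX
  -- the estimates
  have hHr : (H : ℝ) ≤ N := by exact_mod_cast hHN
  have hHr0 : (0 : ℝ) ≤ H := Nat.cast_nonneg _
  obtain ⟨Z, hZ⟩ : ∃ Z : ℝ, Z = (N : ℝ) ^ (θ + d * δ) := ⟨_, rfl⟩
  have hZ0 : 0 < Z := by rw [hZ]; positivity
  have hNZ : ∀ u : ℝ, u ≤ θ + d * δ → (N : ℝ) ^ u ≤ Z := by
    intro u hu
    rw [hZ]
    exact rpow_le_rpow_of_exponent_le hNr1 hu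
  have hdδ : 2 * δ ≤ d * δ := mul_le_mul_of_nonneg_right hdr hδ0.le
  have hX2 : (X : ℝ) ^ (2 * δ) ≤ B * (N : ℝ) ^ (2 * d * δ) := by
    rw [hXr, mul_rpow hBr0.le (by positivity)]
    apply mul_le_mul _ _ (by positivity) hBr0.le
    · calc (B : ℝ) ^ (2 * δ) ≤ (B : ℝ) ^ (1 : ℝ) :=
            rpow_le_rpow_of_exponent_le hBr1 (by linarith)
        _ = B := rpow_one _
    · rw [← rpow_natCast, ← rpow_mul hNr0.le]
      apply le_of_eq
      congr 1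
      ring
  have hX3 : (X : ℝ) ^ δ ≤ (X : ℝ) ^ (2 * δ) := rpow_le_rpow_of_exponent_le hX1r (by linarith)
  have q1 : ((H / 1 + 1 : ℕ) : ℝ) ^ s ≤ 2 * Z := by
    have e1 : ((H / 1 + 1 : ℕ) : ℝ) ≤ 2 * N := by
      rw [Nat.div_one]
      push_cast
      linarith
    have e2 : ((H / 1 + 1 : ℕ) : ℝ) ^ s ≤ (2 * (N : ℝ)) ^ s :=
      rpow_le_rpow (Nat.cast_nonneg _) e1 hs0.le
    rw [mul_rpow (by norm_num) hNr0.le] at e2
    have e3 : (2 : ℝ) ^ s ≤ 2 := by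
      calc (2 : ℝ) ^ s ≤ (2 : ℝ) ^ (1 : ℝ) :=
            rpow_le_rpow_of_exponent_le (by norm_num) hs1
        _ = 2 := rpow_one _
    exact e2.trans (mul_le_mul e3 (hNZ s (by linarith)) (by positivity) (by norm_num))
  have q2 : (H : ℝ) * M₁ ^ (-(1 - β)) ≤ 2 ^ (d + 1) * Z := by
    obtain ⟨γ, hγ⟩ : ∃ γ : ℝ, γ = (1 - β) / (2 - β) * (1 - β) := ⟨_, rfl⟩
    have hγ0 : 0 ≤ γ := by
      rw [hγ]
      apply mul_nonneg (div_nonneg _ _) <;> linarith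
    have hγ1 : γ ≤ 1 := by
      rw [hγ]
      apply mul_le_one₀ _ (by linarith) (by linarith)
      rw [div_le_one (by linarith)]
      linarith
    have hγ2 : (1 - β) / 2 ≤ d * γ := by rw [hγ]; exact num1 hβ0 hβ23 hdr
    have e1 : M₁ ^ (-(1 - β)) = 2 ^ (((d : ℝ) + 1) * γ) * (N : ℝ) ^ (-((d : ℝ) * γ)) :=
      num4 hNr0 hY rfl hγ hM₁
    have e2 : (2 : ℝ) ^ (((d : ℝ) + 1) * γ) ≤ 2 ^ (d + 1) := by
      calc (2 : ℝ) ^ (((d : ℝ) + 1) * γ) ≤ (2 : ℝ) ^ ((d : ℝ) + 1) := by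
            apply rpow_le_rpow_of_exponent_le (by norm_num)
            have := mul_le_mul_of_nonneg_left hγ1 (by positivity : (0 : ℝ) ≤ (d : ℝ) + 1)
            linarith
        _ = 2 ^ (d + 1) := by
            rw [← rpow_natCast]
            push_cast
            rfl
    have e3 : (N : ℝ) ^ (-((d : ℝ) * γ)) * N ≤ Z := by
      calc (N : ℝ) ^ (-((d : ℝ) * γ)) * N = (N : ℝ) ^ (-((d : ℝ) * γ)) * (N : ℝ) ^ (1 : ℝ) := by
            rw [rpow_one]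
        _ = (N : ℝ) ^ (-((d : ℝ) * γ) + 1) := by rw [← rpow_add hNr0]
        _ ≤ Z := by
            apply hNZ
            have : (1 + β) / 2 = s + δ := by rw [hβ, hs]; ring
            linarith
    rw [e1]
    calc (H : ℝ) * (2 ^ (((d : ℝ) + 1) * γ) * (N : ℝ) ^ (-((d : ℝ) * γ))) ≤
        N * (2 ^ (((d : ℝ) + 1) * γ) * (N : ℝ) ^ (-((d : ℝ) * γ))) :=
          mul_le_mul_of_nonneg_right hHr (by positivity)
      _ = 2 ^ (((d : ℝ) + 1) * γ) * ((N : ℝ) ^ (-((d : ℝ) * γ)) * N) := by ring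
      _ ≤ _ := mul_le_mul e2 e3 (by positivity) (by positivity)
  have q3 : (M₀ : ℝ) ^ (1 / A + δ) ≤ B * Z := by
    have e1 : (M₀ : ℝ) ≤ B * (N : ℝ) ^ ((d : ℝ) - ρ) := by
      rw [hM₀]
      refine (Nat.floor_le (by positivity)).trans (le_of_eq ?_)
      rw [hXr, hP', rpow_sub hNr0, rpow_natCast]
      ring
    have e2 : (M₀ : ℝ) ^ (1 / A + δ) ≤ (B * (N : ℝ) ^ ((d : ℝ) - ρ)) ^ (1 / A + δ) :=
      rpow_le_rpow (Nat.cast_nonneg _) e1 (by positivity)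
    rw [mul_rpow hBr0.le (by positivity), ← rpow_mul hNr0.le] at e2
    refine e2.trans (mul_le_mul ?_ ?_ (by positivity) hBr0.le)
    · calc (B : ℝ) ^ (1 / A + δ) ≤ (B : ℝ) ^ (1 : ℝ) :=
            rpow_le_rpow_of_exponent_le hBr1 (by linarith)
        _ = B := rpow_one _
    · apply hNZ
      exact num2 hdρ hρ0 hδ0.le
  have q4 : (H : ℝ) ^ s * (P₀ : ℝ) ^ (1 - s) + P₀ ≤ 2 * Z := by
    have e1 : (H : ℝ) ^ s ≤ (N : ℝ) ^ s := rpow_le_rpow hHr0 hHr hs0.le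
    have e2 : (P₀ : ℝ) ^ (1 - s) ≤ (N : ℝ) ^ (ρ * (1 - s)) := by
      rw [rpow_mul hNr0.le, ← hP']
      exact rpow_le_rpow (Nat.cast_nonneg _) hPP (by linarith)
    have e3 : (H : ℝ) ^ s * (P₀ : ℝ) ^ (1 - s) ≤ Z := by
      calc (H : ℝ) ^ s * (P₀ : ℝ) ^ (1 - s) ≤ (N : ℝ) ^ s * (N : ℝ) ^ (ρ * (1 - s)) :=
            mul_le_mul e1 e2 (by positivity) (by positivity)
        _ = (N : ℝ) ^ (s + ρ * (1 - s)) := by rw [← rpow_add hNr0]
        _ ≤ Z := hNZ _ (by linarith)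
    have e4 : (P₀ : ℝ) ≤ Z := by
      refine hPP.trans ?_
      rw [hP']
      exact hNZ ρ (by linarith)
    linarith
  have r1 : K1 * (X : ℝ) ^ δ * ((H / 1 + 1 : ℕ) : ℝ) ^ s ≤ 2 * K1 * ((X : ℝ) ^ (2 * δ) * Z) := by
    calc K1 * (X : ℝ) ^ δ * ((H / 1 + 1 : ℕ) : ℝ) ^ s ≤ K1 * (X : ℝ) ^ (2 * δ) * (2 * Z) :=
          mul_le_mul (mul_le_mul_of_nonneg_left hX3 hK1.le) q1 (by positivity) (by positivity)
      _ = _ := by ring
  have r2 : K2 * (X : ℝ) ^ δ * (H * M₁ ^ (-(1 - β)) + (M₀ : ℝ) ^ (1 / A + δ)) ≤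
      K2 * (2 ^ (d + 1) + B) * ((X : ℝ) ^ (2 * δ) * Z) := by
    calc K2 * (X : ℝ) ^ δ * (H * M₁ ^ (-(1 - β)) + (M₀ : ℝ) ^ (1 / A + δ)) ≤
        K2 * (X : ℝ) ^ (2 * δ) * (2 ^ (d + 1) * Z + B * Z) :=
          mul_le_mul (mul_le_mul_of_nonneg_left hX3 hK2.le) (add_le_add q2 q3) (by positivity)
            (by positivity)
      _ = _ := by ring
  have r3 : K3 * (X : ℝ) ^ (2 * δ) * ((H : ℝ) ^ s * (P₀ : ℝ) ^ (1 - s) + P₀) ≤
      2 * K3 * ((X : ℝ) ^ (2 * δ) * Z) := by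
    calc K3 * (X : ℝ) ^ (2 * δ) * ((H : ℝ) ^ s * (P₀ : ℝ) ^ (1 - s) + P₀) ≤
        K3 * (X : ℝ) ^ (2 * δ) * (2 * Z) := mul_le_mul_of_nonneg_left q4 (by positivity)
      _ = _ := by ring
  have r4 : (X : ℝ) ^ (2 * δ) * Z ≤ B * (N : ℝ) ^ (θ + ε) := by
    calc (X : ℝ) ^ (2 * δ) * Z ≤ (B * (N : ℝ) ^ (2 * d * δ)) * Z :=
          mul_le_mul_of_nonneg_right hX2 hZ0.le
      _ = B * (N : ℝ) ^ (2 * d * δ + (θ + d * δ)) := by rw [hZ, mul_assoc, ← rpow_add hNr0]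
      _ ≤ _ := by
          apply mul_le_mul_of_nonneg_left _ hBr0.le
          apply rpow_le_rpow_of_exponent_le hNr1
          linarith
  have r5 : (((Ioc x (x + H)).filter (fun k : ℕ => Bd A (f.eval (k : ℤ)).toNat)).card : ℝ) ≤
      (2 * K1 + K2 * (2 ^ (d + 1) + B) + 2 * K3) * ((X : ℝ) ^ (2 * δ) * Z) := by
    linarith
  have r6 : (2 * K1 + K2 * (2 ^ (d + 1) + B) + 2 * K3) * ((X : ℝ) ^ (2 * δ) * Z) ≤
      (2 * K1 + K2 * (2 ^ (d + 1) + B) + 2 * K3) * (B * (N : ℝ) ^ (θ + ε)) :=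
    mul_le_mul_of_nonneg_left r4 (by positivity)
  have r7 : 0 ≤ (N0 : ℝ) * (N : ℝ) ^ (θ + ε) := by positivity
  calc (((Ioc x (x + H)).filter (fun k : ℕ => Bd A (f.eval (k : ℤ)).toNat)).card : ℝ) ≤
      (2 * K1 + K2 * (2 ^ (d + 1) + B) + 2 * K3) * (B * (N : ℝ) ^ (θ + ε)) := r5.trans r6
    _ ≤ N0 * (N : ℝ) ^ (θ + ε) +
        (2 * K1 + K2 * (2 ^ (d + 1) + B) + 2 * K3) * (B * (N : ℝ) ^ (θ + ε)) := by linarith
    _ = _ := by ring

open Classical in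
/-- the values of a polynomial -/
theorem poly_count (A ε : ℝ) (hA : 2 ≤ A) (hε : 0 < ε) (f : Polynomial ℤ)
    (hf : Squarefree (f.map (Int.castRingHom ℚ))) (hd : 2 ≤ f.natDegree)
    (hlc : 0 < f.leadingCoeff) (hdA : (f.natDegree : ℝ) < A + 1) :
    ∃ K : ℝ, 0 < K ∧ ∀ N : ℕ,
    (((Icc 1 N).filter (fun k : ℕ => Bd A (f.eval (k : ℤ)).toNat)).card : ℝ) ≤
      K * (N : ℝ) ^ (theta A f.natDegree + ε) := by
  obtain ⟨K, hK, h⟩ := poly_window A ε hA hε f hf hd hlc hdA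
  obtain ⟨η, hη⟩ : ∃ η : ℝ, η = theta A f.natDegree + ε := ⟨_, rfl⟩
  have hA0 : 0 < A := by linarith
  have ha0 : 0 < 1 / A := by positivity
  have ha2 : 1 / A ≤ 1 / 2 := by
    rw [div_le_div_iff₀ hA0 (by norm_num)]; linarith
  have hη1 : 1 / 2 ≤ η := by
    rw [hη]
    unfold theta
    have h1 : 0 ≤ rho A f.natDegree * (1 - (1 + 1 / A) / 2) :=
      mul_nonneg (le_max_left _ _) (by linarith)
    linarith
  rw [← hη] at h ⊢
  refine ⟨4 * K, by positivity, ?_⟩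
  intro N
  induction N using Nat.strong_induction_on with
  | _ N ih =>
  rcases Nat.eq_zero_or_pos N with rfl | hN
  · simp only [Nat.cast_zero]
    have : (Icc 1 0 : Finset ℕ) = ∅ := rfl
    rw [this, filter_empty, card_empty, Nat.cast_zero]
    positivity
  · have h1 := ih (N / 2) (by omega)
    have h2 := h N hN
    have h3 : ((Icc 1 N).filter (fun k : ℕ => Bd A (f.eval (k : ℤ)).toNat)).card ≤
        ((Icc 1 (N / 2)).filter (fun k : ℕ => Bd A (f.eval (k : ℤ)).toNat)).card +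
        ((Ioc (N / 2) N).filter (fun k : ℕ => Bd A (f.eval (k : ℤ)).toNat)).card := by
      refine le_trans (card_le_card ?_) (card_union_le _ _)
      intro k hk
      rw [mem_filter, mem_Icc] at hk
      rw [mem_union, mem_filter, mem_filter, mem_Icc, mem_Ioc]
      by_cases h4 : k ≤ N / 2
      · exact Or.inl ⟨⟨hk.1.1, h4⟩, hk.2⟩
      · exact Or.inr ⟨⟨by omega, hk.1.2⟩, hk.2⟩
    have h3' : (((Icc 1 N).filter (fun k : ℕ => Bd A (f.eval (k : ℤ)).toNat)).card : ℝ) ≤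
        (((Icc 1 (N / 2)).filter (fun k : ℕ => Bd A (f.eval (k : ℤ)).toNat)).card : ℝ) +
        (((Ioc (N / 2) N).filter (fun k : ℕ => Bd A (f.eval (k : ℤ)).toNat)).card : ℝ) := by
      exact_mod_cast h3
    have hN0 : (0 : ℝ) < N := by exact_mod_cast hN
    have h4 : ((N / 2 : ℕ) : ℝ) ^ η ≤ 3 / 4 * (N : ℝ) ^ η := by
      have h5 : ((N / 2 : ℕ) : ℝ) ≤ (N : ℝ) / 2 := Nat.cast_div_le
      have h6 : ((N / 2 : ℕ) : ℝ) ^ η ≤ ((N : ℝ) / 2) ^ η :=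
        rpow_le_rpow (Nat.cast_nonneg _) h5 (by linarith)
      rw [div_rpow hN0.le (by norm_num)] at h6
      have h7 : (4 : ℝ) / 3 ≤ (2 : ℝ) ^ η := by
        calc (4 : ℝ) / 3 ≤ Real.sqrt 2 := by
              apply Real.le_sqrt_of_sq_le
              norm_num
          _ = (2 : ℝ) ^ ((1 : ℝ) / 2) := Real.sqrt_eq_rpow 2
          _ ≤ (2 : ℝ) ^ η := rpow_le_rpow_of_exponent_le (by norm_num) hη1
      refine h6.trans ?_
      rw [div_le_iff₀ (by positivity)]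
      have h8 : 0 < (N : ℝ) ^ η := by positivity
      nlinarith
    have h5 : 4 * K * ((N / 2 : ℕ) : ℝ) ^ η ≤ 4 * K * (3 / 4 * (N : ℝ) ^ η) :=
      mul_le_mul_of_nonneg_left h4 (by positivity)
    linarith

end Pool.Agent.L0h69.SI
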