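import Pool.Agent.L0h69.SI.Roots
import Pool.Agent.W57.SW.Count

/-!
# Values of polynomials without a small witness: the parts of the count
-/

set_option autoImplicit false

namespace Pool.Agent.L0h69.SI

open Finset Real Pool.Agent.W57.SW Pool.Agent.L0h46.CV

open Classical in
lemma poly_two (A δ β : ℝ) (hA : 2 ≤ A) (hδ : 0 < δ) (hβ : 1 / A + δ < β) (hβ1 : β ≤ 1)
    (f : Polynomial ℤ) (B0 : ℕ)
    (hbad : ∀ p : ℕ, p.Prime → ¬ p ∣ B0 → Gd (f.natDegree + 1) f.coeff p) :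
    ∃ K : ℝ, 0 < K ∧ ∀ (x H X M₀ : ℕ) (M₁ : ℝ), 1 ≤ X → 1 ≤ M₀ → M₀ ≤ X → 0 < M₁ →
    ((((Dq A X).filter (fun m : ℕ => M₁ ≤ m ∧ m ≤ M₀ ∧
      ∀ p : ℕ, p.Prime → p ∣ m → ¬ p ∣ B0)).biUnion
      (fun m => (Ioc x (x + H)).filter (fun k : ℕ => (m : ℤ) ∣ f.eval (k : ℤ)))).card : ℝ) ≤
      K * (X : ℝ) ^ δ * (H * M₁ ^ (-(1 - β)) + (M₀ : ℝ) ^ (1 / A + δ)) := by
  have hA0 : 0 < A := by linarith
  have hA1 : 0 < 1 / A := by positivity
  obtain ⟨K, hK, hrank⟩ := Dq_rank A δ (by linarith) hδ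
  obtain ⟨C, hC, hom⟩ := pow_omega f.natDegree δ hδ
  obtain ⟨α, hα⟩ : ∃ α : ℝ, α = 1 / A + δ := ⟨_, rfl⟩
  rw [← hα] at hrank hβ ⊢
  have hα0 : 0 < α := by rw [hα]; positivity
  obtain ⟨R, hR⟩ : ∃ R : ℝ, R = K ^ (β / α) * ∑' k : ℕ, (k : ℝ) ^ (-(β / α)) := ⟨_, rfl⟩
  have hR0 : 0 ≤ R := by rw [hR]; positivity
  refine ⟨C * (R + K), by positivity, ?_⟩
  intro x H X M₀ M₁ hX1 hM1 hMX hM₁
  have hX0 : (0 : ℝ) < X := by exact_mod_cast hX1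
  have hH0 : (0 : ℝ) ≤ H := Nat.cast_nonneg _
  have hsum : ∑ m ∈ Dq A X, (m : ℝ) ^ (-β) ≤ R := by
    rw [hR]
    apply rank_sum (Dq A X) K α β hK hα0 hβ
    · intro q hq; exact (mem_Dq.mp hq).1.1
    · intro q hq
      exact hrank X q (mem_Dq.mp hq).1.1 (mem_Dq.mp hq).1.2
  refine (card_biUnion_real (ι := ℕ) _ _).trans ?_
  obtain ⟨F, hF⟩ : ∃ F : Finset ℕ, F = (Dq A X).filter (fun m : ℕ => M₁ ≤ m ∧ m ≤ M₀ ∧
      ∀ p : ℕ, p.Prime → p ∣ m → ¬ p ∣ B0) := ⟨_, rfl⟩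
  rw [← hF]
  have e2 : ∀ m ∈ F, (((Ioc x (x + H)).filter (fun k : ℕ => (m : ℤ) ∣ f.eval (k : ℤ))).card : ℝ) ≤
      C * (X : ℝ) ^ δ * (H * M₁ ^ (-(1 - β)) * (m : ℝ) ^ (-β) + 1) := by
    intro m hm
    rw [hF, mem_filter, mem_Dq] at hm
    obtain ⟨⟨⟨m1, m2⟩, _, m3, _⟩, hm1, hm2, hm3⟩ := hm
    have hm0 : (0 : ℝ) < m := by exact_mod_cast m1
    have h1 := count_div f m m3 (fun p hp hpm => hbad p hp (hm3 p hp hpm)) x H
      ((Ioc x (x + H)).filter (fun k : ℕ => (m : ℤ) ∣ f.eval (k : ℤ))) (filter_subset _ _)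
      (fun k hk => (mem_filter.1 hk).2)
    refine h1.trans ?_
    have d1 : (f.natDegree : ℝ) ^ m.primeFactors.card ≤ C * (X : ℝ) ^ δ := by
      calc (f.natDegree : ℝ) ^ m.primeFactors.card ≤
          ((f.natDegree : ℝ) + 1) ^ m.primeFactors.card :=
            pow_le_pow_left₀ (by positivity) (by linarith) _
        _ ≤ C * (m : ℝ) ^ δ := hom m m1
        _ ≤ C * (X : ℝ) ^ δ := by
            apply mul_le_mul_of_nonneg_left _ hC.le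
            exact rpow_le_rpow hm0.le (by exact_mod_cast m2) hδ.le
    have d2 : (H : ℝ) / m ≤ H * M₁ ^ (-(1 - β)) * (m : ℝ) ^ (-β) := by
      have d3 : (m : ℝ) ^ (-(1 - β)) ≤ M₁ ^ (-(1 - β)) :=
        rpow_le_rpow_of_nonpos hM₁ hm1 (by linarith)
      have d4 : (1 : ℝ) / m = (m : ℝ) ^ (-(1 - β)) * (m : ℝ) ^ (-β) := by
        rw [← rpow_add hm0]
        have : -(1 - β) + -β = -1 := by ring
        rw [this, rpow_neg hm0.le, rpow_one, one_div]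
      calc (H : ℝ) / m = H * (1 / m) := by ring
        _ = H * ((m : ℝ) ^ (-(1 - β)) * (m : ℝ) ^ (-β)) := by rw [d4]
        _ ≤ H * (M₁ ^ (-(1 - β)) * (m : ℝ) ^ (-β)) := by
            apply mul_le_mul_of_nonneg_left _ hH0
            exact mul_le_mul_of_nonneg_right d3 (by positivity)
        _ = _ := by ring
    exact mul_le_mul d1 (by linarith) (by positivity) (by positivity)
  refine (sum_le_sum e2).trans ?_
  rw [← mul_sum, sum_add_distrib, ← mul_sum, sum_const, nsmul_eq_mul, mul_one]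
  have e3 : ∑ m ∈ F, (m : ℝ) ^ (-β) ≤ R := by
    refine le_trans ?_ hsum
    rw [hF]
    apply sum_le_sum_of_subset_of_nonneg (filter_subset _ _)
    intro m _ _; positivity
  have e4 : (F.card : ℝ) ≤ K * (M₀ : ℝ) ^ α := by
    refine le_trans ?_ (hrank X M₀ hM1 hMX)
    have : F.card ≤ ((Dq A X).filter (fun m => m ≤ M₀)).card := by
      apply card_le_card
      intro m hm
      rw [hF, mem_filter] at hm
      rw [mem_filter]
      exact ⟨hm.1, hm.2.2.1⟩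
    exact_mod_cast this
  have e5 : (H : ℝ) * M₁ ^ (-(1 - β)) * ∑ m ∈ F, (m : ℝ) ^ (-β) + (F.card : ℝ) ≤
      (R + K) * (H * M₁ ^ (-(1 - β)) + (M₀ : ℝ) ^ α) := by
    have f1 : (H : ℝ) * M₁ ^ (-(1 - β)) * ∑ m ∈ F, (m : ℝ) ^ (-β) ≤ H * M₁ ^ (-(1 - β)) * R :=
      mul_le_mul_of_nonneg_left e3 (by positivity)
    have f2 : 0 ≤ K * (H * M₁ ^ (-(1 - β))) := by positivity
    have f3 : 0 ≤ R * (M₀ : ℝ) ^ α := by positivity
    nlinarith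
  calc C * (X : ℝ) ^ δ * ((H : ℝ) * M₁ ^ (-(1 - β)) * ∑ m ∈ F, (m : ℝ) ^ (-β) + (F.card : ℝ)) ≤
      C * (X : ℝ) ^ δ * ((R + K) * (H * M₁ ^ (-(1 - β)) + (M₀ : ℝ) ^ α)) :=
        mul_le_mul_of_nonneg_left e5 (by positivity)
    _ = _ := by ring

open Classical in
lemma poly_three (A δ : ℝ) (hA : 2 ≤ A) (hδ : 0 < δ)
    (f : Polynomial ℤ) (hf : Squarefree (f.map (Int.castRingHom ℚ))) (hd : 2 ≤ f.natDegree) (B0 : ℕ)
    (hbad : ∀ p : ℕ, p.Prime → ¬ p ∣ B0 → Gd (f.natDegree + 1) f.coeff p) :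
    ∃ K : ℝ, 0 < K ∧ ∀ x H X P₀ : ℕ, H + 1 ≤ X → P₀ ≤ X →
    ((((Icc 1 P₀).filter (fun p : ℕ => p.Prime ∧ ¬ p ∣ B0)).biUnion
      (fun p => (Ioc x (x + H)).filter (fun k : ℕ => ∃ m : ℕ, m ∈ Dq A X ∧
        f.eval (k : ℤ) = ((p * m : ℕ) : ℤ)))).card : ℝ) ≤
      K * (X : ℝ) ^ (2 * δ) * ((H : ℝ) ^ ((1 + 1 / A) / 2) *
        (P₀ : ℝ) ^ (1 - (1 + 1 / A) / 2) + P₀) := by
  have hA0 : 0 < A := by linarith
  have hA1 : 0 < 1 / A := by positivity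
  have hA2 : 1 / A ≤ 1 / 2 := by
    rw [div_le_div_iff₀ hA0 (by norm_num)]; linarith
  obtain ⟨K, hK, hsieve⟩ := poly_sieve A δ (by linarith) hδ f hf hd
  obtain ⟨s, hs⟩ : ∃ s : ℝ, s = (1 + 1 / A) / 2 := ⟨_, rfl⟩
  have hs0 : 0 < s := by rw [hs]; positivity
  have hs1 : s ≤ 1 := by rw [hs]; linarith
  obtain ⟨R, hR⟩ : ∃ R : ℝ, R = ∑' k : ℕ, (k : ℝ) ^ (-(1 + δ)) := ⟨_, rfl⟩
  have hsummable : Summable fun k : ℕ => (k : ℝ) ^ (-(1 + δ)) :=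
    Real.summable_nat_rpow.mpr (by linarith)
  have hR0 : 0 ≤ R := by rw [hR]; positivity
  have hd0 : (0 : ℝ) < f.natDegree := by exact_mod_cast (by omega : 0 < f.natDegree)
  refine ⟨f.natDegree * K * (R + 1), by positivity, ?_⟩
  intro x H X P₀ hHX hPX
  rw [← hs]
  have hX1 : 1 ≤ X := by omega
  have hX1' : (1 : ℝ) ≤ X := by exact_mod_cast hX1
  have hX0 : (0 : ℝ) < X := by linarith
  have hH0 : (0 : ℝ) ≤ H := Nat.cast_nonneg _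
  have hP0 : (0 : ℝ) ≤ P₀ := Nat.cast_nonneg _
  refine (card_biUnion_real (ι := ℕ) _ _).trans ?_
  have e2 : ∀ p ∈ (Icc 1 P₀).filter (fun p : ℕ => p.Prime ∧ ¬ p ∣ B0),
      (((Ioc x (x + H)).filter (fun k : ℕ => ∃ m : ℕ, m ∈ Dq A X ∧
        f.eval (k : ℤ) = ((p * m : ℕ) : ℤ))).card : ℝ) ≤
      f.natDegree * (K * (X : ℝ) ^ δ * ((H : ℝ) ^ s * (P₀ : ℝ) ^ (1 - s) * (X : ℝ) ^ δ *
        (p : ℝ) ^ (-(1 + δ)) + 1)) := by
    intro p hp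
    rw [mem_filter, mem_Icc] at hp
    obtain ⟨⟨hp1, hp2⟩, hpp, hpB⟩ := hp
    have hp0 : (0 : ℝ) < p := by exact_mod_cast hp1
    have hpP : (p : ℝ) ≤ P₀ := by exact_mod_cast hp2
    have hpX : (p : ℝ) ≤ X := by exact_mod_cast hp2.trans hPX
    obtain ⟨D, hD⟩ : ∃ D : Finset ℕ, D = (Ioc x (x + H)).filter (fun k : ℕ => ∃ m : ℕ, m ∈ Dq A X ∧
        f.eval (k : ℤ) = ((p * m : ℕ) : ℤ)) := ⟨_, rfl⟩
    rw [← hD]
    obtain ⟨R', hR'⟩ : ∃ R : Finset ℕ,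
        R = (range p).filter (fun c : ℕ => (p : ℤ) ∣ f.eval (c : ℤ)) := ⟨_, rfl⟩
    have h1 : D.card = ∑ r ∈ R', (D.filter (fun k => k % p = r)).card :=
      card_eq_sum_card_fiberwise fun k hk => by
        rw [mem_coe, hD, mem_filter] at hk
        obtain ⟨-, m, -, hm⟩ := hk
        rw [mem_coe, hR', mem_filter, mem_range, dvd_eval_mod, hm]
        refine ⟨Nat.mod_lt _ hp1, ?_⟩
        push_cast
        exact dvd_mul_right _ _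
    have h2 : ∀ r ∈ R', ((D.filter (fun k => k % p = r)).card : ℝ) ≤
        K * (X : ℝ) ^ δ * ((H : ℝ) ^ s * (P₀ : ℝ) ^ (1 - s) * (X : ℝ) ^ δ *
        (p : ℝ) ^ (-(1 + δ)) + 1) := by
      intro r _
      have h3 := case_poly A δ K f hsieve hK x H X p r hHX hp1 (hp2.trans hPX)
        (D.filter (fun k => k % p = r))
        ((filter_subset _ _).trans (by rw [hD]; exact filter_subset _ _))
        (fun k hk => (mem_filter.1 hk).2)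
        (fun k hk => by
          have h4 := (mem_filter.1 hk).1
          rw [hD, mem_filter] at h4
          exact h4.2)
      rw [← hs] at h3
      refine h3.trans ?_
      apply mul_le_mul_of_nonneg_left _ (by positivity)
      have h4 : ((H / p + 1 : ℕ) : ℝ) ≤ (H : ℝ) * (p : ℝ) ^ (-(1 : ℝ)) + 1 := by
        push_cast
        have h5 : ((H / p : ℕ) : ℝ) ≤ (H : ℝ) / p := Nat.cast_div_le
        rw [rpow_neg hp0.le, rpow_one, ← div_eq_mul_inv]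
        linarith
      have h5 : ((H / p + 1 : ℕ) : ℝ) ^ s ≤ ((H : ℝ) * (p : ℝ) ^ (-(1 : ℝ))) ^ s + 1 ^ s :=
        (rpow_le_rpow (Nat.cast_nonneg _) h4 hs0.le).trans
          (rpow_add_le_add_rpow (by positivity) zero_le_one hs0.le hs1)
      rw [one_rpow, mul_rpow hH0 (by positivity), ← rpow_mul hp0.le] at h5
      refine h5.trans ?_
      have h6 : (p : ℝ) ^ (-(1 : ℝ) * s) ≤ (P₀ : ℝ) ^ (1 - s) * (X : ℝ) ^ δ *
          (p : ℝ) ^ (-(1 + δ)) := by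
        have h7 : (p : ℝ) ^ (-(1 : ℝ) * s) = (p : ℝ) ^ (1 - s) * (p : ℝ) ^ δ *
            (p : ℝ) ^ (-(1 + δ)) := by
          rw [← rpow_add hp0, ← rpow_add hp0]
          congr 1
          ring
        rw [h7]
        apply mul_le_mul_of_nonneg_right _ (by positivity)
        exact mul_le_mul (rpow_le_rpow hp0.le hpP (by linarith))
          (rpow_le_rpow hp0.le hpX hδ.le) (by positivity) (by positivity)
      have h8 : (H : ℝ) ^ s * (p : ℝ) ^ (-(1 : ℝ) * s) ≤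
          (H : ℝ) ^ s * ((P₀ : ℝ) ^ (1 - s) * (X : ℝ) ^ δ * (p : ℝ) ^ (-(1 + δ))) :=
        mul_le_mul_of_nonneg_left h6 (by positivity)
      linarith
    rw [h1]
    push_cast
    refine (sum_le_sum h2).trans ?_
    rw [sum_const, nsmul_eq_mul]
    apply mul_le_mul_of_nonneg_right _ (by positivity)
    have h3 := roots_prime f p (hbad p hpp hpB)
    rw [← hR'] at h3
    exact_mod_cast h3
  refine (sum_le_sum e2).trans ?_
  rw [← mul_sum, ← mul_sum, sum_add_distrib, ← mul_sum, sum_const, nsmul_eq_mul, mul_one]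
  obtain ⟨F, hF⟩ : ∃ F : Finset ℕ, F = (Icc 1 P₀).filter (fun p : ℕ => p.Prime ∧ ¬ p ∣ B0) :=
    ⟨_, rfl⟩
  rw [← hF]
  have e3 : ∑ p ∈ F, (p : ℝ) ^ (-(1 + δ)) ≤ R := by
    rw [hR]
    exact hsummable.sum_le_tsum _ fun k _ => by positivity
  have e3' : (F.card : ℝ) ≤ P₀ := by
    have : F.card ≤ P₀ := by
      rw [hF]
      refine (card_filter_le _ _).trans ?_
      rw [Nat.card_Icc, Nat.add_sub_cancel]
    exact_mod_cast this
  have hXδ : 1 ≤ (X : ℝ) ^ δ := one_le_rpow hX1' hδ.le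
  have e4 : (H : ℝ) ^ s * (P₀ : ℝ) ^ (1 - s) * (X : ℝ) ^ δ * ∑ p ∈ F, (p : ℝ) ^ (-(1 + δ)) +
      (F.card : ℝ) ≤ (R + 1) * (X : ℝ) ^ δ * ((H : ℝ) ^ s * (P₀ : ℝ) ^ (1 - s) + P₀) := by
    have f1 : (H : ℝ) ^ s * (P₀ : ℝ) ^ (1 - s) * (X : ℝ) ^ δ * ∑ p ∈ F, (p : ℝ) ^ (-(1 + δ)) ≤
        (H : ℝ) ^ s * (P₀ : ℝ) ^ (1 - s) * (X : ℝ) ^ δ * R :=
      mul_le_mul_of_nonneg_left e3 (by positivity)
    have f2 : (P₀ : ℝ) ≤ (X : ℝ) ^ δ * P₀ := by nlinarith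
    have f3 : 0 ≤ R * (X : ℝ) ^ δ * P₀ := by positivity
    have f4 : 0 ≤ (X : ℝ) ^ δ * ((H : ℝ) ^ s * (P₀ : ℝ) ^ (1 - s)) := by positivity
    nlinarith
  have e5 : (X : ℝ) ^ (2 * δ) = (X : ℝ) ^ δ * (X : ℝ) ^ δ := by
    rw [← rpow_add hX0]; congr 1; ring
  rw [e5]
  calc f.natDegree * (K * (X : ℝ) ^ δ * ((H : ℝ) ^ s * (P₀ : ℝ) ^ (1 - s) * (X : ℝ) ^ δ *
        ∑ p ∈ F, (p : ℝ) ^ (-(1 + δ)) + (F.card : ℝ))) ≤
      f.natDegree * (K * (X : ℝ) ^ δ * ((R + 1) * (X : ℝ) ^ δ *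
        ((H : ℝ) ^ s * (P₀ : ℝ) ^ (1 - s) + P₀))) := by
        apply mul_le_mul_of_nonneg_left _ (by positivity)
        exact mul_le_mul_of_nonneg_left e4 (by positivity)
    _ = _ := by ring

end Pool.Agent.L0h69.SI
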