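import Pool.Agent.L0h69.SI.Poly
import Pool.Agent.L0h69.SI.Main

/-!
# Values of polynomials: roots modulo squarefree numbers, size
-/

set_option autoImplicit false

namespace Pool.Agent.L0h69.SI

open Finset Real Pool.Agent.W57.SW Pool.Agent.L0h46.CV

lemma fp_eq (f : Polynomial ℤ) : fp (f.natDegree + 1) f.coeff = f := by
  unfold fp
  conv_rhs => rw [f.as_sum_range_C_mul_X_pow' (n := f.natDegree + 1 + 1) (by omega)]

lemma roots_prime (f : Polynomial ℤ) (p : ℕ) (h : Gd (f.natDegree + 1) f.coeff p) :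
    ((range p).filter (fun c : ℕ => (p : ℤ) ∣ f.eval (c : ℤ))).card ≤ f.natDegree := by
  classical
  obtain ⟨hp, hsq, -⟩ := h
  have : Fact p.Prime := ⟨hp⟩
  rw [fp_eq] at hsq
  have h0 : fq f p ≠ 0 := hsq.ne_zero
  have h1 : ((range p).filter (fun c : ℕ => (p : ℤ) ∣ f.eval (c : ℤ))).card ≤
      (fq f p).roots.toFinset.card := by
    apply card_le_card_of_injOn (fun c : ℕ => (c : ZMod p))
    · intro c hc
      rw [mem_coe, mem_filter] at hc
      rw [mem_coe, Multiset.mem_toFinset, Polynomial.mem_roots h0, Polynomial.IsRoot.def]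
      have h2 : (fq f p).eval (((c : ℤ)) : ZMod p) = ((f.eval (c : ℤ) : ℤ) : ZMod p) :=
        Polynomial.eval_intCast_map (Int.castRingHom (ZMod p)) f _
      rw [Int.cast_natCast] at h2
      show (fq f p).eval (c : ZMod p) = 0
      rw [h2, ZMod.intCast_zmod_eq_zero_iff_dvd]
      exact hc.2
    · intro c hc c' hc' h
      rw [mem_coe, mem_filter, mem_range] at hc hc'
      simp only at h
      rw [ZMod.natCast_eq_natCast_iff', Nat.mod_eq_of_lt hc.1, Nat.mod_eq_of_lt hc'.1] at h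
      exact h
  refine h1.trans ((Multiset.toFinset_card_le _).trans ?_)
  exact (Polynomial.card_roots' _).trans Polynomial.natDegree_map_le

lemma dvd_eval_mod (f : Polynomial ℤ) (m k : ℕ) :
    (m : ℤ) ∣ f.eval ((k % m : ℕ) : ℤ) ↔ (m : ℤ) ∣ f.eval (k : ℤ) := by
  have h1 : (((k % m : ℕ) : ℤ)) - (k : ℤ) ∣ f.eval ((k % m : ℕ) : ℤ) - f.eval (k : ℤ) :=
    Polynomial.sub_dvd_eval_sub _ _ _
  have h2 : (m : ℤ) ∣ (((k % m : ℕ) : ℤ)) - (k : ℤ) := by
    have h3 : (((k % m : ℕ) : ℤ)) - (k : ℤ) = -((m : ℤ) * ((k / m : ℕ) : ℤ)) := by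
      have := Nat.mod_add_div k m
      have h4 : (((k % m : ℕ) : ℤ)) + (m : ℤ) * ((k / m : ℕ) : ℤ) = (k : ℤ) := by exact_mod_cast this
      linarith
    rw [h3]
    exact (dvd_mul_right _ _).neg_right
  exact dvd_iff_dvd_of_dvd_sub (h2.trans h1)

lemma roots_sqf (f : Polynomial ℤ) (m : ℕ) (hm : Squarefree m)
    (h : ∀ p : ℕ, p.Prime → p ∣ m → Gd (f.natDegree + 1) f.coeff p) :
    ((range m).filter (fun c : ℕ => (m : ℤ) ∣ f.eval (c : ℤ))).card ≤
      f.natDegree ^ m.primeFactors.card := by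
  classical
  have hm0 : m ≠ 0 := hm.ne_zero
  have h1 : ((range m).filter (fun c : ℕ => (m : ℤ) ∣ f.eval (c : ℤ))).card ≤
      (m.primeFactors.pi (fun p => (range p).filter
        (fun c : ℕ => (p : ℤ) ∣ f.eval (c : ℤ)))).card := by
    apply card_le_card_of_injOn (fun (c : ℕ) (p : ℕ) (_ : p ∈ m.primeFactors) => c % p)
    · intro c hc
      rw [mem_coe, mem_filter] at hc
      rw [mem_coe, mem_pi]
      intro p hp
      have hp' := Nat.mem_primeFactors.1 hp
      rw [mem_filter, mem_range, dvd_eval_mod]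
      refine ⟨Nat.mod_lt _ hp'.1.pos, ?_⟩
      exact (Int.natCast_dvd_natCast.2 hp'.2.1).trans hc.2
    · intro c hc c' hc' hcc
      rw [mem_coe, mem_filter, mem_range] at hc hc'
      have h2 : ∀ p ∈ m.primeFactors, c % p = c' % p := by
        intro p hp
        exact congrFun (congrFun hcc p) hp
      have h3 : c ≡ c' [MOD m] := by
        rw [← Nat.prod_primeFactors_of_squarefree hm]
        rw [Nat.modEq_iff_dvd]
        have h4 : ((∏ p ∈ m.primeFactors, p : ℕ) : ℤ) ∣ (c' : ℤ) - c := by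
          rw [Nat.cast_prod]
          apply Finset.prod_dvd_of_coprime
          · intro p hp q hq hpq
            have hp' := Nat.prime_of_mem_primeFactors hp
            have hq' := Nat.prime_of_mem_primeFactors hq
            exact Nat.isCoprime_iff_coprime.2 ((Nat.coprime_primes hp' hq').2 hpq)
          · intro p hp
            exact (Nat.modEq_iff_dvd).1 (h2 p hp)
        exact h4
      exact Nat.ModEq.eq_of_lt_of_lt h3 hc.1 hc'.1
  refine h1.trans ?_
  rw [card_pi]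
  exact Finset.prod_le_pow_card _ _ _ fun p hp =>
    roots_prime f p (h p (Nat.prime_of_mem_primeFactors hp) (Nat.dvd_of_mem_primeFactors hp))

/-- the number of the `k` in an interval with `m ∣ f k` -/
lemma count_div (f : Polynomial ℤ) (m : ℕ) (hm : Squarefree m)
    (h : ∀ p : ℕ, p.Prime → p ∣ m → Gd (f.natDegree + 1) f.coeff p) (x H : ℕ) (D : Finset ℕ)
    (hD : D ⊆ Ioc x (x + H)) (hDm : ∀ k ∈ D, (m : ℤ) ∣ f.eval (k : ℤ)) :
    (D.card : ℝ) ≤ (f.natDegree : ℝ) ^ m.primeFactors.card * ((H : ℝ) / m + 1) := by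
  classical
  have hm0 : m ≠ 0 := hm.ne_zero
  obtain ⟨R, hR⟩ : ∃ R : Finset ℕ, R = (range m).filter (fun c : ℕ => (m : ℤ) ∣ f.eval (c : ℤ)) :=
    ⟨_, rfl⟩
  have h1 : D.card = ∑ r ∈ R, (D.filter (fun k => k % m = r)).card :=
    card_eq_sum_card_fiberwise fun k hk => by
      rw [mem_coe] at hk
      rw [mem_coe, hR, mem_filter, mem_range, dvd_eval_mod]
      exact ⟨Nat.mod_lt _ (Nat.pos_of_ne_zero hm0), hDm k hk⟩
  have h2 : ∀ r ∈ R, ((D.filter (fun k => k % m = r)).card : ℝ) ≤ (H : ℝ) / m + 1 := by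
    intro r _
    exact class_card x H m r (Nat.pos_of_ne_zero hm0) _ ((filter_subset _ _).trans hD)
      fun n hn => (mem_filter.1 hn).2
  rw [h1]
  push_cast
  refine (sum_le_sum h2).trans ?_
  rw [sum_const, nsmul_eq_mul]
  apply mul_le_mul_of_nonneg_right _ (by positivity)
  have h3 := roots_sqf f m hm h
  rw [← hR] at h3
  exact_mod_cast h3

/-- the sieve for one residue class modulo `p` in an interval -/
lemma case_poly (A δ K : ℝ) (f : Polynomial ℤ)
    (hK : ∀ x b e L : ℕ, 1 ≤ e → e ≤ x → 1 ≤ L → L ≤ x → ∀ T : Finset ℕ, T ⊆ range L →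
      (∀ j ∈ T, ∃ m : ℕ, m ∈ Dq A x ∧ f.eval ((b + e * j : ℕ) : ℤ) = ((e * m : ℕ) : ℤ)) →
      (T.card : ℝ) ≤ K * (x : ℝ) ^ δ * (L : ℝ) ^ ((1 + 1 / A) / 2)) (hK0 : 0 < K) (x H X p r : ℕ)
    (hHX : H + 1 ≤ X) (hp : 1 ≤ p) (hpX : p ≤ X) (D : Finset ℕ)
    (hD : D ⊆ Ioc x (x + H)) (hr : ∀ k ∈ D, k % p = r)
    (h : ∀ k ∈ D, ∃ m : ℕ, m ∈ Dq A X ∧ f.eval (k : ℤ) = ((p * m : ℕ) : ℤ)) :
    (D.card : ℝ) ≤ K * (X : ℝ) ^ δ * ((H / p + 1 : ℕ) : ℝ) ^ ((1 + 1 / A) / 2) := by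
  classical
  rcases D.eq_empty_or_nonempty with hD0 | hne
  · rw [hD0]
    simp only [card_empty, Nat.cast_zero]
    positivity
  obtain ⟨n0, hn0⟩ : ∃ n0, n0 = D.min' hne := ⟨_, rfl⟩
  have hn0D : n0 ∈ D := by rw [hn0]; exact D.min'_mem hne
  have hf : ∀ n ∈ D, ∃ j : ℕ, n = n0 + p * j ∧ j < H / p + 1 := by
    intro n hn
    have h1 : n0 ≤ n := by rw [hn0]; exact D.min'_le n hn
    have h2 : n0 ≡ n [MOD p] := (hr n0 hn0D).trans (hr n hn).symm
    obtain ⟨j, hj⟩ := (Nat.modEq_iff_dvd' h1).1 h2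
    refine ⟨j, by omega, ?_⟩
    rw [Nat.lt_succ_iff, Nat.le_div_iff_mul_le hp]
    have a1 := mem_Ioc.1 (hD hn)
    have a2 := mem_Ioc.1 (hD hn0D)
    have a3 : j * p = p * j := mul_comm _ _
    omega
  choose! g hg1 hg2 using hf
  have hinj : Set.InjOn g D := by
    intro n hn n' hn' hnn
    rw [hg1 n hn, hg1 n' hn', hnn]
  have h1 := hK X n0 p (H / p + 1) hp hpX (Nat.le_add_left 1 _)
    ((Nat.succ_le_succ (Nat.div_le_self _ _)).trans hHX) (D.image g)
    (by
      intro j hj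
      rw [mem_image] at hj
      obtain ⟨n, hn, rfl⟩ := hj
      exact mem_range.2 (hg2 n hn))
    (by
      intro j hj
      rw [mem_image] at hj
      obtain ⟨n, hn, rfl⟩ := hj
      rw [← hg1 n hn]
      exact h n hn)
  rwa [card_image_of_injOn hinj] at h1

/-- the size of the values -/
lemma eval_upper (f : Polynomial ℤ) : ∃ B : ℕ, 1 ≤ B ∧ (∀ k : ℕ, 1 ≤ k →
    f.eval (k : ℤ) ≤ B * (k : ℤ) ^ f.natDegree) ∧ (0 < f.leadingCoeff → 1 ≤ f.natDegree →
      ∀ k : ℕ, 2 * B ≤ k → (k : ℤ) ^ f.natDegree ≤ 2 * f.eval (k : ℤ)) := by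
  obtain ⟨B, hB⟩ : ∃ B : ℕ, B = ∑ i ∈ range (f.natDegree + 1), (f.coeff i).natAbs + 1 := ⟨_, rfl⟩
  have hB' : (B : ℤ) = ∑ i ∈ range (f.natDegree + 1), |f.coeff i| + 1 := by
    rw [hB]
    push_cast
    rfl
  refine ⟨B, by omega, ?_, ?_⟩
  · intro k hk
    have hk1 : (1 : ℤ) ≤ k := by exact_mod_cast hk
    rw [Polynomial.eval_eq_sum_range, hB', add_mul, sum_mul]
    have h1 : ∑ i ∈ range (f.natDegree + 1), f.coeff i * (k : ℤ) ^ i ≤
        ∑ i ∈ range (f.natDegree + 1), |f.coeff i| * (k : ℤ) ^ f.natDegree := by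
      apply sum_le_sum
      intro i hi
      have h2 : (k : ℤ) ^ i ≤ (k : ℤ) ^ f.natDegree :=
        pow_le_pow_right₀ hk1 (by rw [mem_range] at hi; omega)
      calc f.coeff i * (k : ℤ) ^ i ≤ |f.coeff i| * (k : ℤ) ^ i :=
            mul_le_mul_of_nonneg_right (le_abs_self _) (by positivity)
        _ ≤ _ := mul_le_mul_of_nonneg_left h2 (abs_nonneg _)
    have h3 : (0 : ℤ) ≤ 1 * (k : ℤ) ^ f.natDegree := by positivity
    linarith
  · intro hlc hd k hk
    have hk1 : (1 : ℤ) ≤ k := by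
      have : 1 ≤ k := by omega
      exact_mod_cast this
    have hk2 : 2 * (B : ℤ) ≤ k := by exact_mod_cast hk
    obtain ⟨d, hdd⟩ : ∃ d, f.natDegree = d + 1 := ⟨f.natDegree - 1, by omega⟩
    rw [Polynomial.eval_eq_sum_range, sum_range_succ]
    have h1 : -((B : ℤ) * (k : ℤ) ^ d) ≤ ∑ i ∈ range f.natDegree, f.coeff i * (k : ℤ) ^ i := by
      have h2 : ∑ i ∈ range f.natDegree, -(|f.coeff i| * (k : ℤ) ^ d) ≤
          ∑ i ∈ range f.natDegree, f.coeff i * (k : ℤ) ^ i := by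
        apply sum_le_sum
        intro i hi
        have h2 : (k : ℤ) ^ i ≤ (k : ℤ) ^ d :=
          pow_le_pow_right₀ hk1 (by rw [mem_range] at hi; omega)
        have h3 : -(|f.coeff i| * (k : ℤ) ^ i) ≤ f.coeff i * (k : ℤ) ^ i := by
          rw [← neg_mul]
          exact mul_le_mul_of_nonneg_right (neg_abs_le _) (by positivity)
        have h4 : |f.coeff i| * (k : ℤ) ^ i ≤ |f.coeff i| * (k : ℤ) ^ d :=
          mul_le_mul_of_nonneg_left h2 (abs_nonneg _)
        linarith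
      refine le_trans ?_ h2
      rw [sum_neg_distrib, ← sum_mul]
      apply neg_le_neg
      apply mul_le_mul_of_nonneg_right _ (by positivity)
      rw [hB', sum_range_succ]
      have := abs_nonneg (f.coeff f.natDegree)
      linarith
    have h2 : (k : ℤ) ^ f.natDegree ≤ f.coeff f.natDegree * (k : ℤ) ^ f.natDegree := by
      have h3 : (1 : ℤ) ≤ f.coeff f.natDegree := hlc
      have h4 : (0 : ℤ) ≤ (k : ℤ) ^ f.natDegree := by positivity
      nlinarith
    have h3 : 2 * ((B : ℤ) * (k : ℤ) ^ d) ≤ (k : ℤ) ^ f.natDegree := by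
      rw [hdd, pow_succ]
      have h4 : (0 : ℤ) ≤ (k : ℤ) ^ d := by positivity
      nlinarith
    linarith

end Pool.Agent.L0h69.SI
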