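import Pool.Agent.Helper112.Arith
import Pool.Agent.W57.SW.Rank
import Pool.Agent.H174R3.D6.TaskLS

/-!
# Numbers with all small primes of symbol one in a short arithmetic progression: the large sieve
-/

set_option autoImplicit false

namespace Pool.Agent.L0h69.SI

open Finset Real Pool.Agent.W57.SW

/-- the classes with a given value of the quadratic character are at most half of all -/
lemma half_classes (q : ℕ) [Fact q.Prime] (hq : q ≠ 2) (s : ℤ) (hs : s = 1 ∨ s = -1) :
    2 * ((univ : Finset (ZMod q)).filter (fun y => quadraticChar (ZMod q) y = s)).card ≤ q := by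
  classical
  have h0 : ∑ y : ZMod q, quadraticChar (ZMod q) y = 0 :=
    quadraticChar_sum_zero (by rw [ZMod.ringChar_zmod_n]; exact hq)
  have h1 : ∀ y : ZMod q, quadraticChar (ZMod q) y =
      (if quadraticChar (ZMod q) y = 1 then 1 else 0) -
        (if quadraticChar (ZMod q) y = -1 then 1 else 0) := by
    intro y
    by_cases hy : y = 0
    · rw [hy]; simp
    · rcases quadraticChar_dichotomy hy with h | h <;> rw [h] <;> norm_num
  rw [sum_congr rfl fun y _ => h1 y, sum_sub_distrib, sum_boole, sum_boole, sub_eq_zero] at h0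
  have h0' : ((univ : Finset (ZMod q)).filter (fun y => quadraticChar (ZMod q) y = 1)).card =
      ((univ : Finset (ZMod q)).filter (fun y => quadraticChar (ZMod q) y = -1)).card := by
    exact_mod_cast h0
  have hdisj : Disjoint ((univ : Finset (ZMod q)).filter (fun y => quadraticChar (ZMod q) y = 1))
      ((univ : Finset (ZMod q)).filter (fun y => quadraticChar (ZMod q) y = -1)) := by
    rw [disjoint_filter]
    intro y _ h2 h3
    rw [h2] at h3
    norm_num at h3
  have h2 := card_le_univ (((univ : Finset (ZMod q)).filter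
    (fun y => quadraticChar (ZMod q) y = 1)) ∪
      ((univ : Finset (ZMod q)).filter (fun y => quadraticChar (ZMod q) y = -1)))
  rw [card_union_of_disjoint hdisj, ZMod.card] at h2
  rcases hs with rfl | rfl <;> omega

/-- the sieve inequality -/
lemma sieve_core (L Q : ℕ) (P : Finset ℕ) (I : ℕ → Finset ℕ) (S : Finset (Finset ℕ))
    (hP : ∀ q ∈ P, q.Prime) (hI : ∀ q ∈ P, I q ⊆ range q) (hI2 : ∀ q ∈ P, 2 * (I q).card ≤ q)
    (hS : ∀ s ∈ S, s ⊆ P ∧ ∏ q ∈ s, q ≤ Q) (T : Finset ℕ) (hT : T ⊆ Icc 1 L)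
    (hTI : ∀ n ∈ T, ∀ q ∈ P, n % q ∈ I q) (c : ℝ) (hc : 0 < c)
    (hSc : ∀ s ∈ S, c ≤ (1 / 2 : ℝ) ^ s.card) :
    (T.card : ℝ) * (c * S.card) ≤ 6 * ((L : ℝ) + (Q : ℝ) ^ 2) := by
  classical
  have key := Pool.Agent.H174R3.D6LS.taskLS L Q P I S (fun _ => 1) hP hI hS
  simp only [one_mul, one_pow] at key
  obtain ⟨W, hW⟩ : ∃ W : ℝ, W = ∑ s ∈ S, (1 / 2 : ℝ) ^ s.card := ⟨_, rfl⟩
  have hρ : ∀ q ∈ P, ((I q).card : ℝ) / q ≤ 1 / 2 := by
    intro q hq
    have hq0 : (0 : ℝ) < q := by exact_mod_cast (hP q hq).pos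
    rw [div_le_iff₀ hq0]
    have : (2 : ℝ) * (I q).card ≤ q := by exact_mod_cast hI2 q hq
    linarith
  have hR : ∑ s ∈ S, ∏ q ∈ s, ((I q).card : ℝ) / q ≤ W := by
    rw [hW]
    apply sum_le_sum
    intro s hs
    rw [← prod_const]
    exact prod_le_prod (fun q _ => by positivity) fun q hq => hρ q ((hS s hs).1 hq)
  have hL : (T.card : ℝ) * W ^ 2 ≤ ∑ n ∈ Icc 1 L, (∑ s ∈ S,
      ∏ q ∈ s, ((if n % q ∈ I q then (1 : ℝ) else 0) - ((I q).card : ℝ) / q)) ^ 2 := by
    calc (T.card : ℝ) * W ^ 2 = ∑ n ∈ T, W ^ 2 := by rw [sum_const, nsmul_eq_mul]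
      _ ≤ ∑ n ∈ T, (∑ s ∈ S, ∏ q ∈ s, ((if n % q ∈ I q then (1 : ℝ) else 0) -
            ((I q).card : ℝ) / q)) ^ 2 := by
          apply sum_le_sum
          intro n hn
          apply pow_le_pow_left₀ (by rw [hW]; positivity)
          rw [hW]
          apply sum_le_sum
          intro s hs
          rw [← prod_const]
          apply prod_le_prod (fun q _ => by positivity)
          intro q hq
          have hqP := (hS s hs).1 hq
          rw [if_pos (hTI n hn q hqP)]
          have := hρ q hqP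
          linarith
      _ ≤ _ := sum_le_sum_of_subset_of_nonneg hT fun _ _ _ => sq_nonneg _
  have h1 : (T.card : ℝ) * W ^ 2 ≤ 6 * ((L : ℝ) + (Q : ℝ) ^ 2) * W :=
    hL.trans (key.trans (mul_le_mul_of_nonneg_left hR (by positivity)))
  have h2 : c * S.card ≤ W := by
    rw [hW, mul_comm, ← nsmul_eq_mul, ← sum_const]
    exact sum_le_sum fun s hs => hSc s hs
  rcases S.eq_empty_or_nonempty with h3 | h3
  · rw [h3]
    simp only [card_empty, Nat.cast_zero, mul_zero]
    positivity
  · have hS0 : (0 : ℝ) < S.card := by exact_mod_cast card_pos.2 h3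
    have hWp : 0 < W := lt_of_lt_of_le (by positivity) h2
    have h4 : ((T.card : ℝ) * W) * W ≤ (6 * ((L : ℝ) + (Q : ℝ) ^ 2)) * W := by
      calc ((T.card : ℝ) * W) * W = (T.card : ℝ) * W ^ 2 := by ring
        _ ≤ _ := h1
    exact (mul_le_mul_of_nonneg_left h2 (Nat.cast_nonneg _)).trans (le_of_mul_le_mul_right h4 hWp)

/-- `2 ^ ω(n) ≤ d(n)` -/
lemma two_pow_le (n : ℕ) (hn : n ≠ 0) : 2 ^ n.primeFactors.card ≤ n.divisors.card := by
  classical
  rw [← card_powerset]
  apply card_le_card_of_injOn (fun T => ∏ q ∈ T, q)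
  · intro T hT
    rw [mem_coe, mem_powerset] at hT
    rw [mem_coe, Nat.mem_divisors]
    refine ⟨?_, hn⟩
    exact (prod_dvd_prod_of_subset _ _ _ hT).trans (Nat.prod_primeFactors_dvd n)
  · intro T hT T' hT' h
    rw [mem_coe, mem_powerset] at hT hT'
    have e : ∀ U : Finset ℕ, U ⊆ n.primeFactors → (∏ q ∈ U, q).primeFactors = U := by
      intro U hU
      exact Nat.primeFactors_prod fun q hq => Nat.prime_of_mem_primeFactors (hU hq)
    rw [← e T hT, ← e T' hT']
    simp only at h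
    rw [h]

end Pool.Agent.L0h69.SI
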